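import Mathlib
import Pool.Agent.Helper35.MS.StJ
import Pool.Agent.Helper35.MS.Flow

/-!
# Project HSF (MP_925021_gt): hypersurfaces of the sphere, all dimensions, sharp constant `1`, definitions

Flows are rescaled to `ℝ^(n+2)`: `|F(·,t)|² = rr n t = 1 - 2nt`, `∂_t F = HH`.  `ν` is the unit normal
in the sphere: `ν ⟂ F`, `ν ⟂ TM_t`.  Notation: `ρ² = rr n t`, `A_ij = h_ij ν - g_ij F/ρ²`,
`HH = Hs ν - (n/ρ²) F`, `|h|² = AA - n/ρ²`, `Hs² = |HH|² - n²/ρ²`, `|h°|² = AA - |HH|²/n`.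
-/

set_option autoImplicit false

namespace Helper35.HSF

open Helper35.PI Helper35.PI2 Helper32.CL Helper35.MS
open scoped ContDiff Manifold Topology ENNReal BigOperators
open MeasureTheory Set Filter

/-- `ρ² = 1 - 2nt` -/
noncomputable def rr (n : ℕ) (t : ℝ) : ℝ := 1 - 2 * n * t

section Defs

variable {n N : ℕ} {M : Type} [TopologicalSpace M] [ChartedSpace (EE n) M]

/-- the tangent vector with coordinates `c` in the preferred chart at `q` -/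
noncomputable def tv (F : M → ℝ → EE N) (q : M) (t : ℝ) (c : Fin n → ℝ) : EE N :=
  ∑ i, c i • dv1 (loc (n := n) F q t) (chartAt (EE n) q q) i

/-- its squared length `g(c,c)` -/
noncomputable def gn (F : M → ℝ → EE N) (q : M) (t : ℝ) (c : Fin n → ℝ) : ℝ :=
  ‖tv F q t c‖ ^ 2

/-- `A(c,c)` -/
noncomputable def An (F : M → ℝ → EE N) (q : M) (t : ℝ) (c : Fin n → ℝ) : EE N :=
  ∑ i, ∑ j, (c i * c j) • sff (loc (n := n) F q t) (chartAt (EE n) q q) i j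

/-- `h(c,c) = ⟨A(c,c), ν⟩` -/
noncomputable def hn (F ν : M → ℝ → EE N) (q : M) (t : ℝ) (c : Fin n → ℝ) : ℝ :=
  inner ℝ (An F q t c) (ν q t)

/-- the mean curvature `H = ⟨HH, ν⟩` -/
noncomputable def Hs (n : ℕ) {N : ℕ} {M : Type} [TopologicalSpace M] [ChartedSpace (EE n) M]
    (F ν : M → ℝ → EE N) (q : M) (t : ℝ) : ℝ := inner ℝ (HH (n := n) F q t) (ν q t)

/-- the chord function `2⟨Y - X, ν_x⟩/|Y - X|²` -/
noncomputable def zch {N : ℕ} {M : Type} (F ν : M → ℝ → EE N) (x y : M) (t : ℝ) : ℝ :=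
  2 * inner ℝ (F y t - F x t) (ν x t) / ‖F y t - F x t‖ ^ 2

/-- all chord and normal curvatures at `x` -/
def ZS (n : ℕ) {N : ℕ} {M : Type} [TopologicalSpace M] [ChartedSpace (EE n) M]
    (F ν : M → ℝ → EE N) (x : M) (t : ℝ) : Set ℝ :=
  {z | ∃ y, F y t ≠ F x t ∧ z = zch F ν x y t} ∪
    {z | ∃ c : Fin n → ℝ, gn F x t c = 1 ∧ z = hn F ν x t c}

/-- hypersurface of the sphere of radius `ρ` at time `t`, with unit normal `ν` -/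
structure Hyp (n : ℕ) {M : Type} [TopologicalSpace M] [ChartedSpace (EE n) M] (ρ t : ℝ)
    (F ν : M → ℝ → EE (n + 2)) : Prop where
  ρ0 : 0 < ρ
  sF : ContMDiff (𝓡 n) 𝓘(ℝ, EE (n + 2)) ∞ (fun q => F q t)
  sν : ContMDiff (𝓡 n) 𝓘(ℝ, EE (n + 2)) ∞ (fun q => ν q t)
  im : ∀ q, LI (loc (n := n) F q t) (chartAt (EE n) q q)
  nF : ∀ q, ‖F q t‖ = ρ
  nν : ∀ q, ‖ν q t‖ = 1
  Fν : ∀ q, (inner ℝ (F q t) (ν q t) : ℝ) = 0
  tν : ∀ q, ∀ v ∈ TS (n := n) F q t, (inner ℝ v (ν q t) : ℝ) = 0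

/-- the flow -/
structure HFl (n : ℕ) {M : Type} [TopologicalSpace M] [ChartedSpace (EE n) M] (J : Set ℝ)
    (F ν : M → ℝ → EE (n + 2)) : Prop where
  mcf : IsMCFJ (n := n) J F
  sν : ContMDiffOn ((𝓡 n).prod 𝓘(ℝ, ℝ)) 𝓘(ℝ, EE (n + 2)) ∞
    (fun z : M × ℝ => ν z.1 z.2) (univ ×ˢ J)
  r0 : ∀ t ∈ J, 0 < rr n t
  sph : ∀ q, ∀ t ∈ J, ‖F q t‖ ^ 2 = rr n t
  nν : ∀ q, ∀ t ∈ J, ‖ν q t‖ = 1
  Fν : ∀ q, ∀ t ∈ J, (inner ℝ (F q t) (ν q t) : ℝ) = 0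
  tν : ∀ q, ∀ t ∈ J, ∀ v ∈ TS (n := n) F q t, (inner ℝ v (ν q t) : ℝ) = 0

/-- smooth real function on `M × J` -/
def SmJ (n : ℕ) {M : Type} [TopologicalSpace M] [ChartedSpace (EE n) M] (J : Set ℝ)
    (u : M → ℝ → ℝ) : Prop :=
  ContMDiffOn ((𝓡 n).prod 𝓘(ℝ, ℝ)) 𝓘(ℝ, ℝ) ∞ (fun z : M × ℝ => u z.1 z.2) (univ ×ˢ J)

/-- smooth vector valued function on `M × J` -/
def SmV (n : ℕ) {N : ℕ} {M : Type} [TopologicalSpace M] [ChartedSpace (EE n) M] (J : Set ℝ)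
    (u : M → ℝ → EE N) : Prop :=
  ContMDiffOn ((𝓡 n).prod 𝓘(ℝ, ℝ)) 𝓘(ℝ, EE N) ∞ (fun z : M × ℝ => u z.1 z.2) (univ ×ˢ J)

/-- Laplacian on `M_t` -/
noncomputable def lapN (n : ℕ) {N : ℕ} {M : Type} [TopologicalSpace M] [ChartedSpace (EE n) M]
    (F : M → ℝ → EE N) (u : M → ℝ → ℝ) (q : M) (t : ℝ) : ℝ :=
  dvg (n := n) F (gdM n F t (fun q => u q t)) q t

/-- heat operator `∂_t - Δ` -/
noncomputable def htN (n : ℕ) {N : ℕ} {M : Type} [TopologicalSpace M] [ChartedSpace (EE n) M]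
    (F : M → ℝ → EE N) (u : M → ℝ → ℝ) (q : M) (t : ℝ) : ℝ :=
  deriv (fun s => u q s) t - lapN n F u q t

/-- `θ = |h°|² = |A|² - |HH|²/n` -/
noncomputable def thN (n : ℕ) {N : ℕ} {M : Type} [TopologicalSpace M] [ChartedSpace (EE n) M]
    (F : M → ℝ → EE N) (q : M) (t : ℝ) : ℝ :=
  AA (n := n) F q t - ‖HH (n := n) F q t‖ ^ 2 / n

/-- `e = H² = |HH|² - n²/ρ²` -/
noncomputable def eN (n : ℕ) {N : ℕ} {M : Type} [TopologicalSpace M] [ChartedSpace (EE n) M]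
    (F : M → ℝ → EE N) (q : M) (t : ℝ) : ℝ :=
  ‖HH (n := n) F q t‖ ^ 2 - n ^ 2 / rr n t

/-- `|h|² = |A|² - n/ρ²` -/
noncomputable def h2N (n : ℕ) {N : ℕ} {M : Type} [TopologicalSpace M] [ChartedSpace (EE n) M]
    (F : M → ℝ → EE N) (q : M) (t : ℝ) : ℝ :=
  AA (n := n) F q t - n / rr n t

/-- a chart of the flow at `(p₀,t₀)` by a graph over `range L` -/
structure GCh (n : ℕ) {N : ℕ} {M : Type} [TopologicalSpace M] [ChartedSpace (EE n) M]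
    (F : M → ℝ → EE N) (p₀ : M) (t₀ : ℝ) (L : EE n →ₗᵢ[ℝ] EE N) (u : EE n × ℝ → EE N)
    (θ : EE n × ℝ → M) : Prop where
  sol : GraphSol (F p₀ t₀) L u t₀
  rg : LinearMap.range L.toLinearMap = TS (n := n) F p₀ t₀
  pt : θ (0, t₀) = p₀
  ct : ContinuousAt θ (0, t₀)
  eq : ∀ᶠ z in 𝓝 ((0 : EE n), t₀), F (θ z) z.2 = grf (F p₀ t₀) L u z.2 z.1
  hH : ∀ᶠ z in 𝓝 ((0 : EE n), t₀), HH (n := n) F (θ z) z.2 = mcv (grf (F p₀ t₀) L u z.2) z.1 ∧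
    AA (n := n) F (θ z) z.2 = nsq (grf (F p₀ t₀) L u z.2) z.1 ∧
    ZF (n := n) F (θ z) z.2 = zsq (grf (F p₀ t₀) L u z.2) z.1
  ts : ∀ᶠ z in 𝓝 ((0 : EE n), t₀), Submodule.span ℝ
    (range fun i => dv1 (grf (F p₀ t₀) L u z.2) z.1 i) = TS (n := n) F (θ z) z.2
  fs : ∀ᶠ z in 𝓝 ((0 : EE n), t₀), ∀ U : Fin n → ℝ, ∃ c : Fin n → ℝ,
    tv F (θ z) z.2 c = ∑ i, U i • dv1 (grf (F p₀ t₀) L u z.2) z.1 i ∧
    An F (θ z) z.2 c = ∑ i, ∑ j, (U i * U j) • sff (grf (F p₀ t₀) L u z.2) z.1 i j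
  fs' : ∀ c : Fin n → ℝ, ∃ U : Fin n → ℝ,
    tv F p₀ t₀ c = ∑ i, U i • L (ee i) ∧
    An F p₀ t₀ c = ∑ i, ∑ j, (U i * U j) • jgg u (0, t₀) i j

/-- the pinching with constant `k` at time `t` -/
def PinK (n : ℕ) {M : Type} [TopologicalSpace M] [ChartedSpace (EE n) M] (k : ℝ)
    (F ν : M → ℝ → EE (n + 2)) (t : ℝ) : Prop :=
  ∀ x, ∀ z₁ ∈ ZS n F ν x t, ∀ z₂ ∈ ZS n F ν x t, (1 - k) * z₁ ^ 2 - z₁ * z₂ < k / rr n t

end Defs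

/-- local property of a function at its zeros: isolated point of `{φ ≥ 0}`, or `{φ > 0}` is locally
connected at the zero and `{φ ≥ 0}` is locally in the closure of `{φ > 0}` -/
def LPr {M : Type} [TopologicalSpace M] (φ : M → ℝ) : Prop :=
  ∀ x, φ x = 0 → (∃ B ∈ 𝓝 x, ∀ y ∈ B, y ≠ x → φ y < 0) ∨
    ∀ U ∈ 𝓝 x, ∃ B, IsOpen B ∧ x ∈ B ∧ B ⊆ U ∧ IsPreconnected (B ∩ {y | 0 < φ y}) ∧
      B ∩ {y | 0 ≤ φ y} ⊆ closure (B ∩ {y | 0 < φ y})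

end Helper35.HSF
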