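import Mathlib
import Pool.Agent.Helper35.HSF.Defs

/-!
Project HSF (MP_925021_gt), module statements, part A: from local to global for hypersurfaces of the
sphere (a quantitative do Carmo-Warner theorem).  If `g : M → S^(n+1)` is an immersion with unit normal
`η` and definite second fundamental form then all sets `{⟨g,a⟩ > 0}` are connected and
`⟨g(y), η(x)⟩ ≥ 0` for all `x, y`.  Applied to `g = cosφ f + sinφ ν` this gives touching balls.

Every module proves `theorem hX : StX` from the listed hypotheses.  COMPLETE proofs in the docstrings.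
-/

set_option autoImplicit false

namespace Helper35.HSF

open Helper35.PI Helper35.PI2 Helper32.CL Helper35.MS
open scoped ContDiff Manifold Topology ENNReal BigOperators
open MeasureTheory Set Filter

/-! ### Topology -/

/-- LOC. Local structure of `{φ > 0}` at a zero `x` of `φ : ℝ^n → ℝ`, `n ≥ 2`, which is regular or a
nondegenerate extremum.

Proof. (a) `Dφ(x) = 0`, Hessian negative definite: `D²φ(x)(v,v) ≤ -2δ|v|²` (compact unit sphere), Taylor: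
`φ(y) ≤ -(δ/2)|y-x|²` near `x`: first alternative. (b) Positive definite: `φ > 0` on `B \ {x}` for a small
open ball `B ⊆ U`; `B ∩ {φ > 0} = B \ {x}` is connected (`n ≥ 2`; image of `(0,r) × S` with the connected
unit sphere `S`, `isPreconnected_sphere`), and `x` is a limit of it. (c) `Dφ(x) ≠ 0`: choose `v` with `Dφ(x)v = 1`
and `B = {x + w + s v : w ∈ ker Dφ(x), |w| < r, |s| < δ}` (open: `y ↦ (w,s)` is a linear isomorphism),
`δ` and then `r` so small that `B ⊆ U`, `Dφ(y)v > 1/2` on `B` and `φ(x + w + s v) > 0` for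
`δ/2 ≤ s < δ`, `|w| < r` (`φ(x + (δ/2)v) > 0`, continuity, monotonicity in `s`). On each vertical segment `φ` is
strictly increasing, so the part of the segment in `{φ > 0}` is a segment which meets the convex slab
`{δ/2 ≤ s < δ} ⊆ {φ > 0}`: hence `B ∩ {φ > 0}` is preconnected (`isPreconnected_of_forall`-type argument), and
a point of `B` with `φ ≥ 0` is the limit of the points above it. -/
def StLOC : Prop := ∀ (n : ℕ), 2 ≤ n → ∀ (φ : EE n → ℝ) (x : EE n), ContDiffAt ℝ 2 φ x → φ x = 0 →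
    (fderiv ℝ φ x = 0 →
      (∀ v : EE n, v ≠ 0 → 0 < fderiv ℝ (fun y => fderiv ℝ φ y v) x v) ∨
      (∀ v : EE n, v ≠ 0 → fderiv ℝ (fun y => fderiv ℝ φ y v) x v < 0)) →
    (∃ B ∈ 𝓝 x, ∀ y ∈ B, y ≠ x → φ y < 0) ∨
      ∀ U ∈ 𝓝 x, ∃ B, IsOpen B ∧ x ∈ B ∧ B ⊆ U ∧ IsPreconnected (B ∩ {y | 0 < φ y}) ∧
        B ∩ {y | 0 ≤ φ y} ⊆ closure (B ∩ {y | 0 < φ y})

/-- AFC. The complement of a finite set in a connected manifold of dimension `≥ 2` is connected.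

Proof. Induction on the finite set: let `E = E' ∪ {p}`, `p ∉ E'`, `W = M \ E'` open and preconnected.
Suppose `W \ {p}` is not preconnected: disjoint open `A, B` (open in `M`: `W` and `{p}ᶜ` are open) which cover
`W \ {p}` and both meet it; replace `A, B` by their intersections with `W \ {p}`. Let `U ⊆ W` be the preimage of
a small open ball around the image of `p` in the chart at `p`; `U \ {p}` is connected and nonempty (ball of
`ℝ^n` minus its centre, `n ≥ 2`), so it lies in one of the sets, say `A`. Then `A ∪ U` and `B` are open, disjoint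
(`p ∉ B`), nonempty and cover `W`: contradiction. -/
def StAFC : Prop := ∀ (n : ℕ), 2 ≤ n → ∀ (M : Type) [TopologicalSpace M] [T2Space M]
    [ConnectedSpace M] [ChartedSpace (EE n) M] (E : Set M), E.Finite → IsPreconnected Eᶜ

/-- ACL. Closures of components of `{φ > 0}`.

Proof. Let `P = {φ > 0}` (open), `C` the component of `x` in `P`; `C` is open (`M` locally connected,
`IsOpen.connectedComponentIn`) and closed in `P`. `closure C ⊆ {φ ≥ 0}`. If `φ y > 0`, `y ∉ C`: the component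
`C'` of `y` in `P` is open and disjoint from `C`, so `y ∉ closure C`. Closedness of `{φ ≥ 0} \ closure C`: show that
every `z ∈ closure C` has a neighbourhood `B` with `B ∩ {φ ≥ 0} ⊆ closure C`. If `φ z > 0`: `z ∈ C`, `B = C`. If
`φ z = 0`: by `LPr` either `z` is isolated in `{φ ≥ 0}`: impossible, as `z` is a limit of points of `C`, `z ∉ C`; or
there is `B` with `B ∩ P` preconnected and `B ∩ {φ ≥ 0} ⊆ closure (B ∩ P)`; `B ∩ C ≠ ∅`, so `B ∩ P ⊆ C`. -/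
def StACL : Prop := ∀ (M : Type) [TopologicalSpace M] [LocallyConnectedSpace M] (φ : M → ℝ),
    Continuous φ → LPr φ → ∀ x, 0 < φ x →
    ∀ C : Set M, C = connectedComponentIn {y | 0 < φ y} x →
    IsOpen C ∧ closure C ⊆ {y | 0 ≤ φ y} ∧ IsClosed ({y | 0 ≤ φ y} \ closure C) ∧
      ∀ y, 0 < φ y → y ∉ C → y ∉ closure C

/-- ALC (hACL : StACL). The relation `x, x' lie in the same component of {⟨g,a⟩ > 0}` does not depend on `a`.

Proof. `M` is locally connected (`ChartedSpace.locallyConnectedSpace`). `Λ = {a : ⟨g x,a⟩ > 0, ⟨g x',a⟩ > 0}` is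
convex, hence preconnected; `S ⊆ Λ` the set of `a` for which the relation holds. `S` is open: for `a ∈ S` the open
connected component `C` contains a compact connected set (a path: `IsOpen.isConnected_iff_isPathConnected`, or
the set of points of `C` which can be joined to `x` inside `{⟨g,a⟩ > δ}` for some `δ > 0` is open and closed in
`C`) `K ∋ x, x'`; `⟨g,a⟩ ≥ δ > 0` on `K`, so `⟨g,a'⟩ > 0` on `K` for `a'` near `a` (`g` is bounded). `S` is relatively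
closed: let `a ∈ Λ \ S`, `φ = ⟨g,a⟩`, `C` the component of `x`. By ACL (`LPr φ`, as `a ≠ 0`) `K₁ = closure C` and
`K₂ = {φ ≥ 0} \ closure C` are disjoint compact sets with union `{φ ≥ 0}`, `x ∈ K₁`, `x' ∈ K₂`. Disjoint open
`O₁ ⊇ K₁`, `O₂ ⊇ K₂` (`SeparatedNhds` of compact sets); on the compact complement of `O₁ ∪ O₂`, `φ ≤ -δ < 0`, so for
`a'` near `a` `{⟨g,a'⟩ > 0} ⊆ O₁ ∪ O₂` and the component of `x` lies in `O₁`: `a' ∉ S`. So `S = ∅` or `S = Λ`. -/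
def StALC : Prop := ∀ (n N : ℕ) (M : Type) [TopologicalSpace M] [T2Space M] [CompactSpace M]
    [ChartedSpace (EE n) M] (g : M → EE N), Continuous g →
    (∀ a : EE N, a ≠ 0 → LPr (fun y => (inner ℝ (g y) a : ℝ))) → ∀ x x' : M,
    ∀ a a' : EE N, 0 < (inner ℝ (g x) a : ℝ) → 0 < (inner ℝ (g x') a : ℝ) →
    0 < (inner ℝ (g x) a' : ℝ) → 0 < (inner ℝ (g x') a' : ℝ) →
    x' ∈ connectedComponentIn {y | 0 < (inner ℝ (g y) a : ℝ)} x →
    x' ∈ connectedComponentIn {y | 0 < (inner ℝ (g y) a' : ℝ)} x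

/-- ACN (hAFC : StAFC)(hALC : StALC). All sets `{⟨g,a⟩ > 0}` are connected.

Proof. Write `x ~_a x'` for the relation of ALC. For `x, x'` with `g x' ≠ -g x` the set `Λ(x,x')` of ALC is
nonempty (`a = g x + g x'`, unit vectors), and by ALC `x ~_a x'` holds for all `a ∈ Λ` or for none. Fix `x`, let
`W = {x' : g x' ≠ -g x}`, the complement of a finite set, preconnected (AFC), and `R = {x' ∈ W : x ~_a x' for all
a ∈ Λ(x,x')}`. `x ∈ R`. `R` is open: for `x' ∈ R`, `a ∈ Λ(x,x')`, all `x''` in a connected neighbourhood of `x'` inside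
`{⟨g,a⟩ > 0}` have `x ~_a x''`, so `x'' ∈ R` by ALC. `W \ R` is open: for `x' ∈ W \ R`, `a ∈ Λ(x,x')`, not
`x ~_a x'`, and for `x''` in such a neighbourhood not `x ~_a x''`. So `R = W`. Given `a` and `x, x'` with
`⟨g x,a⟩, ⟨g x',a⟩ > 0`: `g x' ≠ -g x`, so `x' ∈ R` and `x ~_a x'`. -/
def StACN : Prop := ∀ (n N : ℕ), 2 ≤ n → ∀ (M : Type) [TopologicalSpace M] [T2Space M]
    [CompactSpace M] [ConnectedSpace M] [ChartedSpace (EE n) M] (g : M → EE N), Continuous g →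
    (∀ q, ‖g q‖ = 1) → (∀ b : EE N, (g ⁻¹' {b}).Finite) →
    (∀ a : EE N, a ≠ 0 → LPr (fun y => (inner ℝ (g y) a : ℝ))) →
    ∀ a : EE N, IsPreconnected {y | 0 < (inner ℝ (g y) a : ℝ)}

/-! ### Hypersurfaces of the sphere with definite second fundamental form -/

/-- ASP (hLOC : StLOC)(hACN : StACN). The support property.

Proof. Write `g_p = g ∘ (chartAt p).symm`, `φ_a = ⟨g,a⟩`. From `|g| = 1`, `⟨g,η⟩ = 0` and the tangency:
`⟨Dg_p v, g⟩ = 0`, `⟨Dg_p v, η⟩ = 0` on the whole target, so (differentiate the second identity along `v`)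
`⟨D²g_p(v,v), η⟩ = -⟨Dg_p v, Dη_p v⟩ > 0` for `v ≠ 0`. In particular `Dg_p v ≠ 0`: `g` is an immersion and the
fibres of `g` are discrete and closed, hence finite. (1) `LPr φ_a` for `a ≠ 0`: at a zero `x` of `φ_a` use the
preferred chart at `x`, `φ = φ_a ∘ symm`. If `Dφ = 0` at the point then `a` is orthogonal to `g(x)` and to the
`n` independent vectors `Dg_x e_i`, which are also orthogonal to `g(x)`; the orthogonal complement of these
`n + 1` independent vectors in `ℝ^(n+2)` is `ℝ η(x)`, so `a = b η(x)`, `b ≠ 0`, and `D²φ(v,v) = b⟨D²g_p(v,v), η⟩`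
is definite. LOC gives the local structure in the chart; transport it to `M` (the chart is a homeomorphism onto
an open set, take `U` inside the target). (2) ACN: all `{φ_a > 0}` are connected. (3) Suppose
`⟨g y, η x⟩ < 0`. `a_ε = -η(x) + ε g(x)`, `ε > 0` small: `φ(x) = ε > 0`, `φ(y) > 0`. In the chart at `x` the function
`ψ = -⟨g, η(x)⟩` has a strict local maximum `0` at `x` (`Dψ = 0`, `D²ψ(v,v) = -⟨D²g(v,v),η⟩ < 0`): there is a
closed coordinate ball `B ∋ x` with `ψ ≤ 0` on `B`, `ψ ≤ -δ < 0` on its boundary sphere; `y ∉ B`. For `ε < δ`,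
`φ_{a_ε} ≤ -δ + ε < 0` on the boundary, so the connected set `{φ_{a_ε} > 0}` contains `x` in the interior of
`B` and `y` outside `B` and does not meet the boundary of `B`: contradiction. (4) Suppose `g x = g y`, `η x = η y`,
`x ≠ y`: the same `a_ε` with `φ(x) = φ(y) = ε > 0`, `B` small with `y ∉ B`: contradiction. -/
def StASP : Prop := ∀ (n : ℕ), 2 ≤ n → ∀ (M : Type) [TopologicalSpace M] [T2Space M]
    [CompactSpace M] [ConnectedSpace M] [ChartedSpace (EE n) M] [IsManifold (𝓡 n) ∞ M]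
    (g η : M → EE (n + 2)), ContMDiff (𝓡 n) 𝓘(ℝ, EE (n + 2)) ∞ g →
    ContMDiff (𝓡 n) 𝓘(ℝ, EE (n + 2)) ∞ η → (∀ q, ‖g q‖ = 1) → (∀ q, ‖η q‖ = 1) →
    (∀ q, (inner ℝ (g q) (η q) : ℝ) = 0) →
    (∀ p : M, ∀ y ∈ (chartAt (EE n) p).target, ∀ v : EE n,
      (inner ℝ (fderiv ℝ (fun y => g ((chartAt (EE n) p).symm y)) y v)
        (η ((chartAt (EE n) p).symm y)) : ℝ) = 0) →
    (∀ p : M, ∀ y ∈ (chartAt (EE n) p).target, ∀ v : EE n, v ≠ 0 →
      (inner ℝ (fderiv ℝ (fun y => g ((chartAt (EE n) p).symm y)) y v)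
        (fderiv ℝ (fun y => η ((chartAt (EE n) p).symm y)) y v) : ℝ) < 0) →
    (∀ x y, 0 ≤ (inner ℝ (g y) (η x) : ℝ)) ∧ ∀ x y, g x = g y → η x = η y → x = y

/-- WEI (hI3J : StI3J)(hFR : StFR)(hNR : StNR). The shape operator: derivatives of `ν` in charts.

Proof. Use the frozen family `G q _ = F q t` (`IsImmJ univ G`; `loc`, `sff`, `TS` of `G` at any time are those of `F`
at `t`). Let `p`, `y` in the target of the chart at `p`, `q = symm y`, `f = loc F p t`, `f_i = dv1 f y i`,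
`ν_i = ∂_i(ν∘symm)(y)`. `⟨f_j,ν⟩ = 0` on the target (I3J: `TS F q t` is the span of the `f_j(y)`, and `tν`), so
`⟨f_j,ν_i⟩ = -⟨∂_i∂_jf,ν⟩ = -⟨sff f y i j, ν⟩` (`ν` is normal, NR) `=: -K_ij`, symmetric. `⟨ν,ν_i⟩ = 0`;
`⟨F,ν⟩ = 0` gives `⟨F,ν_i⟩ = -⟨f_i,ν⟩ = 0`. So `ν_i` lies in the span of the `f_j` (orthogonal complement of
`F, ν` in `ℝ^(n+2)`). The last statement: with an orthonormal frame of the tangent space (FR) `Dν = -Df∘W`, `W`
symmetric with `⟨Df v, Df (W v)⟩ = Σ K_ij v_iv_j`; `Σ K_ij v_iv_j = hn F ν q t c` and `|Df v|² = gn F q t c` for the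
coordinates `c` of the same tangent vector in the preferred chart at `q` (transition map: `sff` transforms as a
tensor, `StIA`-type formula; `dv1` by the chain rule). In an orthonormal eigenbasis of `W` with eigenvalues `κ_i`
(values of `hn` at unit vectors, so `lo < κ_i < hi`): for `v ≠ 0` `⟨(a₁+b₁W)v, (a₂+b₂W)v⟩ = Σ(a₁+b₁κ_i)(a₂+b₂κ_i)v_i² > 0`
if `(a₁+b₁κ)(a₂+b₂κ) > 0` for all `κ ∈ (lo,hi)`; and `⟨D(a₁F - b₁ν)v, D(a₂F - b₂ν)v⟩` is this expression. -/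
def StWEI : Prop := ∀ (n : ℕ) (M : Type) [TopologicalSpace M]
    [ChartedSpace (EE n) M] [IsManifold (𝓡 n) ∞ M] (ρ t : ℝ) (F ν : M → ℝ → EE (n + 2)),
    Hyp n ρ t F ν →
    (∀ p : M, ∀ y ∈ (chartAt (EE n) p).target, ∀ v : EE n,
      (inner ℝ (fderiv ℝ (fun y => F ((chartAt (EE n) p).symm y) t) y v)
        (ν ((chartAt (EE n) p).symm y) t) : ℝ) = 0 ∧
      (inner ℝ (fderiv ℝ (fun y => ν ((chartAt (EE n) p).symm y) t) y v)
        (ν ((chartAt (EE n) p).symm y) t) : ℝ) = 0 ∧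
      (inner ℝ (fderiv ℝ (fun y => ν ((chartAt (EE n) p).symm y) t) y v)
        (F ((chartAt (EE n) p).symm y) t) : ℝ) = 0 ∧
      (inner ℝ (fderiv ℝ (fun y => F ((chartAt (EE n) p).symm y) t) y v)
        (F ((chartAt (EE n) p).symm y) t) : ℝ) = 0) ∧
    ∀ (lo hi : ℝ), (∀ q, ∀ c : Fin n → ℝ, gn F q t c = 1 → lo < hn F ν q t c ∧ hn F ν q t c < hi) →
      ∀ (a₁ b₁ a₂ b₂ : ℝ), (∀ κ, lo < κ → κ < hi → 0 < (a₁ + b₁ * κ) * (a₂ + b₂ * κ)) →
      ∀ p : M, ∀ y ∈ (chartAt (EE n) p).target, ∀ v : EE n, v ≠ 0 →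
        0 < (inner ℝ
          (fderiv ℝ (fun y => a₁ • F ((chartAt (EE n) p).symm y) t
            - b₁ • ν ((chartAt (EE n) p).symm y) t) y v)
          (fderiv ℝ (fun y => a₂ • F ((chartAt (EE n) p).symm y) t
            - b₂ • ν ((chartAt (EE n) p).symm y) t) y v) : ℝ)

/-- BLI (hASP : StASP)(hWEI : StWEI). Touching balls, first form, and injectivity.

Proof. `β = arctan τ ∈ (0,π/2)`, `s = sin β`, `c = cos β`, `s = τc`. `g = (s/ρ)F + cν`, `η = -(c/ρ)F + sν`: unit,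
orthogonal, smooth, `⟨Dg v, η⟩ = 0` (WEI, first part; `|F| = ρ`). `g = a₁F - b₁ν`, `-η = a₂F - b₂ν` with
`a₁ = s/ρ, b₁ = -c, a₂ = c/ρ, b₂ = s`: `(a₁ + b₁κ)(a₂ + b₂κ) = (s/ρ - cκ)(c/ρ + sκ) > 0` for
`-1/(τρ) < κ < τ/ρ`; so `⟨Dg v, Dη v⟩ < 0`. ASP: `⟨g(y),η(x)⟩ ≥ 0` for all `x, y`. As `F(y)/ρ = s g(y) - c η(y)`:
`⟨F(y)/ρ, g(x)⟩ = s⟨g(y),g(x)⟩ - c⟨η(y),g(x)⟩ ≤ s`, i.e. `(s/ρ²)⟨F y,F x⟩ + (c/ρ)⟨F y,ν x⟩ ≤ s`, and
`⟨F y,F x⟩ = ρ² - |F y - F x|²/2`, `⟨F x,ν x⟩ = 0`: `2ρ⟨F y - F x, ν x⟩ ≤ τ|F y - F x|²`. Injectivity, if `τ ≤ 1` and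
`|ρ hn| < τ`: the hypothesis holds for `(F,ν)` and for `(F,-ν)` (`1/τ ≥ τ`), so
`|2ρ⟨F z - F x,ν x⟩| ≤ τ|F z - F x|²` for all `z`. Let `F x = F y`; for `z` near `y` this says that
`z ↦ ⟨F z, ν x⟩` has derivative `0` at `y`: `ν x ⟂ TS y`, and `ν x ⟂ F x = F y`, so `ν x = ±ν y` (dimension). If
`ν x = ν y` then `g x = g y`, `η x = η y` and `x = y` by ASP. If `ν y = -ν x`: `⟨g(y),η(x)⟩ = -2sc < 0`,
contradiction. -/
def StBLI : Prop := ∀ (n : ℕ), 2 ≤ n → ∀ (M : Type) [TopologicalSpace M] [T2Space M]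
    [CompactSpace M] [ConnectedSpace M] [ChartedSpace (EE n) M] [IsManifold (𝓡 n) ∞ M]
    (ρ t : ℝ) (F ν : M → ℝ → EE (n + 2)), Hyp n ρ t F ν → ∀ τ : ℝ, 0 < τ →
    ((∀ q, ∀ c : Fin n → ℝ, gn F q t c = 1 →
        -(1 / τ) < ρ * hn F ν q t c ∧ ρ * hn F ν q t c < τ) →
      ∀ x y, 2 * ρ * (inner ℝ (F y t - F x t) (ν x t) : ℝ) ≤ τ * ‖F y t - F x t‖ ^ 2) ∧
    (τ ≤ 1 → (∀ q, ∀ c : Fin n → ℝ, gn F q t c = 1 → |ρ * hn F ν q t c| < τ) →
      Function.Injective (fun q => F q t))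

/-- BLC (hASP : StASP)(hWEI : StWEI). Touching balls, convex case.

Proof. Fix `x`. For `R ∈ (0,π/2)` with `cot R ≤ ρκ₀` let `g = (cosR/ρ)F + sinR ν`, `η = (sinR/ρ)F - cosR ν`.
`(cosR/ρ - sinR κ)(sinR/ρ + cosR κ) < 0` for `κ > κ₀`; with `a₁ = cosR/ρ, b₁ = -sinR, a₂ = -sinR/ρ, b₂ = -cosR`
(`-η = a₂F - b₂ν`) WEI gives `⟨Dg v,Dη v⟩ < 0` (`lo = κ₀`, `hi` = any upper bound of `hn` on the compact `M`, or
use WEI with `lo = κ₀` and a large `hi`: `hn` is bounded as `M` is compact; continuity in charts). ASP: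
`⟨g(y),η(x)⟩ ≥ 0` for all `x,y`; `ν = sinR g - cosR η`, so (1): `⟨ν(y), g(x)⟩ = sinR⟨g y,g x⟩ - cosR⟨η y,g x⟩
≤ sinR`. Let `e = g(x)` (depends on `R`), `X = F/ρ`, `m(R) = min_y ⟨X(y),e⟩`, attained at `y`. There `e ⟂ TS y`, so
`e = aX(y) + bν(y)`, `a = m(R)`, `a²+b² = 1`, `b ≤ sinR` by (1). Second derivative in a chart along a tangent unit
vector: `⟨A(c,c),e⟩ ≥ 0` (critical point), `A(c,c) = hn ν - F/ρ²`: `b hn - a/ρ ≥ 0`. If `a < cosR` then: if `b > 0`,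
`b ≤ sinR` gives `|a| ≥ cosR`, so `a ≤ -cosR ≤ 0`; if `b ≤ 0`, `a ≤ ρ b hn ≤ 0`. So (2): `m(R) ≥ cosR` or
`m(R) ≤ 0`. (3) `m(R) > 0` for `R < π/2` near `π/2`: `⟨X y,e⟩ = cosR⟨X y,X x⟩ + sinR⟨X y,ν x⟩`; near `x`
`⟨X y,X x⟩ > 0` and `⟨X y,ν x⟩ ≥ 0`; outside a neighbourhood of `x`, `⟨X y,ν x⟩ = ⟨F y - F x,ν x⟩/ρ ≥ δ > 0`
(compactness, `F y ≠ F x` by injectivity). (4) `m` is continuous on `[R₀,π/2)`, `cot R₀ = ρκ₀`: the set
`{m ≥ cosR}` is closed, its complement `{m ≤ 0}` is closed (`cosR > 0`), `[R₀,π/2)` is connected, so `m(R₀) ≥ cosR₀`: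
`cosR₀⟨X y,X x⟩ + sinR₀⟨X y,ν x⟩ ≥ cosR₀` for all `y`, i.e. `ρ⟨F y,ν x⟩ ≥ cotR₀ |F y - F x|²/2`. -/
def StBLC : Prop := ∀ (n : ℕ), 2 ≤ n → ∀ (M : Type) [TopologicalSpace M] [T2Space M]
    [CompactSpace M] [ConnectedSpace M] [ChartedSpace (EE n) M] [IsManifold (𝓡 n) ∞ M]
    (ρ t : ℝ) (F ν : M → ℝ → EE (n + 2)), Hyp n ρ t F ν → ∀ κ₀ : ℝ, 0 < κ₀ →
    (∀ q, ∀ c : Fin n → ℝ, gn F q t c = 1 → κ₀ < hn F ν q t c) →
    Function.Injective (fun q => F q t) →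
    (∀ x y, F y t ≠ F x t → 0 < (inner ℝ (F y t - F x t) (ν x t) : ℝ)) →
    ∀ x y, κ₀ * ‖F y t - F x t‖ ^ 2 ≤ 2 * (inner ℝ (F y t - F x t) (ν x t) : ℝ)

end Helper35.HSF
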