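import Mathlib
import Pool.Agent.Helper35.HSF.StA

/-!
Project HSF (MP_925021_gt), module statements, part B: the three-point maximum principle.

For a hypersurface of the sphere of radius `ρ` let `ZS x` be the set of all chord curvatures
`2⟨Y - X, ν_x⟩/|Y - X|²` and normal curvatures `h(c,c)`, `|c| = 1`, at `x`.  The condition
`(1-k) z₁² - z₁ z₂ < k/ρ²` for all `x`, `z₁, z₂ ∈ ZS x` is preserved by the flow, for every `k ∈ (0,1)`.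

Every module proves `theorem hX : StX` from the listed hypotheses (and any statements of PI, PI2, CL, MS, HSF).
COMPLETE proofs in the docstrings.  All formulas were checked by hand twice.
-/

set_option autoImplicit false

namespace Helper35.HSF

open Helper35.PI Helper35.PI2 Helper32.CL Helper35.MS
open scoped ContDiff Manifold Topology ENNReal BigOperators
open MeasureTheory Set Filter

/-! ### Elementary facts -/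

/-- NEG. Change of the sign of the normal.

Proof. Definitions. -/
def StNEG : Prop := ∀ (n : ℕ) (M : Type) [TopologicalSpace M] [ChartedSpace (EE n) M]
    [IsManifold (𝓡 n) ∞ M] (F ν ν' : M → ℝ → EE (n + 2)), ν' = (fun q t => -ν q t) →
    (∀ J : Set ℝ, HFl n J F ν → HFl n J F ν') ∧ (∀ ρ t : ℝ, Hyp n ρ t F ν → Hyp n ρ t F ν') ∧
    ∀ x t, ZS n F ν' x t = (fun z => -z) '' ZS n F ν x t ∧ Hs n F ν' x t = -Hs n F ν x t ∧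
      ∀ c : Fin n → ℝ, hn F ν' x t c = -hn F ν x t c

/-- HHY. A flow at one time.

Proof. Restrict the smooth maps to `M × {t}` (compose with `q ↦ (q,t)`, which maps into `univ ×ˢ J`;
`ContMDiffOn.comp`, `J` open). `‖F‖ = √(rr n t)`. -/
def StHHY : Prop := ∀ (n : ℕ) (M : Type) [TopologicalSpace M] [ChartedSpace (EE n) M]
    [IsManifold (𝓡 n) ∞ M] (J : Set ℝ) (F ν : M → ℝ → EE (n + 2)), HFl n J F ν → ∀ t ∈ J,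
    Hyp n (Real.sqrt (rr n t)) t F ν

/-! ### Graph charts -/

/-- GCH (hSM)(hI1 : StI1)(hI2J)(hI3J)(hC2 : StC2)(hC3 : StC3)(hMT : StMT)(hG0)(hG1)(hG2)(hV6aJ)(hFR)(hNR). Graph
charts of the flow over a given `L`, and transfer of derivatives.

Proof. As C4J (`Helper51/MS/M_C4J.lean`), GV, MG (`Helper95/PI2/M_GV..`, files of StMG). `f(y,s) = F (symm y) s` in
the chart at `p₀`, `y₀ = chart p₀`; `ψ` from C2 for the given `L`, `θ z = symm (ψ z)`, `u z = f(ψ z,z.2) -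
f(y₀,t₀) - L z.1`: `GraphSol` by C3, and `grf = f(·,z.2)∘ψ(·,z.2)`: `eq`, `hH`, `ts` (I1 and I3J; the derivative of
`ψ(·,z.2)` is invertible near the point as the graph has independent derivatives, G2). `fs`: with
`J_ka = ⟨e_a, D(ψ(·,z.2)) e_k⟩`, `grf_k = Σ_a J_ka f_a(ψ z)` and `sff grf k l = Σ J_kaJ_lb sff f a b` (as in StIA), so
`Σ U_k grf_k = Σ_a (Σ_k U_kJ_ka) f_a`, the same for `sff`; then pass from the chart at `p₀` to the preferred chart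
at `θ z` in the same way. `fs'`: `z = (0,t₀)`, the matrix `J` is invertible (`grf_i = L e_i`, `sff = jgg u` as
`jgg u ⟂ L`, G1). Transfer: `φ (θ z) z.2 = φ~(ψ z, z.2)` with the smooth `φ~(y,s) = φ (symm y) s`; `jt`: MT
(`jt ψ = 0`). Gradient: `gdM φ` is the tangent vector `v` with `⟨v, f_a⟩ = ∂_aφ~` for all `a` (definition, FR), and
`Σ_k jg(..)k L e_k` has the same inner products with `L e_k = Σ_a J_ka f_a`. Laplacian: for `z` near `(0,t₀)`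
(time `t₀`) `V(θ z) = Σ_kl GIf k l z · jg(φ∘θ) z k · (L e_l + jg u z l)`, `V = gdM φ`, by the same argument; `dvg V`
is invariant under reparametrisation (V6aJ and the computation of its proof), so at the centre (`GIf = 1`,
`∂GIf = 0`, `jg u = 0`, `⟨jgg u, L⟩ = 0`) `lapN φ = Σ_i ⟨∂_i(V∘θ), L e_i⟩ = Σ_i jgg (φ∘θ) i i`. So
`htN φ = jt - Σ jgg = jh`. -/
def StGCH : Prop := ∀ (n N : ℕ) (M : Type) [TopologicalSpace M] [ChartedSpace (EE n) M]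
    [IsManifold (𝓡 n) ∞ M] (J : Set ℝ) (F : M → ℝ → EE N), IsMCFJ (n := n) J F →
    ∀ (p₀ : M) (t₀ : ℝ), t₀ ∈ J → ∀ L : EE n →ₗᵢ[ℝ] EE N,
    LinearMap.range L.toLinearMap = TS (n := n) F p₀ t₀ →
    ∃ (u : EE n × ℝ → EE N) (θ : EE n × ℝ → M), GCh n F p₀ t₀ L u θ ∧
      (∀ φ : M → ℝ → ℝ, SmJ n J φ →
        ContDiffAt ℝ ∞ (fun z : EE n × ℝ => φ (θ z) z.2) (0, t₀) ∧
        jt (fun z : EE n × ℝ => φ (θ z) z.2) (0, t₀) = deriv (fun s => φ p₀ s) t₀ ∧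
        jh (fun z : EE n × ℝ => φ (θ z) z.2) (0, t₀) = htN n F φ p₀ t₀ ∧
        gdM n F t₀ (fun q => φ q t₀) p₀
          = ∑ k, jg (fun z : EE n × ℝ => φ (θ z) z.2) (0, t₀) k • L (ee k)) ∧
      ∀ φ : M → ℝ → EE N, SmV n J φ →
        ContDiffAt ℝ ∞ (fun z : EE n × ℝ => φ (θ z) z.2) (0, t₀) ∧
        jt (fun z : EE n × ℝ => φ (θ z) z.2) (0, t₀) = deriv (fun s => φ p₀ s) t₀

/-- NUJ (hG1)(hG2)(hG3)(hG7)(hGH)(hJA)(hJB)(hSM). Jets of the unit normal in a graph chart.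

Proof. `f z = grf x₀ L u z.2 z.1 = x₀ + L z.1 + u z`, `m z = ν (θ z) z.2`, `x₀ = F p₀ t₀`, `ν₀ = ν p₀ t₀`,
`ρ² = rr n t₀`. Near `(0,t₀)`: `⟨f,f⟩ = rr n z.2`, `⟨m,m⟩ = 1`, `⟨m,f⟩ = 0`, `⟨m,f_i⟩ = 0`, `f_i = L e_i + u_i`.
`L e_1, .., L e_n, ν₀, x₀/ρ` is an orthonormal basis of `ℝ^(n+2)` (`rg`, `tν`, `Fν`; `⟨x₀, L e_i⟩ = 0` from
`⟨f,f⟩_i = 0`). Differentiating `⟨f,f⟩` twice and three times at the point: `⟨u_ij, x₀⟩ = -δ_ij`,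
`⟨u_ijk, x₀⟩ = 0` (as StSPH, `Helper89/MS/M_SPH.lean`); with `u_ij, u_ijk ⟂ L` (G1) this gives the formulas for
`jgg u` and `jggg u`. `HH = Hv A = Σu_ii`, `AA = XX A = Σ‖u_ij‖²` (`hH` at the point, GH and G7 or G8). First
derivatives of `m`: `⟨m_k,ν₀⟩ = 0`, `⟨m_k,x₀⟩ = -⟨ν₀,f_k⟩ = 0`, `⟨m_k,L e_i⟩ = -⟨ν₀,u_ki⟩ = -K_ki`. `jh m`:
`jh⟨m,m⟩ = 0`: `⟨jh m,ν₀⟩ = Σ‖m_k‖² = ΣK²`. `jh⟨m,f⟩ = 0`, `jh f = 0` (G3-type: `jt u = Σu_kk` at the centre):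
`⟨jh m,x₀⟩ = 2Σ⟨m_k,f_k⟩ = -2ΣK_kk`. `jh⟨m,f_i⟩ = 0`, `jh f_i = jh (jg u · i) = 0` (G3):
`⟨jh m,L e_i⟩ = 2Σ_k⟨m_k,u_ik⟩ = 0`. -/
def StNUJ : Prop := ∀ (n : ℕ) (M : Type) [TopologicalSpace M] [ChartedSpace (EE n) M]
    [IsManifold (𝓡 n) ∞ M] (J : Set ℝ) (F ν : M → ℝ → EE (n + 2)), HFl n J F ν →
    ∀ (p₀ : M) (t₀ : ℝ), t₀ ∈ J → ∀ (L : EE n →ₗᵢ[ℝ] EE (n + 2)) (u : EE n × ℝ → EE (n + 2))
      (θ : EE n × ℝ → M), GCh n F p₀ t₀ L u θ →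
    ContDiffAt ℝ ∞ (fun z : EE n × ℝ => ν (θ z) z.2) (0, t₀) →
    ∀ K : Fin n → Fin n → ℝ, K = (fun i j => inner ℝ (jgg u (0, t₀) i j) (ν p₀ t₀)) →
    (∀ v, (inner ℝ (L v) (ν p₀ t₀) : ℝ) = 0 ∧ (inner ℝ (L v) (F p₀ t₀) : ℝ) = 0) ∧
    (∀ i j, K i j = K j i) ∧
    (∀ i j, jgg u (0, t₀) i j
      = K i j • ν p₀ t₀ - (if i = j then 1 / rr n t₀ else 0) • F p₀ t₀) ∧
    (∀ i j k, jggg u (0, t₀) i j k
      = (inner ℝ (jggg u (0, t₀) i j k) (ν p₀ t₀) : ℝ) • ν p₀ t₀) ∧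
    Hs n F ν p₀ t₀ = ∑ i, K i i ∧ h2N n F p₀ t₀ = ∑ i, ∑ j, K i j ^ 2 ∧
    (∀ k, jg (fun z : EE n × ℝ => ν (θ z) z.2) (0, t₀) k = -∑ j, K k j • L (ee j)) ∧
    jh (fun z : EE n × ℝ => ν (θ z) z.2) (0, t₀)
      = h2N n F p₀ t₀ • ν p₀ t₀ - (2 * Hs n F ν p₀ t₀ / rr n t₀) • F p₀ t₀

/-! ### Barriers -/

/-- BTJ (hJA)(hJB)(hJD)(hG2)(hG3). Jets of the chord curvature along two graphs, the second one over the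
reflected tangent space.

Proof. `w(z) = grf' - grf = (y₀ - x₀) + L'z.1 - L z.1 + u' z - u z`: `jh w = 0` at the centre (`jt u = Σ u_kk`,
also for `u'`), `w_k = L'e_k - L e_k = -(2p_k/d²) w`, `d = ‖w‖`. `B = ‖w(z)‖²`: `B_k = 2⟨w,w_k⟩ = -4p_k`,
`jh B = -2Σ‖w_k‖² = -8Σp_k²/d²`. `N = 2⟨w(z),m z⟩`: `N_k = 2⟨w_k,ν₀⟩ + 2⟨w,m_k⟩ = -2Pp_k - 2(Kp)_k`
(`⟨w,ν₀⟩ = Pd²/2`), `jh N = 2⟨w,jh m⟩ - 4Σ⟨w_k,m_k⟩ = aPd² + bd² - (8/d²)Σp_k(Kp)_k`. `β = N/B` (JD):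
`jg β = N_k/B - N B_k/B² = (2/d²)(Pp_k - (Kp)_k)`, `jh β = jh N/B - N jh B/B² + 2ΣN_kB_k/B² - 2NΣB_k²/B³
= aP + b + d⁻⁴(-8pKp + 8P|p|² + 16P|p|² + 16pKp - 32P|p|²)`. -/
def StBTJ : Prop := ∀ (n N : ℕ) (x₀ y₀ : EE N) (L L' : EE n →ₗᵢ[ℝ] EE N)
    (u u' : EE n × ℝ → EE N) (t₀ : ℝ), GraphSol x₀ L u t₀ → GraphSol y₀ L' u' t₀ →
    ∀ w : EE N, w = y₀ - x₀ → w ≠ 0 →
    (∀ v : EE n, L' v = L v - (2 * inner ℝ w (L v) / ‖w‖ ^ 2) • w) →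
    ∀ (m : EE n × ℝ → EE N) (ν₀ : EE N) (K : Fin n → Fin n → ℝ) (a b : ℝ),
    ContDiffAt ℝ ∞ m (0, t₀) → m (0, t₀) = ν₀ → (∀ v, (inner ℝ (L v) ν₀ : ℝ) = 0) →
    (∀ k, jg m (0, t₀) k = -∑ j, K k j • L (ee j)) → jh m (0, t₀) = a • ν₀ - b • x₀ →
    (inner ℝ w x₀ : ℝ) = -‖w‖ ^ 2 / 2 →
    ∀ β : EE n × ℝ → ℝ, β = (fun z =>
      2 * inner ℝ (grf y₀ L' u' z.2 z.1 - grf x₀ L u z.2 z.1) (m z)
        / ‖grf y₀ L' u' z.2 z.1 - grf x₀ L u z.2 z.1‖ ^ 2) →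
    ContDiffAt ℝ 2 β (0, t₀) ∧ ∀ (P : ℝ) (p : Fin n → ℝ), P = β (0, t₀) →
      p = (fun k => inner ℝ w (L (ee k))) →
      P = 2 * inner ℝ w ν₀ / ‖w‖ ^ 2 ∧
      (∀ k, jg β (0, t₀) k = 2 / ‖w‖ ^ 2 * (P * p k - ∑ j, K k j * p j)) ∧
      jh β (0, t₀) = a * P + b - 8 / ‖w‖ ^ 4 * (∑ k, p k * (P * p k - ∑ j, K k j * p j))

/-- BLJ (hJA)(hJB)(hJD)(hG1)(hG2)(hG3)(hG4). Jets of a normal curvature along a graph in a moving direction.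

Proof. `h_ij(z) = ⟨jgg u z i j, m z⟩`, `g_ij(z) = ⟨f_i,f_j⟩ = δ_ij + ⟨u_i,u_j⟩` (G2). At the centre:
`jg h_ij k = T_kij + ⟨u_ij,m_k⟩ = T_kij` (`u_ij ⟂ L`), `jh h_ij = ⟨jh u_ij,ν₀⟩ + ⟨u_ij,jh m⟩ - 2Σ⟨u_kij,m_k⟩ =
-2Σ_ab⟨A_ai,A_bj⟩K_ab + aK_ij + bδ_ij` (G4, G1), `⟨A_ai,A_bj⟩ = K_aiK_bj + δ_aiδ_bj/r2`:
`jh h_ij = -2(K³)_ij - 2K_ij/r2 + aK_ij + bδ_ij`. `jg g_ij = 0`, `jh g_ij = -2Σ_k⟨u_ik,u_jk⟩ = -2(K²)_ij - 2δ_ij/r2`.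
`U(0) = c`, `∂_kU = B_k`, affine in `z.1`. `N = ΣU_iU_jh_ij`: `N = P`, `N_k = T_k(c,c) + 2K(c,B_k) = T_k(c,c)`
(`Kc = Pc`, `⟨c,B_k⟩ = 0`), `jh N = c(jh h)c - 2Σ_kK(B_k,B_k) - 4Σ_kT_k(B_k,c)`. `E = ΣU_iU_jg_ij`: `E = 1`,
`E_k = 2⟨c,B_k⟩ = 0`, `jh E = c(jh g)c - 2Σ_k|B_k|²`. `β = N/E`: `jg β = N_k`, `jh β = jh N - P jh E`; the terms
`-2P³ - 2P/r2` and `P(2P² + 2/r2)` cancel. -/
def StBLJ : Prop := ∀ (n N : ℕ) (x₀ : EE N) (L : EE n →ₗᵢ[ℝ] EE N) (u : EE n × ℝ → EE N)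
    (t₀ : ℝ), GraphSol x₀ L u t₀ →
    ∀ (m : EE n × ℝ → EE N) (ν₀ : EE N) (K : Fin n → Fin n → ℝ) (a b r2 : ℝ),
    ContDiffAt ℝ ∞ m (0, t₀) → m (0, t₀) = ν₀ → ‖ν₀‖ = 1 → 0 < r2 → ‖x₀‖ ^ 2 = r2 →
    (inner ℝ x₀ ν₀ : ℝ) = 0 →
    (∀ v, (inner ℝ (L v) ν₀ : ℝ) = 0 ∧ (inner ℝ (L v) x₀ : ℝ) = 0) →
    (∀ i j, jgg u (0, t₀) i j = K i j • ν₀ - (if i = j then 1 / r2 else 0) • x₀) →
    (∀ k, jg m (0, t₀) k = -∑ j, K k j • L (ee j)) → jh m (0, t₀) = a • ν₀ - b • x₀ →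
    ∀ T : Fin n → Fin n → Fin n → ℝ, T = (fun i j k => inner ℝ (jggg u (0, t₀) i j k) ν₀) →
    ∀ (c : Fin n → ℝ) (P : ℝ) (B : Fin n → Fin n → ℝ), ∑ i, c i ^ 2 = 1 →
    (∀ i, ∑ j, K i j * c j = P * c i) → (∀ k, ∑ j, B k j * c j = 0) →
    ∀ U : EE n × ℝ → Fin n → ℝ, U = (fun z i => c i + ∑ k, z.1 k * B k i) →
    ∀ β : EE n × ℝ → ℝ, β = (fun z =>
      (∑ i, ∑ j, U z i * U z j * inner ℝ (jgg u z i j) (m z))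
        / ‖∑ i, U z i • dv1 (grf x₀ L u z.2) z.1 i‖ ^ 2) →
    ContDiffAt ℝ 2 β (0, t₀) ∧ β (0, t₀) = P ∧
    (∀ k, jg β (0, t₀) k = ∑ i, ∑ j, T k i j * (c i * c j)) ∧
    jh β (0, t₀) = a * P + b
      + 2 * (∑ k, (P * (∑ i, B k i ^ 2) - ∑ i, ∑ j, K i j * (B k i * B k j)))
      - 4 * ∑ k, ∑ i, ∑ j, T k i j * (B k i * c j)

/-- SL2 (hGCH : StGCH)(hNUJ : StNUJ)(hBTJ : StBTJ)(hG2)(hI3J). Barrier at a maximal chord.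

Proof. `X = F x₀ t₀`, `Y = F y₀ t₀`, `w = Y - X`, `d = ‖w‖`, `ρ² = rr`; `⟨w,X⟩ = -d²/2` (both on the sphere).
`y₀` is a local maximum of `y ↦ zch F ν x₀ y t₀` (all values lie in `ZS`), so in a chart at `y₀`: for `v ∈ TS y₀`,
`0 = 2⟨v,ν⟩/d² - 4⟨w,ν⟩⟨w,v⟩/d⁴ = (2/d²)⟨v, ν - Pw⟩`, `ν = ν x₀ t₀`. Let `R z = z - 2⟨w,z⟩w/d²` (reflection):
`R X = Y`, `R ν = ν - Pw`. `TS y₀ ⟂ Y` (as `|F|` is constant in space), `TS y₀ ⟂ Rν`, and `R(TS x₀)` is orthogonal to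
`Y, Rν`; both have dimension `n = (n+2) - 2` (`Y, Rν` orthogonal, nonzero), so `TS y₀ = R(TS x₀)` and `L' = R∘L` is a
linear isometry onto `TS y₀`. GCH at `y₀` with `L'`: `u', θ'`. BTJ (`K`, `a = h2N`, `b = 2Hs/rr` from NUJ):
`β z = zch F ν (θ z) (θ' z) z.2` for `z` near `(0,t₀)` (`GCh.eq` for both), and `F (θ' z) ≠ F (θ z)`, so
`β z ∈ ZS (θ z)`. The symmetric matrix `K` satisfies `Q|v|² ≤ K(v,v) ≤ P|v|²` (`GCh.fs` at the centre: every unit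
vector of `ℝ^n` has coordinates `c` with `gn = 1`, `hn = K(v,v)`). Let `D = P - Q`, `q = Pp - Kp`: for the symmetric
matrix `S = P - K`, `0 ≤ S ≤ D`, `|Sp|² ≤ D⟨Sp,p⟩`. So `jh β = aP + b - (8/d⁴)⟨p,q⟩ ≤ aP + b - (8/(d⁴D))|q|²`, and
`Σ(jg β k)² = (4/d⁴)|q|²`. -/
def StSL2 : Prop := ∀ (n : ℕ) (M : Type) [TopologicalSpace M] [ChartedSpace (EE n) M]
    [IsManifold (𝓡 n) ∞ M] (J : Set ℝ) (F ν : M → ℝ → EE (n + 2)), HFl n J F ν →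
    ∀ (x₀ : M) (t₀ : ℝ), t₀ ∈ J → ∀ (L : EE n →ₗᵢ[ℝ] EE (n + 2)) (u : EE n × ℝ → EE (n + 2))
      (θ : EE n × ℝ → M), GCh n F x₀ t₀ L u θ →
    ContDiffAt ℝ ∞ (fun z : EE n × ℝ => ν (θ z) z.2) (0, t₀) →
    ∀ (y₀ : M) (P Q : ℝ), F y₀ t₀ ≠ F x₀ t₀ → P = zch F ν x₀ y₀ t₀ → Q < P →
    (∀ z ∈ ZS n F ν x₀ t₀, Q ≤ z ∧ z ≤ P) →
    ∃ β : EE n × ℝ → ℝ, ContDiffAt ℝ 2 β (0, t₀) ∧ β (0, t₀) = P ∧
      (∀ᶠ z in 𝓝 ((0 : EE n), t₀), β z ∈ ZS n F ν (θ z) z.2) ∧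
      jh β (0, t₀) ≤ h2N n F x₀ t₀ * P + 2 * Hs n F ν x₀ t₀ / rr n t₀
        - 2 / (P - Q) * ∑ k, jg β (0, t₀) k ^ 2

/-- SL1 (hNUJ : StNUJ)(hBLJ : StBLJ)(hG1)(hG2)(hNR). Barrier at a maximal normal curvature.

Proof. By `GCh.fs'` there is `U₀ ∈ ℝ^n` with `tv = Σ U₀_i L e_i` (so `|U₀| = 1`) and `P = hn = K(U₀,U₀)`, `K` of
NUJ. As in SL2 `Q|v|² ≤ K(v,v) ≤ P|v|²`, so `KU₀ = PU₀` (the symmetric `P - K ≥ 0` vanishes at `U₀`). Third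
derivative: `T = ⟨jggg u,ν₀⟩` satisfies `T(U₀,U₀,U₀) = 0`: for small real `r ≠ 0` let `y = θ(rU₀,t₀)`,
`F y t₀ = X + rLU₀ + u(rU₀,t₀) ≠ X`; `zch ≤ P` reads `2⟨u,ν₀⟩ ≤ P(r² + ‖u‖²)` (`u ⟂ L`), and by Taylor
`⟨u,ν₀⟩ = ½Pr² + (1/6)T(U₀,U₀,U₀)r³ + O(r⁴)`, `‖u‖² = O(r⁴)`: `T(U₀,U₀,U₀)r³ ≤ O(r⁴)` for both signs. `D = P - Q`,
`τ_k = Σ_ij T_kijU₀_iU₀_j`, `B_ki = (1/D)(Σ_jT_kijU₀_j - τ_kU₀_i)`, `⟨B_k,U₀⟩ = 0`. BLJ (`a = h2N`,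
`b = 2Hs/rr`): `Σ_ij T_kijB_kiU₀_j = ⟨B_k, DB_k + τ_kU₀⟩ = D|B_k|²` and `P|B_k|² - K(B_k,B_k) ≤ D|B_k|²`, so
`jh β ≤ aP + b - 2DΣ|B_k|²`. `Σ_kU₀_k DB_k = τ` (symmetry of `T`, `T(U₀,U₀,U₀) = 0`), so
`Στ_k² ≤ Σ_k|DB_k|² = D²Σ|B_k|²`, and `jg β k = τ_k`. Membership: for `z` near the centre, `E = |ΣU_i f_i|² > 0`,
and `GCh.fs` with `U/√E` gives `c` with `gn = 1` and `hn = ΣU_iU_j⟨sff_ij,ν⟩/E = β z` (`ν(θ z) ⟂` the graph: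
`⟨sff_ij,ν⟩ = ⟨dv2,ν⟩ = ⟨jgg u z i j, m z⟩`, `GCh.ts`, NR, G2). -/
def StSL1 : Prop := ∀ (n : ℕ) (M : Type) [TopologicalSpace M] [ChartedSpace (EE n) M]
    [IsManifold (𝓡 n) ∞ M] (J : Set ℝ) (F ν : M → ℝ → EE (n + 2)), HFl n J F ν →
    ∀ (x₀ : M) (t₀ : ℝ), t₀ ∈ J → ∀ (L : EE n →ₗᵢ[ℝ] EE (n + 2)) (u : EE n × ℝ → EE (n + 2))
      (θ : EE n × ℝ → M), GCh n F x₀ t₀ L u θ →
    ContDiffAt ℝ ∞ (fun z : EE n × ℝ => ν (θ z) z.2) (0, t₀) →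
    ∀ (c₀ : Fin n → ℝ) (P Q : ℝ), gn F x₀ t₀ c₀ = 1 → P = hn F ν x₀ t₀ c₀ → Q < P →
    (∀ z ∈ ZS n F ν x₀ t₀, Q ≤ z ∧ z ≤ P) →
    ∃ β : EE n × ℝ → ℝ, ContDiffAt ℝ 2 β (0, t₀) ∧ β (0, t₀) = P ∧
      (∀ᶠ z in 𝓝 ((0 : EE n), t₀), β z ∈ ZS n F ν (θ z) z.2) ∧
      jh β (0, t₀) ≤ h2N n F x₀ t₀ * P + 2 * Hs n F ν x₀ t₀ / rr n t₀
        - 2 / (P - Q) * ∑ k, jg β (0, t₀) k ^ 2

/-- SLB (hSL1 : StSL1)(hSL2 : StSL2)(hNEG : StNEG)(hNUJ : StNUJ)(hGCH : StGCH)(hC1 : StC1)(hJA). Both barriers and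
the Gauss equation inequality.

Proof. `L` with range `TS` (C1: `TS` is the span of the independent `dv1`), chart `u, θ` from GCH. SL1/SL2 for
`P`. For `Q`: SL1/SL2 for `ν' = -ν` (NEG: `ZS' = -ZS`, `Hs' = -Hs`, `P' = -Q`, `Q' = -P`), `γ = -β'`.
`h2N = |K|²`, `Hs = tr K` (NUJ), `Q ≤ K ≤ P` as symmetric matrices (`GCh.fs` at the centre), so
`0 ≤ tr((P-K)(K-Q)) = (P+Q)Hs - h2N - nPQ` and `nQ ≤ Hs ≤ nP`. -/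
def StSLB : Prop := ∀ (n : ℕ) (M : Type) [TopologicalSpace M] [ChartedSpace (EE n) M]
    [IsManifold (𝓡 n) ∞ M] (J : Set ℝ) (F ν : M → ℝ → EE (n + 2)), HFl n J F ν →
    ∀ (x₀ : M) (t₀ : ℝ), t₀ ∈ J → ∀ P ∈ ZS n F ν x₀ t₀, ∀ Q ∈ ZS n F ν x₀ t₀, Q < P →
    (∀ z ∈ ZS n F ν x₀ t₀, Q ≤ z ∧ z ≤ P) →
    h2N n F x₀ t₀ ≤ (P + Q) * Hs n F ν x₀ t₀ - n * (P * Q) ∧
    n * Q ≤ Hs n F ν x₀ t₀ ∧ Hs n F ν x₀ t₀ ≤ n * P ∧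
    ∃ (θ : EE n × ℝ → M) (β γ : EE n × ℝ → ℝ), θ (0, t₀) = x₀ ∧ ContinuousAt θ (0, t₀) ∧
      ContDiffAt ℝ 2 β (0, t₀) ∧ β (0, t₀) = P ∧ ContDiffAt ℝ 2 γ (0, t₀) ∧ γ (0, t₀) = Q ∧
      (∀ᶠ z in 𝓝 ((0 : EE n), t₀), β z ∈ ZS n F ν (θ z) z.2 ∧ γ z ∈ ZS n F ν (θ z) z.2) ∧
      jh β (0, t₀) ≤ h2N n F x₀ t₀ * P + 2 * Hs n F ν x₀ t₀ / rr n t₀
        - 2 / (P - Q) * ∑ k, jg β (0, t₀) k ^ 2 ∧
      h2N n F x₀ t₀ * Q + 2 * Hs n F ν x₀ t₀ / rr n t₀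
        + 2 / (P - Q) * ∑ k, jg γ (0, t₀) k ^ 2 ≤ jh γ (0, t₀)

/-! ### The maximum principle -/

/-- TAL. The algebra of the touching point.

Proof. `r = 1/ρ² > 0`, `(1-k)P² - PQ = kr` gives `(1-k)P - Q = kr/P`, `D = P - Q = kP + kr/P > 0`,
`2(1-k)P - Q = Pg`, `g = (1-k) + kx`, `x = r/P²`; the first order condition is `b_k = g a_k`. Gradient terms:
`-(2/D)Pg|a|² - (2/D)P|b|² - 2(1-k)|a|² + 2⟨a,b⟩ = |a|²(-(2P/D)g(1+g) + 2kx)` and `Pg(1+g)/D ≥ kx` because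
`D/P = k(1+x)` and `g(1+g) - k²x(1+x) = (1-k)((2-k) + 3kx) ≥ 0` (this is exact). Reaction:
`Pg(h₂P + 2Hr) - P(h₂Q + 2Hr) - 2nkr² = 2h₂kr + 2Hr((1-2k)P - Q) - 2nkr²`, `(1-2k)P - Q = kr/P - kP`,
`= 2kr(h₂ + H(r/P - P) - nr) ≤ 2kr((P+Q)H - nPQ + Hr/P - HP - nr) = 2kr(H - nP)(Q + r/P) ≤ 0`, since
`H ≤ nP` and `PQ + r = (1-k)(P² + r) ≥ 0`. Total: `≤ -k'(P² + r) < 0`. -/
def StTAL : Prop := ∀ (n : ℕ) (k k' r P Q H h₂ jP jQ : ℝ) (a b : Fin n → ℝ), 0 < k → k ≤ 1 →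
    0 < k' → 0 < r → 0 < P → (1 - k) * P ^ 2 - P * Q = k * r → H ≤ n * P →
    h₂ ≤ (P + Q) * H - n * (P * Q) →
    (∀ i, (2 * (1 - k) * P - Q) * a i - P * b i = 0) →
    jP ≤ h₂ * P + 2 * H * r - 2 / (P - Q) * ∑ i, a i ^ 2 →
    h₂ * Q + 2 * H * r + 2 / (P - Q) * ∑ i, b i ^ 2 ≤ jQ →
    0 < P - Q ∧
    (2 * (1 - k) * P - Q) * jP - P * jQ - 2 * (1 - k) * (∑ i, a i ^ 2) + 2 * (∑ i, a i * b i)
      - k' * (P ^ 2 + r) - 2 * n * k * r ^ 2 < 0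

/-- TP1 (hSLB : StSLB)(hTAL : StTAL)(hNEG : StNEG)(hMP : StMP)(hJA)(hJB). No touching.

Proof. `z₁ ≠ 0` (`k/rr > 0`). By NEG (replace `ν` by `-ν`, `z_i` by `-z_i`) let `z₁ > 0`; `k = k t₀`, `r = 1/rr`.
The condition at `(x₀,t₀)`: for `z ∈ ZS`: `(1-k)z₁² - z₁z ≤ kr = (1-k)z₁² - z₁z₂`, so `z ≥ z₂`; and `z ≤ z₁`: for
`z > 0`, `((1-k)z² - zz₂ - kr)/z = (1-k)z - z₂ - kr/z` is strictly increasing in `z` and `0` at `z₁`, so it would be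
`> 0` for `z > z₁`. So `P = z₁`, `Q = z₂` are the maximum and minimum; `P - Q = kP + kr/P > 0`. SLB: `θ, β, γ`. Let
`Φ z = (1 - k(z.2)) β² - βγ - k(z.2)/rr n z.2`, `C²` near `(0,t₀)`, `Φ (0,t₀) = 0`, `Φ ≤ 0` for `z` near, `z.2 ≤ t₀`.
MP: `jg Φ = 0`, `0 ≤ jh Φ`. `jg Φ_i = 2(1-k)P a_i - a_iQ - P b_i`, `a = jg β`, `b = jg γ`. `jh` of `k(z.2)` is `k'`
(no spatial derivatives), `jh (1/rr) = 2n/rr²`: `jh Φ = (1-k)(2P jh β - 2|a|²) - k'P² - (P jh γ + Q jh β - 2⟨a,b⟩)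
- k'r - 2nkr²`, which is the left side of TAL (`jP = jh β`, `jQ = jh γ`). Contradiction. -/
def StTP1 : Prop := ∀ (n : ℕ) (M : Type) [TopologicalSpace M] [ChartedSpace (EE n) M]
    [IsManifold (𝓡 n) ∞ M] (J : Set ℝ) (F ν : M → ℝ → EE (n + 2)), HFl n J F ν →
    ∀ (x₀ : M) (t₀ : ℝ), t₀ ∈ J → ∀ (k : ℝ → ℝ) (k' : ℝ), ContDiffAt ℝ 2 k t₀ →
    HasDerivAt k k' t₀ → 0 < k' → 0 < k t₀ → k t₀ ≤ 1 →
    ∀ z₁ ∈ ZS n F ν x₀ t₀, ∀ z₂ ∈ ZS n F ν x₀ t₀,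
    (1 - k t₀) * z₁ ^ 2 - z₁ * z₂ = k t₀ / rr n t₀ →
    ¬ (∀ᶠ p : M × ℝ in 𝓝 (x₀, t₀), p.2 ≤ t₀ → ∀ z₁ ∈ ZS n F ν p.1 p.2,
      ∀ z₂ ∈ ZS n F ν p.1 p.2, (1 - k p.2) * z₁ ^ 2 - z₁ * z₂ ≤ k p.2 / rr n p.2)

/-- CPZ (hI2J)(hI3J)(hI4J)(hSM)(hFR). The chord and normal curvatures form a compact set.

Proof. `M` compact, first countable (charts); use sequences `(x_k,t_k,z_k)`; `x_k → x`, `t_k → t ∈ [t₁,t₂]`. If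
infinitely many `z_k` are chord curvatures with `y_k → y`: if `y ≠ x` then `F y t ≠ F x t` (injective) and
`z_k → zch F ν x y t`. If `y = x`: in the chart at `x`, `a_k, b_k → a` the coordinates of `x_k, y_k`, `v = b_k - a_k ≠ 0`,
`f(y,s) = F(symm y) s` smooth: uniformly `f(b_k) - f(a_k) = Df v + ½D²f(v,v) + o(|v|²)` (at `(a_k,t_k)`),
`⟨Df v,ν⟩ = 0`: `z_k = (D²f(v,v)·ν + o(|v|²))/(|Df v|² + o(|v|²)) → D²f(c,c)·ν/|Df c|²` at `(a,t)`, `c` a limit of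
`v/|v|`; this is `hn F ν x t c'` with `c' = c/|Df c|` (`⟨dv2,ν⟩ = ⟨sff,ν⟩`). If `z_k = hn F ν x_k t_k c_k`,
`gn = 1`: the same tangent vector has coordinates `c'_k` in the chart at `x` (transition map), `Σ c'_ic'_j⟨∂_i∂_jf,ν⟩ =
z_k`, `|Df c'_k| = 1`, so `c'_k` is bounded; take a limit. The set is sequentially compact in a first countable
(pseudo)metrizable compact region, hence compact (it is closed and contained in `M × [t₁,t₂] × [-C,C]`;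
boundedness by the same argument). -/
def StCPZ : Prop := ∀ (n : ℕ) (M : Type) [TopologicalSpace M] [T2Space M] [CompactSpace M]
    [ChartedSpace (EE n) M] [IsManifold (𝓡 n) ∞ M] (J : Set ℝ) (F ν : M → ℝ → EE (n + 2)),
    HFl n J F ν → ∀ t₁ t₂ : ℝ, Icc t₁ t₂ ⊆ J →
    (∀ t ∈ Icc t₁ t₂, Function.Injective (fun q => F q t)) →
    IsCompact {p : (M × ℝ) × ℝ | p.1.2 ∈ Icc t₁ t₂ ∧ p.2 ∈ ZS n F ν p.1.1 p.1.2}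

/-- INO (hI2J)(hI3J)(hI4J). Injectivity is an open condition.

Proof. First part: every point `q` has a neighbourhood `W_q` and `δ_q > 0` such that `F(·,t)` is injective on `W_q`
for `|t - t₀| < δ_q` (StSC1-type estimate: in the chart `|f(y,t) - f(y',t)| ≥ c|y - y'|` on a small ball, from
`Df` injective and continuous: `‖Df(y,t) - Df(a,t₀)‖ ≤ c/2`). Finitely many `W_q × W_q` cover the diagonal; `U`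
their union. Second part: on the compact complement of `U`, `|F x t₀ - F y t₀| ≥ 2δ`, and `≥ δ` for `t` near `t₀`
(uniform continuity on the compact set). -/
def StINO : Prop := ∀ (n N : ℕ) (M : Type) [TopologicalSpace M] [T2Space M] [CompactSpace M]
    [ChartedSpace (EE n) M] [IsManifold (𝓡 n) ∞ M] (J : Set ℝ) (F : M → ℝ → EE N),
    IsImmJ (n := n) J F → ∀ t₀ ∈ J,
    (∃ U : Set (M × M), IsOpen U ∧ (∀ x, (x, x) ∈ U) ∧ ∃ δ > 0, ∀ t ∈ J, |t - t₀| < δ →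
      ∀ p ∈ U, F p.1 t = F p.2 t → p.1 = p.2) ∧
    (Function.Injective (fun q => F q t₀) →
      ∀ᶠ t in 𝓝 t₀, Function.Injective (fun q => F q t))

/-- INC (hINO : StINO)(hI4J)(hI3J)(hFR). The pinching keeps the hypersurface embedded.

Proof. Suppose `F x' t₂ = F y' t₂`, `x' ≠ y'`. `U, δ` of INO at `t₂`; `(x',y') ∉ U`. `M × M` is compact Hausdorff, so
there is an open `V` with the diagonal in `V`, `closure V ⊆ U`. `K = Vᶜ` compact, `∂ = closure V \ V ⊆ U` compact and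
disjoint from the diagonal: `|F x t₂ - F y t₂| ≥ 2δ₀` on `∂`, `≥ δ₀` for `t` near `t₂`. For `t < t₂` near `t₂` let
`(x,y) ∈ K` minimise `|F x t - F y t|` on `K`; the minimum `d > 0` (injective at `t`) tends to `0` as `t → t₂`
(`≤ |F x' t - F y' t|`), so `(x,y) ∉ ∂`, hence `(x,y)` is an interior point of `K` and a local minimum on `M × M`:
`w = Y - X` is orthogonal to `TS x`. `X, ν x` span the orthogonal complement of `TS x` (`ρ² = rr n t`):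
`w = αX + γν x`, `⟨w,X⟩ = -d²/2`, `α = -d²/(2ρ²)`, `γ² = d² - d⁴/(4ρ²) ≥ d²/4` for small `d`. So
`z₁ = zch F ν x y t = 2γ/d²` has `|z₁| ≥ 1/d`. Take a unit `c` (`n ≥ 1`), `z₂ = hn F ν x t c`:
`|z₂| ≤ ‖A(c,c)‖ ≤ √(AA) ≤ C` on `M × [t₁,t₂]` (I4J, compact). PinK: `(1-k)z₁² ≤ C|z₁| + k/rr`, bounded for
`t → t₂`: contradiction. -/
def StINC : Prop := ∀ (n : ℕ), 1 ≤ n → ∀ (M : Type) [TopologicalSpace M] [T2Space M]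
    [CompactSpace M] [ChartedSpace (EE n) M] [IsManifold (𝓡 n) ∞ M] (J : Set ℝ)
    (F ν : M → ℝ → EE (n + 2)), HFl n J F ν → ∀ t₁ t₂ : ℝ, t₁ < t₂ → Icc t₁ t₂ ⊆ J →
    ∀ k : ℝ, 0 < k → k < 1 →
    (∀ t ∈ Ico t₁ t₂, Function.Injective (fun q => F q t) ∧ PinK n k F ν t) →
    Function.Injective (fun q => F q t₂)

/-- PRS (hTP1 : StTP1)(hCPZ : StCPZ)(hINO : StINO)(hINC : StINC)(hI4J). The pinching is preserved.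

Proof. `PinK k` at a time implies `PinK k''` for `k'' ≥ k` (`(1-k)z₁² - z₁z₂ - k/rr` is decreasing in `k`). Let
`ε = (k-k₀)/(2(1+t₂-t₁))`, `κ(t) = k₀ + ε(1+t-t₁) ∈ (k₀,k)` on `[t₁,t₂]`. Claim: for all `t ∈ [t₁,t₂]`, `F(·,t)` is
injective and `PinK κ(t)` holds. Let `S` be the set of `t ∈ [t₁,t₂]` such that the claim holds on `[t₁,t]`, `t₁ ∈ S`,
`ts = sup S`. On `[t₁,ts)` the claim holds, so (`ts > t₁`) INC gives injectivity at `ts`, and INO on `[t₁,t₃]` with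
some `t₃ > ts` (or `t₃ = ts = t₂`). By CPZ the set `Γ` of all `(x,t,z₁,z₂)`, `t ∈ [t₁,t₃]`, `z_i ∈ ZS x t`, is compact
(closed in the product of two compact sets); `G = (1-κ(t))z₁² - z₁z₂ - κ(t)/rr`. If `G < 0` on `Γ` then `S ∋ t₃`:
either `ts = t₂` and we are done, or a contradiction. Otherwise `{G ≥ 0}` is compact, nonempty; let `t₀` be the
minimal time in it, `t₀ > t₁`. For `t < t₀` `G < 0`; at `t₀` `G ≤ 0`: each `z ∈ ZS x t₀` is a limit of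
`z_s ∈ ZS x s`, `s ↑ t₀` (`zch F ν x y s` is continuous in `s`; `hn F ν x s (c/√gn)`). So `G = 0` at some point and
TP1 (for `κ`) gives a contradiction. -/
def StPRS : Prop := ∀ (n : ℕ), 1 ≤ n → ∀ (M : Type) [TopologicalSpace M] [T2Space M]
    [CompactSpace M] [ChartedSpace (EE n) M] [IsManifold (𝓡 n) ∞ M] (J : Set ℝ)
    (F ν : M → ℝ → EE (n + 2)), HFl n J F ν → ∀ t₁ t₂ : ℝ, t₁ ≤ t₂ → Icc t₁ t₂ ⊆ J →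
    ∀ k₀ k : ℝ, 0 < k₀ → k₀ < k → k < 1 → Function.Injective (fun q => F q t₁) →
    PinK n k₀ F ν t₁ →
    ∀ t ∈ Icc t₁ t₂, Function.Injective (fun q => F q t) ∧ PinK n k F ν t

/-- PIZ (hBLI : StBLI)(hNEG : StNEG). The pinching at the initial time.

Proof. BLI for `(F,ν)` and `(F,-ν)` (`τ < 1 < 1/τ`): `F(·,t)` is injective and `|ρ z| ≤ τ` for all chord curvatures
`z`, and for normal curvatures by hypothesis. So `(1-k)z₁² - z₁z₂ ≤ (2-k)τ²/ρ² < k/ρ²` if `k(1+τ²) > 2τ²`: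
`k = (1 + 2τ²/(1+τ²))/2 < 1`. -/
def StPIZ : Prop := ∀ (n : ℕ), 2 ≤ n → ∀ (M : Type) [TopologicalSpace M] [T2Space M]
    [CompactSpace M] [ConnectedSpace M] [ChartedSpace (EE n) M] [IsManifold (𝓡 n) ∞ M]
    (ρ t : ℝ) (F ν : M → ℝ → EE (n + 2)), Hyp n ρ t F ν → rr n t = ρ ^ 2 → ∀ τ : ℝ, 0 < τ →
    τ < 1 → (∀ q, ∀ c : Fin n → ℝ, gn F q t c = 1 → |ρ * hn F ν q t c| < τ) →
    Function.Injective (fun q => F q t) ∧ ∃ k : ℝ, 0 < k ∧ k < 1 ∧ PinK n k F ν t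

end Helper35.HSF
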