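import Mathlib
import Pool.Agent.Helper35.HSF.StB

/-!
Project HSF (MP_925021_gt), module statements, part C: functions on the flow, scalar maximum principle,
the flux lemma (a great circle cannot meet a closed hypersurface of an open hemisphere exactly once,
transversally), convexity and comparability of the curvatures.

Every module proves `theorem hX : StX` from the listed hypotheses (and any statements of PI, PI2, CL, MS, HSF).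
COMPLETE proofs in the docstrings.  `ρ² = rr n t`.
-/

set_option autoImplicit false

namespace Helper35.HSF

open Helper35.PI Helper35.PI2 Helper32.CL Helper35.MS
open scoped ContDiff Manifold Topology ENNReal BigOperators
open MeasureTheory Set Filter

/-! ### Functions on the flow -/

/-- SMF (hSM)(hI2J)(hI3J). Smoothness of the geometric quantities.

Proof. In the chart at `p` (`f(y,s) = F (symm y) s` smooth on `target ×ˢ J`, I2J): `HH F (symm y) s = mcv (f(·,s)) y`,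
`AA = nsq` (I3J), smooth by SM at every point. `rr` is a nonvanishing polynomial on `J` for the last ones. -/
def StSMF : Prop := ∀ (n N : ℕ) (M : Type) [TopologicalSpace M] [ChartedSpace (EE n) M]
    [IsManifold (𝓡 n) ∞ M] (J : Set ℝ) (F : M → ℝ → EE N), IsImmJ (n := n) J F →
    SmV n J F ∧ SmV n J (HH (n := n) F) ∧ SmJ n J (AA (n := n) F) ∧
    SmJ n J (fun q t => ‖HH (n := n) F q t‖ ^ 2) ∧ SmJ n J (thN n F) ∧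
    (∀ c : EE N, SmJ n J (fun q t => (inner ℝ (F q t) c : ℝ))) ∧
    (∀ p : EE N, SmJ n J (fun q t => ‖F q t - p‖ ^ 2)) ∧
    ((∀ t ∈ J, 0 < rr n t) → SmJ n J (eN n F) ∧ SmJ n J (h2N n F))

/-- SMR (hI2J)(hI3J)(hFR)(hSM)(hV6aJ)(hNR). Regularity of a smooth function.

Proof. In the chart at `p`: `gdM n F t u (symm y) = Σ_kl G^kl ∂_kũ f_l` (the value at `q` in the preferred chart at
`q` is the tangent vector with inner products `∂_kũ` with `f_k`, so it can be computed in any chart), `G` the inverse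
Gram matrix, `ũ(y,s) = u (symm y) s`, all smooth in `(y,s)`; `dvg` in the chart by V6aJ. Time derivative: the
partial derivative of the smooth `ũ`. Orthogonality: `HH` is normal (NR), `gdM` is a combination of the `dv1`. -/
def StSMR : Prop := ∀ (n N : ℕ) (M : Type) [TopologicalSpace M] [ChartedSpace (EE n) M]
    [IsManifold (𝓡 n) ∞ M] (J : Set ℝ) (F : M → ℝ → EE N), IsImmJ (n := n) J F →
    ∀ u : M → ℝ → ℝ, SmJ n J u →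
    (∀ t ∈ J, ContMDiff (𝓡 n) 𝓘(ℝ, ℝ) ∞ (fun q => u q t) ∧
      ContMDiff (𝓡 n) 𝓘(ℝ, EE N) ∞ (gdM n F t (fun q => u q t))) ∧
    CSTJ J u ∧ CSTJ J (fun q t => deriv (fun s => u q s) t) ∧
    (∀ q, ∀ t ∈ J, HasDerivAt (fun s => u q s) (deriv (fun s => u q s) t) t) ∧
    CSTJ J (fun q t => lapN n F u q t) ∧ CSTJ J (fun q t => htN n F u q t) ∧
    CSTJ J (fun q t => gdM n F t (fun q => u q t) q) ∧
    ∀ t ∈ J, ∀ q, gdM n F t (fun q => u q t) q ∈ TS (n := n) F q t ∧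
      (inner ℝ (HH (n := n) F q t) (gdM n F t (fun q => u q t) q) : ℝ) = 0

/-- HTR (hSMR : StSMR)(hPRJ : StPRJ)(hI3J). Calculus rules.

Proof. Smoothness: sums, products, compositions of smooth functions. Gradients: definition (`fderiv` rules) or PRJ;
`dvg (h • X) = h dvg X + ⟨gdM h, X⟩` (PRJ), so `Δ(uv) = uΔv + vΔu + 2⟨∇u,∇v⟩`,
`Δψ(u) = ψ'Δu + ψ''|∇u|²`; `dvg` is additive. -/
def StHTR : Prop := ∀ (n N : ℕ) (M : Type) [TopologicalSpace M] [ChartedSpace (EE n) M]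
    [IsManifold (𝓡 n) ∞ M] (J : Set ℝ) (F : M → ℝ → EE N), IsImmJ (n := n) J F →
    ∀ u v : M → ℝ → ℝ, SmJ n J u → SmJ n J v →
    (SmJ n J (fun q t => u q t * v q t) ∧ ∀ q, ∀ t ∈ J,
      gdM n F t (fun q => u q t * v q t) q
        = u q t • gdM n F t (fun q => v q t) q + v q t • gdM n F t (fun q => u q t) q ∧
      htN n F (fun q t => u q t * v q t) q t = u q t * htN n F v q t + v q t * htN n F u q t
        - 2 * inner ℝ (gdM n F t (fun q => u q t) q) (gdM n F t (fun q => v q t) q)) ∧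
    (∀ a b : ℝ, SmJ n J (fun q t => a * u q t + b * v q t) ∧ ∀ q, ∀ t ∈ J,
      gdM n F t (fun q => a * u q t + b * v q t) q
        = a • gdM n F t (fun q => u q t) q + b • gdM n F t (fun q => v q t) q ∧
      htN n F (fun q t => a * u q t + b * v q t) q t = a * htN n F u q t + b * htN n F v q t) ∧
    (∀ ψ : ℝ → ℝ, ContDiff ℝ ∞ ψ → SmJ n J (fun q t => ψ (u q t)) ∧ ∀ q, ∀ t ∈ J,
      gdM n F t (fun q => ψ (u q t)) q = deriv ψ (u q t) • gdM n F t (fun q => u q t) q ∧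
      htN n F (fun q t => ψ (u q t)) q t = deriv ψ (u q t) * htN n F u q t
        - deriv (deriv ψ) (u q t) * ‖gdM n F t (fun q => u q t) q‖ ^ 2) ∧
    ∀ a : ℝ → ℝ, ContDiffOn ℝ ∞ a J → SmJ n J (fun (_ : M) t => a t) ∧ ∀ q : M, ∀ t ∈ J,
      gdM n F t (fun _ : M => a t) q = 0 ∧ htN n F (fun (_ : M) t => a t) q t = deriv a t

/-- FZP (hSMR : StSMR)(hGCH : StGCH)(hMP)(hC1). Scalar maximum principle, first zero.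

Proof. Suppose `u q t ≥ 0` for some `q`, `t ∈ [t₁,t₂]`. `{(q,t) ∈ M × [t₁,t₂] : u ≥ 0}` is compact; let `t₀` be the
minimal time in it, at `p₀`; `t₀ > t₁`; `u < 0` for earlier times, so `u ≤ 0` at `t₀` and `u p₀ t₀ = 0`. In a graph
chart (GCH) `φ z = u (θ z) z.2` has `φ z ≤ φ (0,t₀) = 0` for `z` near, `z.2 ≤ t₀`; MP: `jg φ = 0` (so `gdM u = 0`) and
`0 ≤ jh φ = htN u p₀ t₀`. Contradiction to the hypothesis. -/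
def StFZP : Prop := ∀ (n N : ℕ) (M : Type) [TopologicalSpace M] [CompactSpace M]
    [ChartedSpace (EE n) M] [IsManifold (𝓡 n) ∞ M] (J : Set ℝ) (F : M → ℝ → EE N),
    IsMCFJ (n := n) J F → ∀ (u : M → ℝ → ℝ) (t₁ t₂ : ℝ), SmJ n J u → Icc t₁ t₂ ⊆ J →
    (∀ q, u q t₁ < 0) →
    (∀ q, ∀ t ∈ Ioc t₁ t₂, u q t = 0 → gdM n F t (fun q => u q t) q = 0 → (∀ p, u p t ≤ 0) →
      htN n F u q t < 0) →
    ∀ q, ∀ t ∈ Icc t₁ t₂, u q t < 0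

/-- EVF (hGCH : StGCH)(hNUJ : StNUJ)(hSMF : StSMF)(hHTR : StHTR)(hG7)(hG8)(hGH)(hG10)(hC1)(hSM). Evolution of the
basic functions.

Proof. `J`-flow, `(q,t)`, graph chart `L, u, θ` (GCH, C1), `x₀ = F q t`, jets `A, T`, `K`, `m z = ν (θ z) z.2` (NUJ).
`Hs = ⟨HH,ν⟩`, `⟨ν,c⟩` are smooth (`ν` smooth). (1) `⟨F,c⟩` on the graph: `⟨x₀ + L z.1 + u z, c⟩`, `jh = 0` at the
centre (`jt u = Σu_kk`). (2) `htN ⟨ν,c⟩ = ⟨jh m, c⟩`: NUJ. (3) `‖F-p‖²`: G10 with a constant curve. (4) `Hs`: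
`‖HH‖² = Hs² + n²/rr` (`HH = Hs ν - (n/rr) F`: components), `HH = mcv grf`; directly:
`Hs = ⟨Hf, m⟩` on the graph: `jh Hs = ⟨jh Hf,ν₀⟩ + ⟨HH, jh m⟩ - 2Σ⟨jg Hf k, m_k⟩`. With GH:
`jg Hf k = et T k - Σ_a⟨Hv,A_ak⟩L e_a`, `⟨jg Hf k, m_k⟩ = Σ_a K_ka(K_akHs + δ_akn/rr)`, sum over `k`:
`|h|²Hs + nHs/rr`. `⟨HH,jh m⟩ = |h|²Hs + 2nHs/rr` (`⟨HH,x₀⟩ = -n`). `⟨jh Hf,ν₀⟩`: `jt Hf = jt(jt u)..`; use instead
`Hs = tr_g h`: `h_ij(z) = ⟨jgg u i j, m⟩` has `jh h_ij = -2(K³)_ij - 2K_ij/rr + |h|²K_ij + (2Hs/rr)δ_ij` (computed in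
BLJ), `jh GIf_ij = 2(K²)_ij + 2δ_ij/rr` (G5), `jg GIf = 0`, so `jh Hs = Σ_ij jh(GIf_ij)K_ij + Σ_i jh h_ii =
|h|²Hs + (2n/rr)Hs`. (5) time derivative of `⟨ν,c⟩` (`jt m` at the centre): `⟨m,m⟩ = 1`: `⟨jt m,ν₀⟩ = 0`;
`⟨m,f⟩ = 0`: `⟨jt m,x₀⟩ = -⟨ν₀,jt f⟩ = -Hs`; `⟨m,f_i⟩ = 0`: `⟨jt m,L e_i⟩ = -⟨ν₀,jt u_i⟩ = -⟨ν₀, ∂_i(jt u)⟩ =
-jg Hs i` (`∂_iHs = ⟨et T i, ν₀⟩`, GH: `jg(jt u) i = et T i`, and `⟨HH,m_i⟩ = 0`). So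
`jt m = -∇Hs - (Hs/rr)x₀`. (6) the gradient of `⟨ν,c⟩`: `Σ_k⟨m_k,c⟩L e_k = -Σ K_kj⟨L e_j,c⟩L e_k`; of `⟨F,c⟩`: the
tangential part of `c`. (7) `th`, `e`: `thN = |K|² - Hs²/n`, `eN = Hs²`. -/
def StEVF : Prop := ∀ (n : ℕ), 1 ≤ n → ∀ (M : Type) [TopologicalSpace M] [ChartedSpace (EE n) M]
    [IsManifold (𝓡 n) ∞ M] (J : Set ℝ) (F ν : M → ℝ → EE (n + 2)), HFl n J F ν →
    SmJ n J (Hs n F ν) ∧ (∀ c, SmJ n J (fun q t => (inner ℝ (ν q t) c : ℝ))) ∧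
    ∀ q, ∀ t ∈ J,
      HH (n := n) F q t = Hs n F ν q t • ν q t - (n / rr n t) • F q t ∧
      eN n F q t = Hs n F ν q t ^ 2 ∧ thN n F q t = h2N n F q t - Hs n F ν q t ^ 2 / n ∧
      0 ≤ thN n F q t ∧
      htN n F (Hs n F ν) q t = (h2N n F q t + 2 * n / rr n t) * Hs n F ν q t ∧
      (∀ p, htN n F (fun q t => ‖F q t - p‖ ^ 2) q t = -2 * n) ∧
      ∀ c : EE (n + 2),
        htN n F (fun q t => (inner ℝ (F q t) c : ℝ)) q t = 0 ∧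
        htN n F (fun q t => (inner ℝ (ν q t) c : ℝ)) q t
          = h2N n F q t * inner ℝ (ν q t) c - 2 * Hs n F ν q t / rr n t * inner ℝ (F q t) c ∧
        deriv (fun s => (inner ℝ (ν q s) c : ℝ)) t
          = -inner ℝ (gdM n F t (fun q => Hs n F ν q t) q) c
            - Hs n F ν q t / rr n t * inner ℝ (F q t) c ∧
        c = gdM n F t (fun q => (inner ℝ (F q t) c : ℝ)) q + (inner ℝ (ν q t) c : ℝ) • ν q t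
          + ((inner ℝ (F q t) c : ℝ) / rr n t) • F q t

/-- HNB (hEVF : StEVF)(hGCH : StGCH)(hNUJ : StNUJ)(hC1)(hFR). Normal curvatures and invariants.

Proof. In a graph chart `K` is a symmetric matrix with `tr K = Hs`, `|K|² = h2N`; every unit vector `U ∈ ℝ^n` gives `c`
with `gn = 1`, `hn = K(U,U)` and conversely (`GCh.fs`, `fs'` at the centre). Eigenvalues `κ_i`: (1)
`κ² ≤ |K|²`; (2) the maximal `|κ_i| ≥ √(|K|²/n)`; the maximal `κ_i ≥ tr K/n`; (3) `(κ - H/n)² ≤ |K|² - H²/n`: for a unit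
vector `U`, `K(U,U) - H/n = (K°)(U,U)`, `|K°|² = |K|² - H²/n`. (4) bounds. -/
def StHNB : Prop := ∀ (n : ℕ), 1 ≤ n → ∀ (M : Type) [TopologicalSpace M] [ChartedSpace (EE n) M]
    [IsManifold (𝓡 n) ∞ M] (J : Set ℝ) (F ν : M → ℝ → EE (n + 2)), HFl n J F ν →
    ∀ q, ∀ t ∈ J,
      0 ≤ h2N n F q t ∧ Hs n F ν q t ^ 2 ≤ n * h2N n F q t ∧
      (∀ c : Fin n → ℝ, gn F q t c = 1 → hn F ν q t c ^ 2 ≤ h2N n F q t ∧
        (hn F ν q t c - Hs n F ν q t / n) ^ 2 ≤ thN n F q t) ∧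
      (∃ c : Fin n → ℝ, gn F q t c = 1 ∧ h2N n F q t ≤ n * hn F ν q t c ^ 2) ∧
      (∃ c : Fin n → ℝ, gn F q t c = 1 ∧ Hs n F ν q t ≤ n * hn F ν q t c) ∧
      (∀ lo : ℝ, (∀ c : Fin n → ℝ, gn F q t c = 1 → lo ≤ hn F ν q t c) →
        n * lo ≤ Hs n F ν q t) ∧
      ∀ hi : ℝ, (∀ c : Fin n → ℝ, gn F q t c = 1 → |hn F ν q t c| ≤ hi) →
        h2N n F q t ≤ n * hi ^ 2

/-! ### The flux lemma -/

/-- DVW (hWEI-type facts; hFR)(hNR)(hI3J). Divergence of `⟨a,ν⟩X - ⟨X,ν⟩a`.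

Proof. Preferred chart at `q`, `f = loc F q t`; orthonormal frame `E_a` of `TS` (FR); with `D_a` the derivative in
the corresponding direction, `dvg V = Σ_a⟨D_aV, E_a⟩`. `D_aν = -Σ_b κ_ab E_b`, `κ` symmetric (derivative of
`⟨f_j,ν⟩ = 0`, `⟨ν,ν⟩ = 1`, `⟨F,ν⟩ = 0`, compare StWEI). So
`dvg W = Σ⟨DX E_a,E_a⟩⟨a,ν⟩ - Σκ_ab⟨X,E_a⟩⟨a,E_b⟩ + Σκ_ab⟨a,E_a⟩⟨X,E_b⟩ - ⟨DX a^T,ν⟩`, the middle terms
cancel. `E_1..E_n, ν, F/ρ` orthonormal basis: `Σ⟨DX E_a,E_a⟩ = div X - ⟨DXν,ν⟩ - ⟨DX F,F⟩/ρ²`,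
`a^T = a - ⟨a,ν⟩ν - ⟨a,F⟩F/ρ²`, `DX F = -nX`. `HH = Hν - (n/ρ²)F` with some real `H` (`HH` normal,
`⟨HH,F⟩ = -n`), `⟨ν,W⟩ = 0`. Sum: `⟨a,ν⟩ div X - ⟨DX a,ν⟩`. The trace does not depend on the orthonormal basis
(`LinearMap.trace`). -/
def StDVW : Prop := ∀ (n : ℕ) (M : Type) [TopologicalSpace M]
    [ChartedSpace (EE n) M] [IsManifold (𝓡 n) ∞ M] (ρ t : ℝ) (F ν : M → ℝ → EE (n + 2)),
    Hyp n ρ t F ν → ∀ (X : EE (n + 2) → EE (n + 2)) (q : M) (a : EE (n + 2)),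
    ContDiffAt ℝ ∞ X (F q t) → fderiv ℝ X (F q t) (F q t) = -((n : ℝ) • X (F q t)) →
    ∀ W : M → EE (n + 2), W = (fun q => (inner ℝ a (ν q t) : ℝ) • X (F q t)
      - (inner ℝ (X (F q t)) (ν q t) : ℝ) • a) →
    dvg (n := n) F W q t + inner ℝ (HH (n := n) F q t) (W q)
      = inner ℝ a (ν q t) * (∑ i, inner ℝ (fderiv ℝ X (F q t) (ee i)) (ee i))
        - inner ℝ (fderiv ℝ X (F q t) a) (ν q t)

/-- FLX (hDVW : StDVW)(hFVJ : StFVJ)(hHHY : StHHY). The flux identity.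

Proof. `X(p) = Ψ(x₁(p), s(p)) ⟨p,b⟩^(-n) e` on the open set `⟨p,b⟩ > 0`, `x₁ = ⟨p,e⟩/⟨p,b⟩`,
`s = (|p|² - ⟨p,a⟩² - ⟨p,b⟩² - ⟨p,e⟩²)/⟨p,b⟩²`, homogeneous of degree `0`. `X` is smooth, homogeneous of degree `-n`
(Euler: `DX(p)p = -nX(p)`), `DX a = 0` (`x₁, s, ⟨p,b⟩` do not change in the direction `a`: the derivative of
`|p|² - ⟨p,a⟩²` is `0`), `div X = ⟨DX e, e⟩ = ∂₁Ψ ⟨p,b⟩^(-n-1)` (`X` is parallel to `e`; `D_es = 0`, `D_ex₁ = 1/⟨p,b⟩`;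
`Σ_i⟨DX e_i,e_i⟩ = Σ_i ⟨e,e_i⟩ D_{e_i}(..) = D_e(..)`). DVW and FVJ for `W` (`C¹` on `M`: `F`, `ν` smooth,
`⟨F,b⟩ > 0`). -/
def StFLX : Prop := ∀ (n : ℕ) (M : Type) [TopologicalSpace M] [T2Space M] [CompactSpace M]
    [MeasurableSpace M] [BorelSpace M] [ChartedSpace (EE n) M] [IsManifold (𝓡 n) ∞ M]
    (J : Set ℝ) (F ν : M → ℝ → EE (n + 2)) (c : ℕ → M) (χ : ℕ → M → ℝ), HFl n J F ν →
    PU n c χ → ∀ t ∈ J, ∀ a b e : EE (n + 2), ‖a‖ = 1 → ‖b‖ = 1 → ‖e‖ = 1 →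
    (inner ℝ a b : ℝ) = 0 → (inner ℝ a e : ℝ) = 0 → (inner ℝ b e : ℝ) = 0 →
    (∀ q, 0 < (inner ℝ (F q t) b : ℝ)) → ∀ Ψ : ℝ × ℝ → ℝ, ContDiff ℝ ∞ Ψ →
    ∫ q, inner ℝ a (ν q t) * fderiv ℝ Ψ ((inner ℝ (F q t) e : ℝ) / inner ℝ (F q t) b,
        (‖F q t‖ ^ 2 - (inner ℝ (F q t) a : ℝ) ^ 2 - (inner ℝ (F q t) b : ℝ) ^ 2
          - (inner ℝ (F q t) e : ℝ) ^ 2) / (inner ℝ (F q t) b : ℝ) ^ 2) (1, 0)
        / (inner ℝ (F q t) b : ℝ) ^ (n + 1) ∂muM n F c χ t = 0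

/-- LNE (hFLX : StFLX)(hFSJ : StFSJ)(hMUJ : StMUJ)(hV5 : StV5). A great circle does not meet a closed
hypersurface of an open hemisphere exactly once, transversally.

Proof. `M` with its Borel sets, a partition of unity (V5, PU). Suppose `γ = ⟨a,ν y t⟩ ≠ 0`; let `V` be an open
neighbourhood of `y` on which `γ⟨a,ν⟩ > 0`. `r(q) = |F - ⟨F,a⟩a - ⟨F,b⟩b|²/⟨F,b⟩² ≥ 0` vanishes only at `y`; on the
compact `Vᶜ`, `r ≥ 2δ²` with `δ > 0`. `e` a unit vector orthogonal to `a, b` (`n ≥ 1`). `η : ℝ → ℝ` smooth, `η ≥ 0`,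
`η 0 > 0`, `η = 0` outside `(-1,1)`; `E' = η`; `Ψ(x,s) = E(x/δ) η(s/δ²)`, `∂₁Ψ = η(x/δ)η(s/δ²)/δ`. With `x₁, s` as in
FLX, `s ≥ 0` and `x₁² + s = r`: if `∂₁Ψ(x₁,s) ≠ 0` then `r < 2δ²` and `q ∈ V`. So `γ` times the integrand of FLX is
continuous and `≥ 0` on `M`; its integral is `0`, so it vanishes identically (FSJ); but at `y`, `x₁ = s = 0`, it is
`γ² η(0)²/(δ⟨F,b⟩^(n+1)) > 0`. -/
def StLNE : Prop := ∀ (n : ℕ), 1 ≤ n → ∀ (M : Type) [TopologicalSpace M] [T2Space M]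
    [CompactSpace M] [ChartedSpace (EE n) M] [IsManifold (𝓡 n) ∞ M]
    (J : Set ℝ) (F ν : M → ℝ → EE (n + 2)), HFl n J F ν → ∀ t ∈ J, ∀ (y : M) (a b : EE (n + 2)),
    ‖a‖ = 1 → ‖b‖ = 1 → (inner ℝ a b : ℝ) = 0 → (∀ q, 0 < (inner ℝ (F q t) b : ℝ)) →
    F y t = (inner ℝ (F y t) a : ℝ) • a + (inner ℝ (F y t) b : ℝ) • b →
    (∀ q, F q t = (inner ℝ (F q t) a : ℝ) • a + (inner ℝ (F q t) b : ℝ) • b → q = y) →
    (inner ℝ a (ν y t) : ℝ) = 0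

/-- DIA. A hypersurface inside a ball which touches it.

Proof. `p = F x₀ + ν/q₀` (`ν = ν x₀ t`), `|p|² = ρ² + 1/q₀²`. For all `y`: `⟨F y - F x₀, ν⟩ ≥ q₀|F y - F x₀|²/2`, so
`|F y - p|² ≤ 1/q₀²` and `⟨F y,p⟩ ≥ (ρ² + |p|² - 1/q₀²)/2 = ρ²`. Let `A = F y`, `B = F y'`, `p' = p/|p|`,
`α = ⟨A,p'⟩ ≥ ρ²/|p|`, `β = ⟨B,p'⟩ ≥ ρ²/|p|`; the components orthogonal to `p'` have norms `√(ρ²-α²)`, `√(ρ²-β²)`, each
`≤ ρ/(q₀|p|)` (`ρ² - ρ⁴/|p|² = ρ²/(q₀²|p|²)`). So `⟨A,B⟩ ≥ αβ - √(ρ²-α²)√(ρ²-β²) ≥ ρ⁴/|p|² - ρ²/(q₀²|p|²) =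
ρ²(ρ²q₀² - 1)/(ρ²q₀² + 1)`, `|A-B|² = 2ρ² - 2⟨A,B⟩ ≤ 4ρ²/(1 + ρ²q₀²)`. -/
def StDIA : Prop := ∀ (n : ℕ) (M : Type) [TopologicalSpace M]
    [ChartedSpace (EE n) M] (ρ t : ℝ) (F ν : M → ℝ → EE (n + 2)),
    Hyp n ρ t F ν → ∀ (x₀ : M) (q₀ : ℝ), 0 < q₀ →
    (∀ y, F y t ≠ F x₀ t → q₀ ≤ zch F ν x₀ y t) →
    (∀ y y', ‖F y t - F y' t‖ ^ 2 * (1 + ρ ^ 2 * q₀ ^ 2) ≤ 4 * ρ ^ 2 ∧
      (1 < ρ * q₀ → 0 < (inner ℝ (F y t) (F y' t) : ℝ))) ∧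
    ∀ y, ρ ^ 2 ≤ (inner ℝ (F y t) (F x₀ t + (1 / q₀) • ν x₀ t) : ℝ)

/-- LGE (hLNE : StLNE)(hDIA : StDIA)(hCPZ : StCPZ)(hHHY : StHHY). Large curvature at every point.

Proof. Suppose `|z| < q₀` for all `z ∈ ZS y`. `ZS y` is compact (CPZ with `t₁ = t₂ = t`, a slice), nonempty or empty: so
`|z| ≤ s` on it with `0 ≤ s < q₀`. `b = F y/ρ`, `a = ν y`. `⟨F q,b⟩ > 0` for all `q` by DIA. Let `q ≠ y` with
`F q = ⟨F q,a⟩a + ⟨F q,b⟩b`; `F q ≠ F y` (injective). `C = ⟨F q,b⟩/ρ`, `S = ⟨F q,a⟩/ρ`, `C² + S² = 1`, `C < 1`: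
`|F q - F y|² = 2ρ²(1-C)`, `z = zch F ν y q t = 2ρS/(2ρ²(1-C))`, `ρ²z² = (1+C)/(1-C)`, so
`|F q - F y|² = 4ρ²/(1 + ρ²z²) ≥ 4ρ²/(1 + ρ²s²) > 4ρ²/(1 + ρ²q₀²)`, a contradiction to DIA. So `q = y` is the only
point, and LNE gives `⟨a,ν y⟩ = 0`; but it is `1`. -/
def StLGE : Prop := ∀ (n : ℕ), 1 ≤ n → ∀ (M : Type) [TopologicalSpace M] [T2Space M]
    [CompactSpace M] [ChartedSpace (EE n) M] [IsManifold (𝓡 n) ∞ M]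
    (J : Set ℝ) (F ν : M → ℝ → EE (n + 2)), HFl n J F ν → ∀ t ∈ J,
    Function.Injective (fun q => F q t) → ∀ (x₀ : M) (q₀ : ℝ), 0 < q₀ →
    1 < rr n t * q₀ ^ 2 → (∀ y, F y t ≠ F x₀ t → q₀ ≤ zch F ν x₀ y t) →
    ∀ y, ∃ z ∈ ZS n F ν y t, q₀ ≤ |z|

/-- CVX (hLGE : StLGE)(hCPZ : StCPZ). Convexity.

Proof. `U₊ = {y : ∃ z ∈ ZS y, q₀ ≤ z}`, `U₋ = {y : ∃ z ∈ ZS y, z ≤ -q₀}` are closed (projections of compact sets, CPZ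
with `t₁ = t₂ = t`), cover `M` (LGE), and are disjoint: `z₁ ≥ q₀`, `z₂ ≤ -q₀` give `(1-k)z₁² - z₁z₂ ≥ q₀² > 1/rr >
k/rr`, against PinK. `x₀ ∈ U₊` (`ZS x₀` is nonempty, `n ≥ 1`: a unit `c`). `M` connected: `M = U₊`. For `y`:
`z₁ ∈ ZS y`, `z₁ ≥ q₀`, and any `z₂ ∈ ZS y`: `z₂ > (1-k)z₁ - k/(rr z₁) ≥ (1-k)q₀ - k/(rr q₀) > 0` (increasing in
`z₁`). -/
def StCVX : Prop := ∀ (n : ℕ), 1 ≤ n → ∀ (M : Type) [TopologicalSpace M] [T2Space M]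
    [CompactSpace M] [ConnectedSpace M] [ChartedSpace (EE n) M] [IsManifold (𝓡 n) ∞ M]
    (J : Set ℝ) (F ν : M → ℝ → EE (n + 2)), HFl n J F ν → ∀ t ∈ J,
    Function.Injective (fun q => F q t) → ∀ k : ℝ, 0 < k → k < 1 → PinK n k F ν t →
    ∀ (x₀ : M) (q₀ : ℝ), 0 < q₀ → 1 < rr n t * q₀ ^ 2 → k < (1 - k) * (rr n t * q₀ ^ 2) →
    (∀ z ∈ ZS n F ν x₀ t, q₀ ≤ z) →
    ∀ y, ∀ z ∈ ZS n F ν y t, (1 - k) * q₀ - k / (rr n t * q₀) < z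

/-- LRG (hCVX : StCVX). A large curvature somewhere makes all curvatures large.

Proof. `λ = (1-k)/2 ∈ (0,1/2)`, `r = rr n t`. `z₁ = hn ≥ B` at `x₀`: for `z ∈ ZS x₀`:
`z > (1-k)z₁ - k/(rz₁) ≥ 2λB - k/(rB) ≥ λB` (`λrB² ≥ 1 > k`). `q₀ = λB`: `rq₀² = λ²rB² ≥ λ⁻² > 1`,
`(1-k)rq₀² = 2λ³rB² ≥ 2/λ > 1 > k`. CVX: `z > 2λq₀ - k/(rq₀) ≥ λq₀ = λ²B` (`λrq₀² ≥ 1 > k`). -/
def StLRG : Prop := ∀ (n : ℕ), 1 ≤ n → ∀ (M : Type) [TopologicalSpace M] [T2Space M]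
    [CompactSpace M] [ConnectedSpace M] [ChartedSpace (EE n) M] [IsManifold (𝓡 n) ∞ M]
    (J : Set ℝ) (F ν : M → ℝ → EE (n + 2)), HFl n J F ν → ∀ t ∈ J,
    Function.Injective (fun q => F q t) → ∀ k l B : ℝ, 0 < k → k < 1 → l = (1 - k) / 2 →
    PinK n k F ν t → 0 < B → 1 ≤ l ^ 4 * (rr n t * B ^ 2) →
    (∃ x, ∃ c : Fin n → ℝ, gn F x t c = 1 ∧ B ≤ hn F ν x t c) →
    ∀ y, ∀ z ∈ ZS n F ν y t, l ^ 2 * B ≤ z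

/-- FCV (hLRG : StLRG)(hNEG : StNEG)(hFZP : StFZP)(hEVF : StEVF)(hHNB : StHNB)(hHTR : StHTR). Finite time: convexity and
comparability of all curvatures.

Proof. `r₀ = 1 - 2nT > 0`, `rr ≥ r₀` on `(0,T)`; `l = (1-k)/2`. `B₀ > 0` with `l⁴r₀B₀² ≥ 1`, `B₁ = B₀/l²`. As `AA`
is unbounded near `T` there are `ts ∈ (t₁,T)`, `x` with `h2N n F x ts ≥ nB₁²`, so (HNB) a unit `c` with
`|hn| ≥ B₁`. Let `ν' = ±ν` with `hn F ν' x ts c ≥ B₁`. LRG: all `z ∈ ZS y ts` are `≥ l²B₁ = B₀`, so `Hs ≥ nB₀` on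
`M_ts` (HNB). `Hs ≥ nB₀` for all `t ∈ [ts,T)`: for `0 < a < nB₀` FZP for `u = a - Hs` (`htN u = -(h2N + 2n/rr)Hs < 0`
where `u = 0`, i.e. `Hs = a > 0`). At every `t ∈ [ts,T)`: by compactness let `B = max hn F ν' · t` over all points and
unit vectors (attained, or use approximations `B - ε`); `B ≥ Hs/n ≥ B₀` (HNB); LRG: `l²B ≤ z` for all `z ∈ ZS y t`.
In particular `hn y c' ≥ l²B ≥ l² hn x c`. -/
def StFCV : Prop := ∀ (n : ℕ), 1 ≤ n → ∀ (M : Type) [TopologicalSpace M] [T2Space M]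
    [CompactSpace M] [ConnectedSpace M] [ChartedSpace (EE n) M] [IsManifold (𝓡 n) ∞ M]
    (T : ℝ) (F ν : M → ℝ → EE (n + 2)), HFl n (Ioo 0 T) F ν → 2 * n * T < 1 →
    ∀ k t₁ : ℝ, 0 < k → k < 1 → t₁ ∈ Ioo 0 T →
    (∀ t ∈ Ico t₁ T, Function.Injective (fun q => F q t) ∧ PinK n k F ν t) →
    (∀ C t₀ : ℝ, t₀ < T → ∃ t ∈ Ioo 0 T, t₀ < t ∧ ∃ q, C < AA (n := n) F q t) →
    ∃ (ν' : M → ℝ → EE (n + 2)) (ts ε : ℝ), (ν' = ν ∨ ν' = (fun q t => -ν q t)) ∧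
      ts ∈ Ico t₁ T ∧ 0 < ε ∧ ε < 1 ∧ ∀ t ∈ Ico ts T,
        (∀ x, ∀ z ∈ ZS n F ν' x t, ε ≤ z) ∧
        ∀ x y, ∀ z ∈ ZS n F ν' y t, ∀ c : Fin n → ℝ, gn F x t c = 1 →
          ε * hn F ν' x t c ≤ z

end Helper35.HSF
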