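import Mathlib
import Pool.Agent.Helper35.HSF.StC

/-!
Project HSF (MP_925021_gt), module statements, part D: mean value inequality in all dimensions, infinite time
(final time `T = 1/(2n)` in `ℝ^(n+2)`).

Every module proves `theorem hX : StX` from the listed hypotheses (and any statements of PI, PI2, CL, MS, HSF).
COMPLETE proofs in the docstrings.  `ρ² = rr n t`, `μ_t = muM n F c χ t`.
-/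

set_option autoImplicit false

namespace Helper35.HSF

open Helper35.PI Helper35.PI2 Helper32.CL Helper35.MS
open scoped ContDiff Manifold Topology ENNReal BigOperators
open MeasureTheory Set Filter

/-! ### Mean value inequality in dimension `n` -/

/-- HUN (hPRJ : StPRJ)(hFVJ : StFVJ)(hTDJ : StTDJ)(hMUJ : StMUJ)(hI4J)(hSMR : StSMR). Huisken's monotonicity formula
with a weight. As HUK (`Helper76/MS/M_HUK.lean`, `n = 2`), for all `n`.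

Proof. `τ = ts - t > 0`, `x = F - y`, `Φ = (4πτ)^(-n/2) exp(-|x|²/(4τ))`;
`∂_tΦ = Φ(n/(2τ) - |x|²/(4τ²) - ⟨x,H⟩/(2τ))`. Fixed `t`, `V = gdM u`: the field `X = Φ V + (uΦ/(2τ)) x`:
`dvg X = Φ dvg V - Φ⟨x,V⟩/(2τ) + Φ⟨V,x⟩/(2τ) + (u/(2τ))(nΦ - Φr/(2τ))` (`dvg (Φx) = nΦ - Φr/(2τ)`, PRJ),
`⟨H,X⟩ = uΦ⟨H,x⟩/(2τ)`. So the derivative of `∫uΦ` is
`∫ (∂_tu - dvg V)Φ - ∫ uΦ((|x|²-r)/(4τ²) + ⟨H,x⟩/τ + |H|²)`, the last bracket is `≥ 0` as `⟨H,x⟩² ≤ |H|²(|x|²-r)`. -/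
def StHUN : Prop := ∀ (n N : ℕ) (M : Type) [TopologicalSpace M] [T2Space M]
    [CompactSpace M] [MeasurableSpace M] [BorelSpace M]
    [ChartedSpace (EE n) M] [IsManifold (𝓡 n) ∞ M] (J : Set ℝ) (F : M → ℝ → EE N) (c : ℕ → M)
    (χ : ℕ → M → ℝ), SetupF n J F c χ → ∀ (u : M → ℝ → ℝ) (y : EE N) (ts : ℝ), SmJ n J u →
    ∀ Φ : M → ℝ → ℝ, Φ = (fun q t => (4 * Real.pi * (ts - t)) ^ (-(n : ℝ) / 2)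
      * Real.exp (-(‖F q t - y‖ ^ 2 / (4 * (ts - t))))) →
    ∀ t ∈ J, t < ts → (∀ q, 0 ≤ u q t) →
    ∃ D : ℝ, HasDerivAt (fun t => ∫ q, u q t * Φ q t ∂muM n F c χ t) D t ∧
      D ≤ ∫ q, htN n F u q t * Φ q t ∂muM n F c χ t

/-- SBN (hMUJ : StMUJ)(hV4J : StV4J)(hV1)(hI2J)(hI3J)(hFR). Area of small balls, some constant. As SBJ
(`Helper97/MS/M_SBJ.lean`), all `n`, no sharp constant: near the point the chart is bi-Lipschitz after a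
linear change of coordinates, with constants close to `1`; `c` may be half the volume of the unit ball, or
smaller. -/
def StSBN : Prop := ∀ n : ℕ, 1 ≤ n → ∃ cn : ℝ, 0 < cn ∧ ∀ (N : ℕ) (M : Type)
    [TopologicalSpace M] [T2Space M] [CompactSpace M]
    [MeasurableSpace M] [BorelSpace M] [ChartedSpace (EE n) M] [IsManifold (𝓡 n) ∞ M]
    (J : Set ℝ) (F : M → ℝ → EE N) (c : ℕ → M) (χ : ℕ → M → ℝ), SetupJ n J F c χ →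
    ∀ t ∈ J, ∀ q : M, ∀ U ∈ 𝓝 q, ∀ᶠ ε in 𝓝[>] (0 : ℝ),
      ENNReal.ofReal (cn * ε ^ n) ≤ muM n F c χ t (U ∩ {p | ‖F p t - F q t‖ ≤ ε})

/-- the mean value inequality with constant `Cn` -/
def MVC (n : ℕ) (Cn : ℝ) : Prop := ∀ (N : ℕ) (M : Type) [TopologicalSpace M] [T2Space M]
    [CompactSpace M] [MeasurableSpace M] [BorelSpace M]
    [ChartedSpace (EE n) M] [IsManifold (𝓡 n) ∞ M] (J : Set ℝ) (F : M → ℝ → EE N) (c : ℕ → M)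
    (χ : ℕ → M → ℝ), SetupF n J F c χ → ∀ (u : M → ℝ → ℝ) (κ t₁ t₀ : ℝ), SmJ n J u → 0 ≤ κ →
    t₁ < t₀ → Icc t₁ t₀ ⊆ J → (∀ q, ∀ t ∈ Icc t₁ t₀, 0 ≤ u q t) →
    (∀ q, ∀ t ∈ Icc t₁ t₀, htN n F u q t ≤ κ * u q t) → ∀ p : M,
    u p t₀ ≤ Cn * Real.exp (κ * (t₀ - t₁)) * (t₀ - t₁) ^ (-(n : ℝ) / 2) *
      ∫ q, u q t₁ * Real.exp (-(‖F q t₁ - F p t₀‖ ^ 2 / (8 * (t₀ - t₁)))) ∂muM n F c χ t₁

/-- MVN (hHUN : StHUN)(hSBN : StSBN)(hMUJ : StMUJ)(hSMR : StSMR). As MVI (`Helper87/MS/M_MVI.lean`).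

Proof. `x₀ = F p t₀`, `0 < σ ≤ t₀ - t₁`, `ts = t₀ + σ`. On `[t₁,t₀]` the derivative of `e^{-κt}∫uΦ` is `≤ 0`. Left side:
for `η > 0`, `U = {u(·,t₀) > u(p,t₀) - η}`, SBN with `ε = 2√σ`:
`∫uΦ dμ_{t₀} ≥ (u(p,t₀)-η)(4πσ)^(-n/2) e⁻¹ cn (2√σ)^n = (u(p,t₀)-η) cn π^(-n/2) e⁻¹` (if `u(p,t₀) ≥ η`), right side:
`Φ(·,t₁) ≤ (4π(t₀-t₁))^(-n/2) exp(-|F-x₀|²/(8(t₀-t₁)))`. `Cn = e 2^(-n)/cn`. -/
def StMVN : Prop := ∀ n : ℕ, 1 ≤ n → ∃ Cn : ℝ, 0 < Cn ∧ MVC n Cn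

/-- PPN (hHTR : StHTR)(hMUJ : StMUJ). The positive part. As PPV (`Helper45/MS/M_PPV.lean`).

Proof. `ψ(x) = (x + √(x²+η²))/2`, `w = ψ(u - b(t-t₁) - l)` (`HTR`: composition with `ψ`, addition of a function of
time), `htN w = ψ'(htN u - b) - ψ''|∇u|² ≤ 0`; MVC with `κ = 0`, exponential `≤ 1`, `η → 0`. -/
def StPPN : Prop := ∀ (n : ℕ) (Cn : ℝ), MVC n Cn → 0 < Cn → ∀ (N : ℕ) (M : Type)
    [TopologicalSpace M] [T2Space M]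
    [CompactSpace M] [MeasurableSpace M] [BorelSpace M]
    [ChartedSpace (EE n) M] [IsManifold (𝓡 n) ∞ M] (J : Set ℝ) (F : M → ℝ → EE N) (c : ℕ → M)
    (χ : ℕ → M → ℝ), SetupF n J F c χ → ∀ (u : M → ℝ → ℝ) (b l t₁ t₀ : ℝ), SmJ n J u →
    t₁ < t₀ → Icc t₁ t₀ ⊆ J → (∀ q, ∀ t ∈ Icc t₁ t₀, htN n F u q t ≤ b) → ∀ p : M,
    u p t₀ ≤ l + b * (t₀ - t₁)
      + Cn * (t₀ - t₁) ^ (-(n : ℝ) / 2) * ∫ q, max 0 (u q t₁ - l) ∂muM n F c χ t₁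

/-- ARE (hTDJ : StTDJ)(hMUJ : StMUJ)(hFSJ : StFSJ)(hI4J). Area.

Proof. TDJ with `g = 1`, `g' = 0`. Positivity: FSJ for `g = 1` if `M` is nonempty. -/
def StARE : Prop := ∀ (n N : ℕ) (M : Type) [TopologicalSpace M] [T2Space M]
    [CompactSpace M] [Nonempty M] [MeasurableSpace M] [BorelSpace M]
    [ChartedSpace (EE n) M] [IsManifold (𝓡 n) ∞ M] (J : Set ℝ) (F : M → ℝ → EE N) (c : ℕ → M)
    (χ : ℕ → M → ℝ), SetupF n J F c χ → ∀ t ∈ J,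
    0 < (muM n F c χ t).real univ ∧
    HasDerivAt (fun t => (muM n F c χ t).real univ)
      (-∫ q, ‖HH (n := n) F q t‖ ^ 2 ∂muM n F c χ t) t

/-! ### Infinite time -/

/-- ZRO (hCPZ : StCPZ)(hDIA : StDIA)(hFZP : StFZP)(hEVF : StEVF)(hNEG : StNEG)(hHHY)(hHTR)(hSMF). If the flow lives until
the final time of `ℝ^(n+2)` it is never convex at a point.

Proof. By NEG it suffices to find `z ≤ 0`. Suppose all `z ∈ ZS x t₀` are positive; `ZS x t₀` is compact (CPZ,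
`t₁ = t₂ = t₀`) and nonempty (`n ≥ 1`), so all are `≥ q₀ > 0`. DIA: `⟨F y t₀,p⟩ ≥ ρ₀² = rr n t₀` for all `y`,
`p = F x + ν/q₀`. FZP on `[t₀,t₂]`, `t₂ < T`, for `u = ρ₀²/2 - ⟨F,p⟩ - ε(t-t₀)`, `ε = ρ₀²/4` (`T - t₀ ≤ 1`, as
`T = 1/(2n)`): `u(·,t₀) < 0`, `htN u = -ε < 0` (EVF: `htN ⟨F,p⟩ = 0`). So `⟨F,p⟩ > ρ₀²/4` on `[t₀,T)`, but
`|⟨F,p⟩| ≤ √(rr n t)|p| → 0` as `t → T`. Contradiction. -/
def StZRO : Prop := ∀ (n : ℕ), 1 ≤ n → ∀ (M : Type) [TopologicalSpace M] [T2Space M]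
    [CompactSpace M] [ChartedSpace (EE n) M] [IsManifold (𝓡 n) ∞ M]
    (T : ℝ) (F ν : M → ℝ → EE (n + 2)), HFl n (Ioo 0 T) F ν → 2 * n * T = 1 →
    ∀ t₀ ∈ Ioo 0 T, Function.Injective (fun q => F q t₀) → ∀ x,
    (∃ z ∈ ZS n F ν x t₀, z ≤ 0) ∧ ∃ z ∈ ZS n F ν x t₀, 0 ≤ z

/-- PBD. Consequences of the pinching if `0` lies between the chord curvatures (real algebra).

Proof. (1) Let `z ∈ ZS x`; take `z₂ ∈ ZS x` with `z z₂ ≤ 0`: `(1-k)z² ≤ (1-k)z² - zz₂ < k/rr`. (2) `z₁ ≥ 0 ≥ z₂`: add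
the inequalities for `(z₁,z₂)` and `(z₂,z₁)`: `(1-k)(z₁²+z₂²) - 2z₁z₂ < 2k/rr` and `z₁²+z₂² ≥ -2z₁z₂`. -/
def StPBD : Prop := ∀ (n : ℕ) (M : Type) [TopologicalSpace M] [ChartedSpace (EE n) M]
    (k t : ℝ) (F ν : M → ℝ → EE (n + 2)), 0 < rr n t → 0 < k → k < 1 → PinK n k F ν t → ∀ x,
    (∃ z ∈ ZS n F ν x t, z ≤ 0) → (∃ z ∈ ZS n F ν x t, 0 ≤ z) →
    (∀ z ∈ ZS n F ν x t, (1 - k) * (rr n t * z ^ 2) ≤ k) ∧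
    ∀ z₁ ∈ ZS n F ν x t, ∀ z₂ ∈ ZS n F ν x t, 0 ≤ z₁ → z₂ ≤ 0 →
      (2 - k) * (rr n t * (-(z₁ * z₂))) ≤ k

/-- HZR (hMVN : StMVN)(hARE : StARE)(hEVF : StEVF)(hSMF)(hHTR : StHTR)(hMUJ)(hV5). The mean curvature tends to `0`.

Proof. `M` with its Borel sets and a partition of unity. `a(t)` the area, `A(t) = a(t) rr^(-n/2)`:
`A' = -rr^(-n/2) ∫ eN dμ_t ≤ 0` (ARE, `‖HH‖² = eN + n²/rr`, `eN = Hs² ≥ 0`, `(rr^(-n/2))' = n² rr^(-n/2-1)`), `A ≥ 0`: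
`A` converges as `t → T`. `htN eN = 2Hs htN Hs - 2|∇Hs|² ≤ 2(h2N + 2n/rr)eN ≤ (2(Λ+2n)/rr) eN` (HTR: square of `Hs`).
Let `t₀ < T`, `τ₀ = T - t₀`, `T - 3τ₀ ≥ t₁`. Mean value theorem: `s ∈ (T-3τ₀, T-2τ₀)` with
`-A'(s)τ₀ = ω := A(T-3τ₀) - A(T-2τ₀)`, `ω → 0` as `τ₀ → 0`. On `[s,t₀]` `rr = 2n(T-t) ∈ [2nτ₀, 6nτ₀]`,
`κ = 2(Λ+2n)/(2nτ₀)`, `t₀ - s ∈ [τ₀,2τ₀]`: MVC: `eN(q,t₀) ≤ Cn e^{2κτ₀} τ₀^(-n/2) ∫ eN dμ_s`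
`= C τ₀^(-n/2) rr(s)^{n/2} (-A'(s)) ≤ C'ω/τ₀`. So `rr eN ≤ C''ω`. -/
def StHZR : Prop := ∀ (n : ℕ), 1 ≤ n → ∀ (M : Type) [TopologicalSpace M] [T2Space M]
    [CompactSpace M] [Nonempty M] [ChartedSpace (EE n) M] [IsManifold (𝓡 n) ∞ M]
    (T : ℝ) (F ν : M → ℝ → EE (n + 2)), HFl n (Ioo 0 T) F ν → 2 * n * T = 1 →
    ∀ (t₁ Λ : ℝ), t₁ ∈ Ioo 0 T → (∀ t ∈ Ico t₁ T, ∀ q, rr n t * h2N n F q t ≤ Λ) →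
    ∀ ε : ℝ, 0 < ε → ∃ ts ∈ Ico t₁ T, ∀ t ∈ Ico ts T, ∀ q, rr n t * eN n F q t ≤ ε

/-- TCD (hSLB : StSLB)(hMP)(hJA). No touching for the difference of the extremal curvatures.

Proof. The condition at `(x₀,t₀)` gives `z₁ - z₂ ≤ P - Q` for all `z₁, z₂ ∈ ZS x₀ t₀`, so `Q ≤ z ≤ P`; `P - Q = y(t₀) >
0`. SLB: `θ, β, γ`; `Φ z = β z - γ z - y(z.2)`, `Φ ≤ 0` for `z` near, `z.2 ≤ t₀`, `Φ(0,t₀) = 0`; MP: `0 ≤ jh Φ =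
jh β - jh γ - y' ≤ h2N(P-Q) - y' < 0`. -/
def StTCD : Prop := ∀ (n : ℕ) (M : Type) [TopologicalSpace M] [ChartedSpace (EE n) M]
    [IsManifold (𝓡 n) ∞ M] (J : Set ℝ) (F ν : M → ℝ → EE (n + 2)), HFl n J F ν →
    ∀ (x₀ : M) (t₀ : ℝ), t₀ ∈ J → ∀ (y : ℝ → ℝ) (y' : ℝ), ContDiffAt ℝ 2 y t₀ →
    HasDerivAt y y' t₀ → 0 < y t₀ → h2N n F x₀ t₀ * y t₀ < y' →
    ∀ P ∈ ZS n F ν x₀ t₀, ∀ Q ∈ ZS n F ν x₀ t₀, P - Q = y t₀ →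
    ¬ (∀ᶠ p : M × ℝ in 𝓝 (x₀, t₀), p.2 ≤ t₀ → ∀ z₁ ∈ ZS n F ν p.1 p.2,
      ∀ z₂ ∈ ZS n F ν p.1 p.2, z₁ - z₂ ≤ y p.2)

/-- DEC (hTCD : StTCD)(hCPZ : StCPZ). Decay of the difference.

Proof. `y(t) = C rr(t)^(-Λ'/2)`, `y' = nΛ' y/rr > h2N y`. `C` so large that `z₁ - z₂ < y(t₁)` for all `z₁, z₂ ∈ ZS x t₁`
(compactness, CPZ) and `C ≥ 1`. If `z₁ - z₂ ≥ y(t)` for some `t ≤ t₂`: the set `Γ` of all `(x,t,z₁,z₂)`, `t ∈ [t₁,t₂]`,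
is compact; take the minimal time `t₀ > t₁` with `z₁ - z₂ - y ≥ 0`; as in PRS, at `t₀` `z₁ - z₂ ≤ y(t₀)` by
continuity of chord and normal curvatures in `t`; equality somewhere: TCD gives a contradiction. -/
def StDEC : Prop := ∀ (n : ℕ), 1 ≤ n → ∀ (M : Type) [TopologicalSpace M] [T2Space M]
    [CompactSpace M] [ChartedSpace (EE n) M] [IsManifold (𝓡 n) ∞ M]
    (T : ℝ) (F ν : M → ℝ → EE (n + 2)), HFl n (Ioo 0 T) F ν →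
    ∀ (t₁ l l' : ℝ), t₁ ∈ Ioo 0 T → 0 < l' → l < l' →
    (∀ t ∈ Ico t₁ T, Function.Injective (fun q => F q t)) →
    (∀ t ∈ Ico t₁ T, ∀ q, rr n t * h2N n F q t ≤ n * l) →
    ∃ C : ℝ, 0 < C ∧ ∀ t ∈ Ico t₁ T, ∀ x, ∀ z₁ ∈ ZS n F ν x t, ∀ z₂ ∈ ZS n F ν x t,
      z₁ - z₂ ≤ C * rr n t ^ (-(l' / 2))

/-- IFT (hZRO : StZRO)(hPBD : StPBD)(hHZR : StHZR)(hDEC : StDEC)(hSLB : StSLB)(hCPZ : StCPZ)(hHNB : StHNB)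
(hEVF : StEVF). Infinite time: decay of all curvatures.

Proof. ZRO, PBD: `rr z² ≤ k/(1-k)` for all `z ∈ ZS x t`, `t ∈ [t₁,T)`; HNB: `rr h2N ≤ nk/(1-k) =: Λ`. HZR:
`rr eN → 0` uniformly. For `x,t` let `P, Q` be the maximum and minimum of the compact set `ZS x t` (CPZ slice),
`Q ≤ 0 ≤ P`. If `P = Q` then `P = Q = 0`, all normal curvatures are `0`, `h2N = 0` (HNB). Else SLB:
`h2N ≤ (P+Q)Hs - nPQ`; `rr h2N ≤ 2√(k/(1-k))√(rr eN) + nk/(2-k)` (PBD (2), `Hs² = eN`, EVF). Let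
`l = (1 + k/(2-k))/2 < 1`, `l' = (1+l)/2`; for `t ≥ t₂` near `T`, `rr h2N ≤ nl`. DEC on `[t₂,T)`:
`|z| ≤ P - Q ≤ C rr^(-l'/2) = C rr^(α - 1/2)`, `α = (1-l')/2`. On `[t₁,t₂]` the bound holds with a larger constant
(`rr z² ≤ k/(1-k)`). -/
def StIFT : Prop := ∀ (n : ℕ), 1 ≤ n → ∀ (M : Type) [TopologicalSpace M] [T2Space M]
    [CompactSpace M] [Nonempty M] [ChartedSpace (EE n) M] [IsManifold (𝓡 n) ∞ M]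
    (T : ℝ) (F ν : M → ℝ → EE (n + 2)), HFl n (Ioo 0 T) F ν → 2 * n * T = 1 →
    ∀ (k t₁ : ℝ), 0 < k → k < 1 → t₁ ∈ Ioo 0 T →
    (∀ t ∈ Ico t₁ T, Function.Injective (fun q => F q t) ∧ PinK n k F ν t) →
    ∃ C α : ℝ, 0 < C ∧ 0 < α ∧ α < 1 / 2 ∧ ∀ t ∈ Ico t₁ T, ∀ x, ∀ z ∈ ZS n F ν x t,
      |z| ≤ C * rr n t ^ (α - 1 / 2)

/-- LGM (hEVF : StEVF)(hHNB : StHNB). The normalised flow converges.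

Proof. `f = F/√rr`, `∂_t f = HH/√rr + (n/rr^(3/2))F = (Hs/√rr)ν` (`rr' = -2n`; EVF), `|Hs|² ≤ n h2N ≤ n²(C rr^(α-1/2))²`
(HNB): `|∂_t f| ≤ nC rr^(α-1)`. `Γ(t) = -(C/(2α)) rr^α` has `Γ' = nC rr^(α-1)`: `‖f(q,s) - f(q,t)‖ ≤ Γ(s) - Γ(t)`,
uniformly Cauchy as `s → T`, limit `G`, continuous, `‖f(q,t) - G q‖ ≤ (C/(2α)) rr^α`. -/
def StLGM : Prop := ∀ (n : ℕ), 1 ≤ n → ∀ (M : Type) [TopologicalSpace M] [T2Space M]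
    [CompactSpace M] [ChartedSpace (EE n) M] [IsManifold (𝓡 n) ∞ M]
    (T : ℝ) (F ν : M → ℝ → EE (n + 2)), HFl n (Ioo 0 T) F ν → 2 * n * T = 1 →
    ∀ (C α t₁ : ℝ), 0 < C → 0 < α → t₁ ∈ Ioo 0 T →
    (∀ t ∈ Ico t₁ T, ∀ x, ∀ z ∈ ZS n F ν x t, |z| ≤ C * rr n t ^ (α - 1 / 2)) →
    ∃ (G : M → EE (n + 2)) (C' : ℝ), Continuous G ∧ 0 < C' ∧ ∀ t ∈ Ico t₁ T, ∀ q,
      ‖(1 / Real.sqrt (rr n t)) • F q t - G q‖ ≤ C' * rr n t ^ α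

/-- SUR (hFVJ : StFVJ)(hMUJ : StMUJ)(hARE : StARE)(hEVF : StEVF)(hPRJ)(hHNB)(hHHY)(hSMF)(hSMR)(hV5). Almost totally geodesic
hypersurfaces are almost onto a great sphere.

Proof. `ρ = √rr`, `f = F/ρ`, all inequalities at the time `t`; `δ ≤ η/100` small depending on `n, η`. Suppose
`‖f q - p‖ > η` for all `q`: `⟨f q,p⟩ < 1 - η²/2`. Let `y` be a maximum point of `⟨f,p⟩` on `M`, `a = ⟨f y,p⟩`;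
critical point: `p ⟂ TS y`, so `p = a f y + b ν y`, `a² + b² = 1`. Second derivative in a chart along the tangent vector
with coordinates `c`, `gn = 1` (`n ≥ 1`): `⟨A(c,c),p⟩ ≤ 0`, `A(c,c) = hn ν - F/ρ²` (`⟨A(c,c),F⟩ = -gn`, `A` normal), so
`a/ρ ≥ hn b ≥ -δ/ρ`: `-δ ≤ a < 1 - η²/2`, `b² ≥ η²/2`. Let `e = ν x₀ t`, `e' = ν y t`: `|⟨f q,e⟩|, |⟨f q,e'⟩| ≤ δ` for
all `q` (hypothesis). `⟨p,e⟩ = a⟨f y,e⟩ + b⟨e',e⟩`: `|⟨e,e'⟩| ≤ 2δ/|b| ≤ 3δ/η`. For a unit vector `v` with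
`|⟨f q,v⟩| ≤ δ` for all `q`: FVJ for the field `⟨F,v⟩v` (`dvg = |v^T|²`, PRJ with the constant field `v`):
`∫|v^T|² = -∫⟨F,v⟩⟨HH,v⟩ = -∫⟨F,v⟩(Hs⟨ν,v⟩ - n⟨F,v⟩/ρ²) ≤ (n+1)δ² a(M)` (`|Hs|ρ ≤ nδ ..`, use `|Hs| ≤ nδ/ρ`:
`≤ 2nδ² a(M)`), and `|v^T|² = 1 - ⟨ν,v⟩² - ⟨f,v⟩²`: `∫(1 - ⟨ν,v⟩²) ≤ (2n+1)δ² a(M)`. For `v = e, e'`, add:
`∫(2 - ⟨ν,e⟩² - ⟨ν,e'⟩²) ≤ 2(2n+1)δ² a(M)`; pointwise `⟨ν,e⟩² + ⟨ν,e'⟩² ≤ 1 + |⟨e,e'⟩| ≤ 1 + 3δ/η`. So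
`1 - 3δ/η ≤ 2(2n+1)δ²`, impossible for small `δ` (`a(M) > 0`). -/
def StSUR : Prop := ∀ (n : ℕ), 1 ≤ n → ∀ η : ℝ, 0 < η → η ≤ 1 → ∃ δ : ℝ, 0 < δ ∧
    ∀ (M : Type) [TopologicalSpace M] [T2Space M]
    [CompactSpace M] [Nonempty M] [ChartedSpace (EE n) M] [IsManifold (𝓡 n) ∞ M]
    (J : Set ℝ) (F ν : M → ℝ → EE (n + 2)), HFl n J F ν → ∀ t ∈ J,
    (∀ x y, |(inner ℝ (F y t) (ν x t) : ℝ)| ≤ δ * Real.sqrt (rr n t)) →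
    (∀ x, ∀ c : Fin n → ℝ, gn F x t c = 1 → Real.sqrt (rr n t) * |hn F ν x t c| ≤ δ) →
    ∀ (x₀ : M) (p : EE (n + 2)), ‖p‖ = 1 → |(inner ℝ p (ν x₀ t) : ℝ)| ≤ δ →
    ∃ q, ‖(1 / Real.sqrt (rr n t)) • F q t - p‖ ≤ η

/-- GSF (hSUR : StSUR)(hLGM : StLGM)(hIFT : StIFT). The limit is a great sphere.

Proof. IFT, LGM: `G`, rates. Chords: `|⟨F y,ν x⟩| = |⟨F y - F x,ν x⟩| = |z||F y - F x|²/2 ≤ C rr^(α-1/2)·2 rr`, so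
`≤ δ(t)√rr` with `δ(t) = 2C rr^α → 0`; and `√rr|hn| ≤ C rr^α`. Fix `x₀`, `t_j → T`, `e_j = ν x₀ t_j`, a subsequence
converges to a unit vector `e`. `⟨F y/√rr, e_j⟩ → 0`: `⟨G y,e⟩ = 0`, `|G y| = 1`. Let `p ∈ e^⊥`, `|p| = 1`, `η > 0`: for
large `j` SUR gives `q_j` with `‖f_j q_j - p‖ ≤ η`, so the distance of `p` to the compact set `range G` is
`≤ η + C'rr^α`: `p ∈ range G`. So `range G = {p : |p| = 1, ⟨p,e⟩ = 0}`; `e^⊥` has dimension `n + 1`: a linear isometry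
`L : EE (n+1) → EE (n+2)` onto it (orthonormal basis). -/
def StGSF : Prop := ∀ (n : ℕ), 1 ≤ n → ∀ (M : Type) [TopologicalSpace M] [T2Space M]
    [CompactSpace M] [Nonempty M] [ChartedSpace (EE n) M] [IsManifold (𝓡 n) ∞ M]
    (T : ℝ) (F ν : M → ℝ → EE (n + 2)), HFl n (Ioo 0 T) F ν → 2 * n * T = 1 →
    ∀ (k t₁ : ℝ), 0 < k → k < 1 → t₁ ∈ Ioo 0 T →
    (∀ t ∈ Ico t₁ T, Function.Injective (fun q => F q t) ∧ PinK n k F ν t) →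
    ∃ (G : M → EE (n + 2)) (L : EE (n + 1) →ₗᵢ[ℝ] EE (n + 2)) (C α : ℝ), Continuous G ∧
      range G = L '' Metric.sphere (0 : EE (n + 1)) 1 ∧ 0 < C ∧ 0 < α ∧
      ∀ t ∈ Ico t₁ T, ∀ q, ‖(1 / Real.sqrt (rr n t)) • F q t - G q‖ ≤ C * rr n t ^ α ∧
        rr n t * h2N n F q t ≤ C * rr n t ^ (2 * α)

end Helper35.HSF
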