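import Mathlib
import Pool.Agent.Helper35.HSF.StD

/-!
Project HSF (MP_925021_gt), module statements, part E: finite time, type I, roundness (an `L^p` estimate).

Every module proves `theorem hX : StX` from the listed hypotheses (and any statements of PI, PI2, CL, MS, HSF).
COMPLETE proofs in the docstrings.  `ρ² = rr n t`, `H = Hs`, `θ = thN = |h|² - H²/n`, `e = eN = H²`.
-/

set_option autoImplicit false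

namespace Helper35.HSF

open Helper35.PI Helper35.PI2 Helper32.CL Helper35.MS
open scoped ContDiff Manifold Topology ENNReal BigOperators
open MeasureTheory Set Filter

/-- the situation of part C (StFCV) in finite time: convex, comparable curvatures, unbounded -/
structure FDat (n : ℕ) {M : Type} [TopologicalSpace M] [ChartedSpace (EE n) M] (T : ℝ)
    (F ν : M → ℝ → EE (n + 2)) (ts ε : ℝ) : Prop where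
  fl : HFl n (Ioo 0 T) F ν
  T1 : 2 * n * T < 1
  ts0 : ts ∈ Ioo 0 T
  ε0 : 0 < ε
  ε1 : ε < 1
  inj : ∀ t ∈ Ico ts T, Function.Injective (fun q => F q t)
  pos : ∀ t ∈ Ico ts T, ∀ x, ∀ z ∈ ZS n F ν x t, ε ≤ z
  cmp : ∀ t ∈ Ico ts T, ∀ x y, ∀ z ∈ ZS n F ν y t, ∀ c : Fin n → ℝ, gn F x t c = 1 →
    ε * hn F ν x t c ≤ z
  unb : ∀ C t₀ : ℝ, t₀ < T → ∃ t ∈ Ioo 0 T, t₀ < t ∧ ∃ q, C < AA (n := n) F q t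

/-- the tangential field `h°(∇H)` on `M_t` (`VF n 1 = 4∇|A|² - ∇|HH|² - 4 h(∇H)`) -/
noncomputable def Sd (n : ℕ) {N : ℕ} {M : Type} [TopologicalSpace M] [ChartedSpace (EE n) M]
    (F : M → ℝ → EE N) (t : ℝ) (q : M) : EE N :=
  (1 / 4 : ℝ) • (gdM n F t (fun q => 4 * AA (n := n) F q t - ‖HH (n := n) F q t‖ ^ 2) q
    - VF n 1 F t q)
    - (1 / (2 * n) : ℝ) • gdM n F t (fun q => ‖HH (n := n) F q t‖ ^ 2) q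

/-! ### Pointwise algebra -/

/-- ALK. Algebra of the second fundamental form `K` (symmetric) and its derivative `T` (totally symmetric).

Proof. `K° = K - (H/n)δ`, `θ = |K°|²`; `gθ_k = 2Σ_ij K°_ij T_ijk` (`Σ_iT_iik = τ_k`), `S_k = Σ_l K°_kl τ_l`;
`T°_ijk = T_ijk - δ_ijτ_k/n` has `|T°|² = |T|² - |τ|²/n = G` and `gθ_k = 2Σ K°_ijT°_ijk`. (0) `θ, G ≥ 0`. (1)
Cauchy-Schwarz. (2) Cauchy-Schwarz: `Σ_k(Σ_lK°_klτ_l)² ≤ |K°|²|τ|²`. (3) Eigenvalues `κ_i` of `K`: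
`H tr K³ - |K|⁴ = Σ_{i<j} κ_iκ_j(κ_i-κ_j)² ≥ ε²H² Σ_{i<j}(κ_i-κ_j)² = ε²H² nθ` (`κ_i ≥ εH > 0`; `nΣκ² - H² = Σ_{i<j}(κ_i-κ_j)²`).
(4) `E_ikl = τ_iK_kl - HT_ikl`: `|E|²/H² = |T|² - 2Στ_iT_iklK_kl/H + |τ|²|K|²/H² = G - Σgθ_kτ_k/H + θ|τ|²/H²`
(`Σ_klK_klT_kli = gθ_i/2 + Hτ_i/n`). The antisymmetric part `½(E_ikl - E_kil) = ½(τ_iK_kl - τ_kK_il)` gives
`|E|² ≥ ¼Σ(τ_iK_kl - τ_kK_il)² = ½(|τ|²|K|² - |Kτ|²)`, and `|τ|²|K|² - |Kτ|² ≥ ε²H²|τ|²`: in an orthonormal eigenbasis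
`Σ_ij τ_i²κ_j² - Σκ_i²τ_i² = Σ_i τ_i² Σ_{j≠i}κ_j² ≥ |τ|²(n-1)ε²H²`, `n ≥ 2`. -/
def StALK : Prop := ∀ (n : ℕ), 2 ≤ n → ∀ (K : Fin n → Fin n → ℝ)
    (T : Fin n → Fin n → Fin n → ℝ) (ε H θ G : ℝ) (τ gθ S : Fin n → ℝ), SymS K → Sym3S T →
    H = ∑ i, K i i → θ = (∑ i, ∑ j, K i j ^ 2) - H ^ 2 / n → τ = (fun k => ∑ i, T i i k) →
    G = (∑ i, ∑ j, ∑ k, T i j k ^ 2) - (∑ k, τ k ^ 2) / n →
    gθ = (fun k => 2 * (∑ i, ∑ j, K i j * T i j k) - 2 * H * τ k / n) →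
    S = (fun k => (∑ l, K k l * τ l) - H * τ k / n) →
    0 ≤ θ ∧ 0 ≤ G ∧ ∑ k, gθ k ^ 2 ≤ 4 * θ * G ∧ ∑ k, S k ^ 2 ≤ θ * ∑ k, τ k ^ 2 ∧
    (0 < H → 0 ≤ ε → (∀ v : Fin n → ℝ, ε * H * (∑ i, v i ^ 2) ≤ ∑ i, ∑ j, K i j * (v i * v j)) →
      n * ε ^ 2 * (H ^ 2 * θ)
        ≤ H * (∑ i, ∑ j, ∑ k, K i j * K j k * K k i) - (∑ i, ∑ j, K i j ^ 2) ^ 2 ∧
      ε ^ 2 / 2 * (∑ k, τ k ^ 2)
        ≤ G - (∑ k, gθ k * τ k) / H + θ * (∑ k, τ k ^ 2) / H ^ 2)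

/-- ALQ. Algebraic invariants of `A_ij = K_ij ν - δ_ij x/ρ²`.

Proof. `⟨A_ij,A_kl⟩ = K_ijK_kl + rδ_ijδ_kl`, `r = 1/ρ²`; `Hv = Hν - n r x`, `zz_ij = HK_ij + nrδ_ij`. Expand the
definitions `XX, YY, ZZ, Sq, AAH` (`Helper35/PI/Alg.lean`, `Alg2.lean`, `Helper35/PI2/Defs.lean`). In `Sq` the last two
sums are equal: both are `|K²|² + 2r|K|² + nr²`. -/
def StALQ : Prop := ∀ (n N : ℕ) (K : Fin n → Fin n → ℝ) (ν x : EE N) (r H : ℝ)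
    (A : Fin n → Fin n → EE N), SymS K → ‖ν‖ = 1 → (inner ℝ ν x : ℝ) = 0 → 0 < r →
    ‖x‖ ^ 2 = 1 / r → A = (fun i j => K i j • ν - (if i = j then r else 0) • x) →
    H = ∑ i, K i i →
    XX A = (∑ i, ∑ j, K i j ^ 2) + n * r ∧ Hv A = H • ν - (n * r) • x ∧
    YY A = H ^ 2 + n ^ 2 * r ∧
    ZZ A = H ^ 2 * (∑ i, ∑ j, K i j ^ 2) + 2 * n * H ^ 2 * r + n ^ 3 * r ^ 2 ∧
    Sq A = (∑ i, ∑ j, K i j ^ 2) ^ 2 + 2 * H ^ 2 * r + n ^ 2 * r ^ 2 ∧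
    AAH A = H * (∑ i, ∑ j, ∑ k, K i j * K j k * K k i) + n * r * (∑ i, ∑ j, K i j ^ 2)
      + H ^ 2 * r + n ^ 2 * r ^ 2

/-- PKN (hALK : StALK)(hALQ : StALQ)(hGCH : StGCH)(hNUJ : StNUJ)(hEVF : StEVF)(hG1)(hG7)(hG8)(hGV)(hIB)(hMAJ)(hSMR)
(hSMF)(hHTR)(hC1)(hFR). The pointwise package.

Proof. Graph chart `L, u, θ'` (GCH) at `(q,t)`, `A = jgg u`, `T^ = jggg u = T ν` (NUJ: `T_ijk = ⟨T^_ijk,ν⟩`, `K`). With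
GCH (transfer) and G7, G8: `gdM AA = Σ gX A T^ k • L e_k`, `gdM |HH|² = Σ gY k • L e_k`, `htN AA = hX A T^`,
`htN |HH|² = hY A T^`; by GV and IB (`VF n 1 F t q = vfd 1 (grf) 0`, invariance, MAJ)
`VF n 1 F t q = Σ vk 1 A T^ k • L e_k` and `∂_t(2AA - |HH|²) = dvg (VF n 1) + 4hX - hY + 4eq2 - 4AAH`. So
`Sd = Σ_k (Σ_l⟨A_kl,et_l⟩ - gY/(2n)) L e_k = Σ_k S_k L e_k` (S of ALK), `gdM thN = Σ gθ_k L e_k`,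
`gdM Hs = Στ_k L e_k` (`∇|HH|² = 2H∇H`, or directly). `htN thN = hX - hY/n = -2(tq - eq2/n) + 2(Sq - ZZ/n) =
-2G + 2h2N thN` (ALQ). `dvg Sd = ¼(4ΔAA - Δ|HH|² - dvg VF) - Δ|HH|²/(2n)`, and with
`dvg VF = ∂_t(2AA-|HH|²) - 4hX + hY - 4eq2 + 4AAH = 2ΔAA - Δ|HH|² - 2hX - 4eq2 + 4AAH`:
`dvg Sd = ½ΔthN + ½hX + eq2 - AAH = ½ΔthN - |T|² + |τ|² + Sq - AAH`, `|T|² = G + |τ|²/n`,
`Sq - AAH = -Z`, `Z = H tr K³ - |K|⁴ + (n/rr)θ` (ALQ). The inequalities: ALK (`K(v,v) ≥ ε H|v|²` from the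
hypothesis on `hn`: `GCh.fs` at the centre). `L` is an isometry. Regularity: MAJ, SMR. -/
def StPKN : Prop := ∀ (n : ℕ), 2 ≤ n → ∀ (M : Type) [TopologicalSpace M] [ChartedSpace (EE n) M]
    [IsManifold (𝓡 n) ∞ M] (J : Set ℝ) (F ν : M → ℝ → EE (n + 2)), HFl n J F ν →
    (∀ t ∈ J, ContMDiff (𝓡 n) 𝓘(ℝ, EE (n + 2)) 1 (Sd n F t) ∧
      (∀ q, (inner ℝ (HH (n := n) F q t) (Sd n F t q) : ℝ) = 0)) ∧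
    ∀ (q : M) (t : ℝ), t ∈ J → ∃ G Z : ℝ, 0 ≤ G ∧
      htN n F (thN n F) q t = -2 * G + 2 * h2N n F q t * thN n F q t ∧
      dvg (n := n) F (Sd n F t) q t = 1 / 2 * lapN n F (thN n F) q t
        + (1 - 1 / (n : ℝ)) * ‖gdM n F t (fun q => Hs n F ν q t) q‖ ^ 2 - G - Z ∧
      ‖Sd n F t q‖ ^ 2 ≤ thN n F q t * ‖gdM n F t (fun q => Hs n F ν q t) q‖ ^ 2 ∧
      ‖gdM n F t (fun q => thN n F q t) q‖ ^ 2 ≤ 4 * thN n F q t * G ∧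
      ∀ ε : ℝ, 0 ≤ ε → 0 < Hs n F ν q t →
        (∀ c : Fin n → ℝ, gn F q t c = 1 → ε * Hs n F ν q t ≤ hn F ν q t c) →
        n * ε ^ 2 * (eN n F q t * thN n F q t) ≤ Z ∧
        ε ^ 2 / 2 * ‖gdM n F t (fun q => Hs n F ν q t) q‖ ^ 2
          ≤ G - inner ℝ (gdM n F t (fun q => thN n F q t) q)
              (gdM n F t (fun q => Hs n F ν q t) q) / Hs n F ν q t
            + thN n F q t * ‖gdM n F t (fun q => Hs n F ν q t) q‖ ^ 2 / eN n F q t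

/-- EAL. The algebraic inequality behind the `L^p` estimate.

Proof. If `θ = 0` then `a = 0`, `s = 0` and the left side is `0`. Let `θ > 0`, `b = (2/H)d`, `y = a/θ - b`, `D = |d|²`,
`|b|² = 4D/e`, `X² = G - ⟨a,d⟩/H + θD/e ≥ ½ε²D`. With `a = θ(b+y)` and `G = X² + ½θ⟨b+y,b⟩ - ¼θ|b|²` in the first
term, the left side divided by `θ` is `-2pX² - θ[p(p-1)|y|² + (2n-1)p⟨y,b⟩ + (n²-n/2)|b|²] + μ((1-1/n)D - G)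
+ μ⟨(n-1)b + (p-1)y, s - ½θ(b+y)⟩ + θ[2nθ + 2e - e + (4mn - n²)r] - μZ` (coefficients: `|b|²`:
`-(p+m)² + (p+m)/2`; `⟨y,b⟩`: `-p - 2p(p-1) - 2pm`; reaction: `2(p+m)(θ+e/n) = 2nθ + 2e`). Now `m < 0`, `r ≥ 0`,
`θ ≤ e`: the last two terms are `≤ θe(2n + 1 - μnε²)`. `θ|b|² ≤ 4D`, `|s| ≤ √θ√D`. (i) `(2n-1)pθ|⟨y,b⟩| ≤ ¼p²θ|y|² +
4(2n-1)²D`; (ii) `μ(1-1/n)D ≤ μD`, `-μG ≤ 0`; (iii) `μ(n-1)⟨b,s⟩ ≤ 2μ(n-1)D`; (iv)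
`-½μ(n-1)θ⟨b,b+y⟩ ≤ ½μ(n-1)θ|b||y| ≤ 2μ(n-1)D + ½μ(n-1)θ|y|²`; (v) `μ(p-1)⟨y,s⟩ ≤ (1/8)p²θ|y|² + 2μ²D`; (vi)
`-½μ(p-1)θ⟨y,b+y⟩ ≤ (1/16)p²θ|y|² + 4μ²D`. Coefficient of `θ|y|²`: `-p² + p + (7/16)p² + ½μ(n-1) ≤ 0`; of `D`:
`-pε² + 4(2n-1)² + μ(4n-3) + 6μ² ≤ 0`, of `θe`: `2n+1-μnε² ≤ 0`, all for `μ = ε√p/4` and `p` large. -/
def StEAL : Prop := ∀ (n : ℕ) (ε : ℝ), 2 ≤ n → 0 < ε → ε ≤ 1 → ∃ (p : ℕ) (μ : ℝ), n < p ∧ 3 ≤ p ∧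
    0 < μ ∧ ∀ (V : Type) [NormedAddCommGroup V] [InnerProductSpace ℝ V] (a d s : V)
      (θ e H G Z r m : ℝ), 0 ≤ r → 0 ≤ θ → 0 < H → e = H ^ 2 → θ ≤ e → 0 ≤ G → m = n - p →
      ε ^ 2 / 2 * ‖d‖ ^ 2 ≤ G - inner ℝ a d / H + θ * ‖d‖ ^ 2 / e → ‖s‖ ^ 2 ≤ θ * ‖d‖ ^ 2 →
      ‖a‖ ^ 2 ≤ 4 * θ * G → n * ε ^ 2 * (e * θ) ≤ Z →
      p * θ * (-2 * G + 2 * (θ + e / n) * θ) - p * (p - 1) * ‖a‖ ^ 2
        + θ ^ 2 * m * (2 * (θ + e / n) + 4 * n * r) - θ ^ 2 * (4 * m ^ 2 - 2 * m) * ‖d‖ ^ 2 / e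
        - 4 * p * m * θ * inner ℝ a d / H - (e + n ^ 2 * r) * θ ^ 2
        + μ * θ * ((1 - 1 / (n : ℝ)) * ‖d‖ ^ 2 - G - Z)
        + μ * inner ℝ (((p : ℝ) - 1) • a + (2 * m * θ / H) • d) (s - (1 / 2 : ℝ) • a) ≤ 0

/-! ### Type I -/

/-- FBS (hHNB : StHNB)(hEVF : StEVF)(hCPZ : StCPZ). Consequences of `FDat`.

Proof. `hn ≥ ε` for all unit `c` (`hn ∈ ZS`), so `Hs ≥ nε > 0` (HNB). `cmp` with `z = hn y c'`: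
`ε hn x c ≤ hn y c'`. Hence (`Hs x ≤ n hn x c` for some `c`, HNB): `ε Hs x/n ≤ hn y c'` and `εHs x ≤ Hs y`. `K ≥ 0`:
`h2N = Σκ_i² ≤ (Σκ_i)² = eN` (all `κ_i ≥ 0`; or `h2N ≤ n max κ²`..: use that `K` has nonnegative eigenvalues with sum
`Hs`, e.g. `κ_max ≤ Hs - (n-1)·0`: from `HNB`-type linear algebra in a graph chart). Chords: `F y ≠ F x` gives
`z ≥ εHs/n` (`cmp`), so `|F y - F x| ≤ 2/z`-type bound: `2⟨F y-F x,ν⟩/|F y-F x|² ≥ q₀` gives `|F y - F x| ≤ 2/q₀`. -/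
def StFBS : Prop := ∀ (n : ℕ), 1 ≤ n → ∀ (M : Type) [TopologicalSpace M] [ChartedSpace (EE n) M]
    [IsManifold (𝓡 n) ∞ M] (T : ℝ) (F ν : M → ℝ → EE (n + 2)) (ts ε : ℝ),
    FDat n T F ν ts ε → ∀ t ∈ Ico ts T, ∀ x y : M,
    n * ε ≤ Hs n F ν x t ∧ ε * Hs n F ν x t ≤ Hs n F ν y t ∧
    (∀ c : Fin n → ℝ, gn F y t c = 1 → ε / n * Hs n F ν x t ≤ hn F ν y t c) ∧
    (F y t ≠ F x t → ε / n * Hs n F ν x t ≤ zch F ν x y t) ∧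
    ‖F y t - F x t‖ * Hs n F ν x t ≤ 2 * n / ε ∧
    0 ≤ thN n F x t ∧ thN n F x t ≤ h2N n F x t ∧ h2N n F x t ≤ eN n F x t ∧
    h2N n F x t = thN n F x t + eN n F x t / n

/-- TYI (hFBS : StFBS)(hFZP : StFZP)(hEVF : StEVF)(hHTR : StHTR)(hHNB : StHNB)(hI4J). Type I.

Proof. `htN Hs = (h2N + 2n/rr)Hs`, `h2N ≥ Hs²/n`. Upper bound: let `t₀ ∈ [ts,T)`, `m = min Hs(·,t₀) > 0` and suppose
`m² > n/(2(T-t₀))`. Choose `η ∈ (0,1)` with `y₀ = (1-η)m`, `(1-η)y₀² > n/(2(T-t₀))`. `y(t) = (y₀⁻² -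
(2(1-η)/n)(t-t₀))^(-1/2)` solves `y' = (1-η)y³/n` and blows up at `tb = t₀ + n/(2(1-η)y₀²) < T`. FZP on `[t₀,t₂]`,
`t₂ < tb`, for `u = y - Hs` (`y` is smooth near `[t₀,t₂]`: use a smaller open set of times, or extend `y`): where
`u = 0`, `htN u = (1-η)Hs³/n - (h2N+2n/rr)Hs < 0`. So `Hs > y` on `[t₀,tb)`, unbounded; but `Hs` is bounded on the
compact `M × [t₀,tb]`: contradiction. So `min Hs² ≤ n/(2(T-t))`, and `Hs² ≤ n/(2ε²(T-t))` everywhere (FBS). Lower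
bound: `h2N ≤ Hs²`, `rr ≥ r₀ = 1 - 2nT > 0`, `Hs ≥ nε`: `htN Hs ≤ BHs³`, `B = 1 + 2n/(r₀n²ε²)`. If `max Hs(·,t₀)² <
1/(2B'(T-t₀))` with some `B' > B`, let `y₀` be slightly larger than the maximum, `y = (y₀⁻² - 2B'(t-t₀))^(-1/2)`, bounded
on `[t₀,T]`; FZP for `u = Hs - y`: where `u = 0`, `htN u ≤ BHs³ - B'Hs³ < 0`. So `Hs < y` is bounded on `[t₀,T)` and
`AA = h2N + n/rr` is bounded near `T`: contradiction to `unb`. So `max Hs² ≥ 1/(2B'(T-t₀))` for all `B' > B`;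
FBS. -/
def StTYI : Prop := ∀ (n : ℕ), 1 ≤ n → ∀ (M : Type) [TopologicalSpace M] [T2Space M]
    [CompactSpace M] [Nonempty M] [ChartedSpace (EE n) M]
    [IsManifold (𝓡 n) ∞ M] (T : ℝ) (F ν : M → ℝ → EE (n + 2)) (ts ε : ℝ),
    FDat n T F ν ts ε → ∃ C : ℝ, 1 ≤ C ∧ ∀ t ∈ Ico ts T, ∀ q,
      1 ≤ C * ((T - t) * eN n F q t) ∧ (T - t) * eN n F q t ≤ C

/-! ### The `L^p` estimate -/

/-- EPW (hSMR)(hHTR : StHTR). Real powers of a positive function.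

Proof. `x ↦ x^m` is smooth on `x > 0`; in charts `ContMDiffOn` composition (`u > 0` on `M × J`). For the formulas at
`(q,t)`: near the point `u ≥ c > 0`; let `ψ` be a smooth function on `ℝ` equal to `x^m` near `u q t` and use HTR (the
derivatives of `gdM`, `dvg` only depend on germs), or repeat the proof of HTR. -/
def StEPW : Prop := ∀ (n N : ℕ) (M : Type) [TopologicalSpace M] [ChartedSpace (EE n) M]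
    [IsManifold (𝓡 n) ∞ M] (J : Set ℝ) (F : M → ℝ → EE N), IsImmJ (n := n) J F →
    ∀ (u : M → ℝ → ℝ) (m : ℝ), SmJ n J u → (∀ q, ∀ t ∈ J, 0 < u q t) →
    SmJ n J (fun q t => u q t ^ m) ∧ ∀ q, ∀ t ∈ J,
      gdM n F t (fun q => u q t ^ m) q
        = (m * u q t ^ (m - 1)) • gdM n F t (fun q => u q t) q ∧
      htN n F (fun q t => u q t ^ m) q t = m * u q t ^ (m - 1) * htN n F u q t
        - m * (m - 1) * u q t ^ (m - 2) * ‖gdM n F t (fun q => u q t) q‖ ^ 2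

/-- EPH (hEAL : StEAL)(hPKN : StPKN)(hFBS : StFBS)(hEPW : StEPW)(hHTR : StHTR)(hEVF : StEVF)(hTDJ : StTDJ)(hFVJ : StFVJ)
(hPRJ : StPRJ)(hMUJ)(hSMR : StSMR)(hSMF). The integral `∫ θ^p e^(n-p)` is bounded.

Proof. On the open set of times `J' = (ts,T)` (restrict the flow) `e = eN = Hs² > 0`. `ε₁ = ε/n`; EAL with `ε₁`: `p, μ`;
`m = n - p`. `Φ = θ^p e^m` (`θ = thN`), `w = θ^(p-1) e^m`, `V = ∇Φ - μ w (Sd - ½∇θ)` (`C¹`, `⟨HH,V⟩ = 0`: SMR, PKN).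
Claim: `∂_tΦ - |HH|²Φ ≤ dvg V`, i.e. `E := htN Φ - |HH|²Φ + μ dvg(w(Sd - ½∇θ)) ≤ 0`. By HTR, EPW, with `a = ∇θ`,
`d = ∇Hs`, `∇e = 2Hs d`, `htN e = 2Hs htN Hs - 2|d|² = 2(h2N + 2nr)e - 2|d|²` (`r = 1/rr`),
`htN θ = -2G + 2h2Nθ`, `h2N = θ + e/n`, `|HH|² = e + n²r`:
`htN Φ = e^m(pθ^(p-1)htN θ - p(p-1)θ^(p-2)|a|²) + θ^p(m e^(m-1)htN e - 4m(m-1)e^(m-1)|d|²) - 4pmθ^(p-1)e^(m-1)Hs⟨a,d⟩`,
`dvg(w X) = w dvg X + ⟨∇w,X⟩` (PRJ), `X = Sd - ½a`, `dvg X = (1-1/n)|d|² - G - Z` (PKN; `lapN θ = dvg ∇θ`),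
`∇w = (p-1)θ^(p-2)e^m a + 2mθ^(p-1)e^(m-1)Hs d`. So `E = θ^(p-2) e^m · (left side of EAL) ≤ 0` (`p ≥ 3`,
`s = Sd`; the hypotheses of EAL are PKN with `ε₁` and FBS). TDJ and FVJ: the derivative of `t ↦ ∫Φ dμ_t` is
`∫(∂_tΦ - |HH|²Φ) ≤ ∫ dvg V = ∫(dvg V + ⟨HH,V⟩) = 0`. So the integral is nonincreasing on `(ts,T)`, bounded on
`[ts',T)`; near `ts` it is bounded by continuity (TDJ on `(0,T)` fails only if `e = 0`; restrict to `t ≥ ts' > ts`,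
this is the statement). -/
def StEPH : Prop := ∀ (n : ℕ), 2 ≤ n → ∀ (M : Type) [TopologicalSpace M] [T2Space M]
    [CompactSpace M] [MeasurableSpace M] [BorelSpace M] [ChartedSpace (EE n) M]
    [IsManifold (𝓡 n) ∞ M] (T : ℝ) (F ν : M → ℝ → EE (n + 2)) (ts ε : ℝ) (c : ℕ → M)
    (χ : ℕ → M → ℝ), PU n c χ → FDat n T F ν ts ε →
    ∃ p : ℕ, n < p ∧ 3 ≤ p ∧ ∀ ts' ∈ Ioo ts T, ∃ C : ℝ, ∀ t ∈ Ico ts' T,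
      ∫ q, thN n F q t ^ p * eN n F q t ^ ((n : ℝ) - p) ∂muM n F c χ t ≤ C

/-- THD (hEPH : StEPH)(hTYI : StTYI)(hMVN : StMVN)(hFBS : StFBS)(hPKN : StPKN)(hHTR : StHTR)(hMUJ)(hV5)(hSMF). Decay of
`θ`.

Proof. `M` with its Borel sets and a partition of unity. `p` from EPH, `C₀` from TYI. `u = θ^p`:
`htN u = pθ^(p-1)htN θ - p(p-1)θ^(p-2)|∇θ|² ≤ 2p h2N θ^p ≤ 2p e u ≤ (2pC₀/(T-t))u` (HTR with `ψ(x) = x^p`, PKN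
`G ≥ 0`, FBS). Let `t₀ ∈ (ts',T)` be near `T`, `s = T-t₀`, `t₁ = t₀ - s/2 > ts'` (`s` small); on `[t₁,t₀]`,
`T-t ∈ [s,3s/2]`, `κ = 2pC₀/s`. MVC: `θ(q,t₀)^p ≤ Cn e^{κs/2}(s/2)^(-n/2) ∫θ^p dμ_{t₁}`, and
`θ^p = (θ^p e^(n-p)) e^(p-n) ≤ (θ^pe^(n-p)) (C₀/s)^(p-n)` (`e ≤ C₀/(T-t₁) ≤ C₀/s`, `p > n`). So
`θ^p ≤ C s^(-n/2-(p-n)) = C s^(n/2-p)`, `θ ≤ C' s^(n/(2p)-1)`, `α = n/(2p)`. For `t` in the remaining compact interval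
`[ts,..]` the bound holds with a larger constant (`θ ≤ e ≤ C₀/(T-t)`). -/
def StTHD : Prop := ∀ (n : ℕ), 2 ≤ n → ∀ (M : Type) [TopologicalSpace M] [T2Space M]
    [CompactSpace M] [Nonempty M] [ChartedSpace (EE n) M]
    [IsManifold (𝓡 n) ∞ M] (T : ℝ) (F ν : M → ℝ → EE (n + 2)) (ts ε : ℝ),
    FDat n T F ν ts ε → ∃ C α : ℝ, 0 < C ∧ 0 < α ∧ α < 1 ∧ ∀ t ∈ Ico ts T, ∀ q,
      thN n F q t ≤ C * (T - t) ^ (α - 1)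

end Helper35.HSF
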