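import Mathlib
import Pool.Agent.Helper35.HSF.StE

/-!
Project HSF (MP_925021_gt), module statements, part F: finite time, the mean curvature becomes constant
(a Lyapunov function of isoperimetric type, centred at the limit point).

Every module proves `theorem hX : StX` from the listed hypotheses (and any statements of PI, PI2, CL, MS, HSF).
COMPLETE proofs in the docstrings.  `ρ² = rr n t`, `H = Hs`, `θ = thN = |h|² - H²/n`, `s = T - t`,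
`μ = muM n F c χ t`.
-/

set_option autoImplicit false

namespace Helper35.HSF

open Helper35.PI Helper35.PI2 Helper32.CL Helper35.MS
open scoped ContDiff Manifold Topology ENNReal BigOperators
open MeasureTheory Set Filter

section DefsF

variable {M : Type} [TopologicalSpace M] [MeasurableSpace M]

/-- area -/
noncomputable def arN (n : ℕ) {N : ℕ} [ChartedSpace (EE n) M] (F : M → ℝ → EE N) (c : ℕ → M)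
    (χ : ℕ → M → ℝ) (t : ℝ) : ℝ := (muM n F c χ t).real univ

/-- average of `H` -/
noncomputable def hbN (n : ℕ) {N : ℕ} [ChartedSpace (EE n) M] (F ν : M → ℝ → EE N) (c : ℕ → M)
    (χ : ℕ → M → ℝ) (t : ℝ) : ℝ := (∫ q, Hs n F ν q t ∂muM n F c χ t) / arN n F c χ t

/-- variance of `H` -/
noncomputable def vrN (n : ℕ) {N : ℕ} [ChartedSpace (EE n) M] (F ν : M → ℝ → EE N) (c : ℕ → M)
    (χ : ℕ → M → ℝ) (t : ℝ) : ℝ :=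
  (∫ q, (Hs n F ν q t - hbN n F ν c χ t) ^ 2 ∂muM n F c χ t) / arN n F c χ t

/-- `∫ ⟨ν,b⟩` -/
noncomputable def wiN (n : ℕ) {N : ℕ} [ChartedSpace (EE n) M] (F ν : M → ℝ → EE N) (c : ℕ → M)
    (χ : ℕ → M → ℝ) (b : EE N) (t : ℝ) : ℝ := ∫ q, (inner ℝ (ν q t) b : ℝ) ∂muM n F c χ t

/-- the Lyapunov function `(n+1) log (area) - n log ∫⟨ν,b⟩` -/
noncomputable def lyN (n : ℕ) {N : ℕ} [ChartedSpace (EE n) M] (F ν : M → ℝ → EE N) (c : ℕ → M)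
    (χ : ℕ → M → ℝ) (b : EE N) (t : ℝ) : ℝ :=
  (n + 1) * Real.log (arN n F c χ t) - n * Real.log (wiN n F ν c χ b t)

end DefsF

/-- `FDat` together with the bounds of part E and the limit point `x` -/
structure FDx (n : ℕ) {M : Type} [TopologicalSpace M] [ChartedSpace (EE n) M] (T : ℝ)
    (F ν : M → ℝ → EE (n + 2)) (ts ε : ℝ) (x : EE (n + 2)) (C α : ℝ) : Prop where
  d : FDat n T F ν ts ε
  C1 : 1 ≤ C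
  α0 : 0 < α
  α1 : α < 1
  x2 : ‖x‖ ^ 2 = rr n T
  lo : ∀ t ∈ Ico ts T, ∀ q, 1 ≤ C * ((T - t) * eN n F q t)
  up : ∀ t ∈ Ico ts T, ∀ q, (T - t) * eN n F q t ≤ C
  th : ∀ t ∈ Ico ts T, ∀ q, thN n F q t ≤ C * (T - t) ^ (α - 1)
  li : ∀ t ∈ Ico ts T, ∀ q, ‖F q t - x‖ ≤ C * Real.sqrt (T - t)
  nx : ∀ t ∈ Ico ts T, ∀ q, 0 ≤ (inner ℝ (ν q t) x : ℝ)
  px : ∀ t ∈ Ico ts T, ∀ q, rr n T / 2 ≤ (inner ℝ (F q t) x : ℝ)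

/-- FLM (hTYI : StTYI)(hTHD : StTHD)(hFBS : StFBS)(hFZP : StFZP)(hEVF : StEVF)(hHTR : StHTR)(hI4J)(hSMF). The limit
point.

Proof. `C₀` from TYI, `C₁, α` from THD; `T < 1/(2n) ≤ 1/4`, `R = rr n T > 0`. `∂_tF = HH`, `‖HH‖² = eN + n²/rr ≤ C₀/s +
n²/R ≤ C₂²/s` (`s ≤ 1`), so `‖F(q,t') - F(q,t)‖ ≤ 2C₂√s` for `t ≤ t' < T` (compare with `-2C₂√(T-t)`): `F(q,·)`
converges, `F(q,t) → X q`, `‖F(q,t) - X q‖ ≤ 2C₂√s`. FBS (last but few): `‖F y t - F x t‖ ≤ (2n/ε)/Hs ≤ C₃√s`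
(`Hs² = eN ≥ 1/(C₀s)`, `Hs > 0`), so `X` is constant, `X q = x`. `‖x‖² = lim rr n t = R`. `nx`: fix `q`, `t₁ ∈ [ts,T)`,
`a = ν q t₁`. For all `y`: `⟨F y t₁, a⟩ = ⟨F y t₁ - F q t₁, a⟩ ≥ 0` (`0` if `F y t₁ = F q t₁`, else `zch > 0` by
`FDat.pos`). FZP on `[t₁,t₂]`, `t₂ < T`, for `u = -⟨F,a⟩ - η - η(t-t₁)`, `η > 0`: `u(·,t₁) < 0`, `htN u = -η < 0` (EVF,
HTR). So `⟨F y t,a⟩ ≥ -η(1+T)` for `t ∈ [t₁,T)`, all `η`: `⟨F y t,a⟩ ≥ 0`, and in the limit `⟨x,a⟩ ≥ 0`. `px`: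
`2⟨F,x⟩ = rr n t + R - ‖F-x‖² ≥ 2R - (2C₂)²s ≥ R` if `s ≤ R/(4C₂²)`: choose `ts'` near `T`. `C` = the maximum of all
constants and `1` (`lo`: `(T-t)eN ≥ 0`). `FDat` at `ts' ≥ ts` follows from `FDat` at `ts`. -/
def StFLM : Prop := ∀ (n : ℕ), 2 ≤ n → ∀ (M : Type) [TopologicalSpace M] [T2Space M]
    [CompactSpace M] [Nonempty M] [ChartedSpace (EE n) M]
    [IsManifold (𝓡 n) ∞ M] (T : ℝ) (F ν : M → ℝ → EE (n + 2)) (ts ε : ℝ),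
    FDat n T F ν ts ε → ∃ (ts' : ℝ) (x : EE (n + 2)) (C α : ℝ), ts' ∈ Ico ts T ∧
      FDx n T F ν ts' ε x C α

/-- FII (hEVF : StEVF)(hFVJ : StFVJ)(hTDJ : StTDJ)(hARE : StARE)(hPRJ : StPRJ)(hSMR : StSMR)(hSMF)(hMUJ). Integral
identities.

Proof. Fixed `t`, `w = ⟨ν,b⟩`, `u = ⟨F,b⟩`, `r = 1/rr n t`, `HH = Hν - n r F` (EVF). (1) FVJ for the constant field `b`
(`dvg b = 0`): `0 = ∫⟨HH,b⟩ = ∫Hw - nr∫u`. (2) FVJ for `X = H•b`: `dvg X = ⟨gdM H,b⟩` (PRJ), so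
`∫⟨gdM H,b⟩ = -∫H⟨HH,b⟩ = -∫H²w + nr∫Hu`. (3) FVJ for `X = gdM w` (smooth, `⟨HH,X⟩ = 0`, SMR): `∫lapN w = 0`, so
`∫∂_tw = ∫htN w = ∫h2N w - 2r∫Hu` (EVF); and `∂_tw = -⟨gdM H,b⟩ - rHu` (EVF): `∫∂_tw = ∫H²w - nr∫Hu - r∫Hu`. Equate:
`∫(H² - h2N)w = (n-1)r∫Hu`. (4) TDJ for `w` (`CSTJ` by SMR): derivative of `wiN`:
`∫(∂_tw - ‖HH‖²w) = ∫H²w - (n+1)r∫Hu - ∫(H² + n²r)w`. (5) ARE. -/
def StFII : Prop := ∀ (n : ℕ), 1 ≤ n → ∀ (M : Type) [TopologicalSpace M] [T2Space M]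
    [CompactSpace M] [Nonempty M] [MeasurableSpace M] [BorelSpace M] [ChartedSpace (EE n) M]
    [IsManifold (𝓡 n) ∞ M] (J : Set ℝ) (F ν : M → ℝ → EE (n + 2)) (c : ℕ → M)
    (χ : ℕ → M → ℝ), HFl n J F ν → PU n c χ → ∀ t ∈ J, ∀ b : EE (n + 2),
    ∫ q, Hs n F ν q t * (inner ℝ (ν q t) b : ℝ) ∂muM n F c χ t
      = n / rr n t * ∫ q, (inner ℝ (F q t) b : ℝ) ∂muM n F c χ t ∧
    ∫ q, (Hs n F ν q t ^ 2 - h2N n F q t) * (inner ℝ (ν q t) b : ℝ) ∂muM n F c χ t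
      = (n - 1) / rr n t * ∫ q, Hs n F ν q t * (inner ℝ (F q t) b : ℝ) ∂muM n F c χ t ∧
    HasDerivAt (wiN n F ν c χ b)
      (-((n + 1) / rr n t * ∫ q, Hs n F ν q t * (inner ℝ (F q t) b : ℝ) ∂muM n F c χ t)
        - n ^ 2 / rr n t * wiN n F ν c χ b t) t ∧
    HasDerivAt (arN n F c χ)
      (-(∫ q, Hs n F ν q t ^ 2 ∂muM n F c χ t) - n ^ 2 / rr n t * arN n F c χ t) t ∧
    0 < arN n F c χ t

/-- FLD (hFII : StFII)(hFBS : StFBS)(hEVF : StEVF)(hMUJ : StMUJ)(hSMF)(hSMR). The Lyapunov function decreases.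

Proof. `b = x`, `R = rr n T`, `r = 1/rr n t`, `s = T-t ≤ 1`, `a = arN`, `W = wiN`, `w = ⟨ν,x⟩ ≥ 0`, `u = ⟨F,x⟩`:
`2u = rr n t + R - ‖F-x‖²` and `rr n t = R + 2ns`, so `|u - R| ≤ K₁s`; `u ≥ R/2`. `0 < H ≤ √(C/s)`, `H ≥ 1/√(Cs)`,
`h2N = θ + H²/n`. `N₀ = ∫Hw = nr∫u ≥ nrRa/2 > 0`, so `W > 0` (`N₀ ≤ sup H·W`), and `W ≤ √(Cs)N₀`.
`N₁ = nr∫Hu ≥ 0`; FII (2): `N₁ = ∫H²w - (n/(n-1))∫θw` (`H² - h2N = ((n-1)/n)H² - θ`). `h̄ = hbN`: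
`N₁/N₀ = ∫Hu/∫u = h̄ + ∫(H-h̄)(u-R)/∫u ≤ h̄ + 2 sup H·K₁s·a/(Ra/2) ≤ h̄ + K₂√s`, `h̄ ≤ √(C/s)`, so
`(N₁/N₀)² ≤ h̄² + K₃`. Cauchy-Schwarz `N₀² ≤ W∫H²w`:
`N₁/W ≤ N₁∫H²w/N₀² = (N₁/N₀)² + (N₁/N₀)(n/(n-1))∫θw/N₀`, and `∫θw ≤ (sup θ)W ≤ Cs^(α-1)√(Cs)N₀`,
`N₁/N₀ ≤ sup H ≤ √(C/s)`: `N₁/W ≤ h̄² + K₃ + K₄s^(α-1)`. The derivative (FII (4), (5)):
`L' = (n+1)a'/a - nW'/W = -(n+1)(∫H²)/a + (n+1)N₁/W - n²r ≤ -(n+1)((∫H²)/a - h̄²) + K₅s^(α-1)` (`s^(α-1) ≥ 1`), and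
`vrN = (∫H²)/a - h̄²`. -/
def StFLD : Prop := ∀ (n : ℕ), 2 ≤ n → ∀ (M : Type) [TopologicalSpace M] [T2Space M]
    [CompactSpace M] [Nonempty M] [MeasurableSpace M] [BorelSpace M] [ChartedSpace (EE n) M]
    [IsManifold (𝓡 n) ∞ M] (T : ℝ) (F ν : M → ℝ → EE (n + 2)) (ts ε : ℝ) (x : EE (n + 2))
    (C α : ℝ) (c : ℕ → M) (χ : ℕ → M → ℝ), FDx n T F ν ts ε x C α → PU n c χ →
    ∃ K : ℝ, 0 < K ∧ ∀ t ∈ Ico ts T, 0 < wiN n F ν c χ x t ∧ 0 < arN n F c χ t ∧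
      0 ≤ vrN n F ν c χ t ∧ ∃ D : ℝ, HasDerivAt (lyN n F ν c χ x) D t ∧
        D ≤ -((n + 1) * vrN n F ν c χ t) + K * (T - t) ^ (α - 1)

/-- FAB (hFLD : StFLD)(hMVN : StMVN)(hFII : StFII)(hHTR)(hMUJ). Area bounds, the Lyapunov function is bounded below.

Proof. MVC (from MVN) with `u = 1` (`κ = 0`, `t₁ = t`, `t₀ = t + s/2`, any `p`): `1 ≤ Cn (s/2)^(-n/2) a(t)`, so
`a ≥ c₁s^(n/2)`. `w = ⟨ν,x⟩ = ⟨ν,x-F⟩ ≤ C√s`: `0 < W ≤ C√s a`. So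
`L ≥ (n+1)log a - n log(C√s a) = log a - (n/2)log s - n log C ≥ log c₁ - n log C`. FLD: `L + (K/α)(T-t)^α` is
nonincreasing on `[ts,T)`, so `L ≤ K'` and `(n+1)log a ≤ n log W + K' ≤ n log(C√s a) + K'`, i.e.
`log a ≤ (n/2)log s + K''`. -/
def StFAB : Prop := ∀ (n : ℕ), 2 ≤ n → ∀ (M : Type) [TopologicalSpace M] [T2Space M]
    [CompactSpace M] [Nonempty M] [MeasurableSpace M] [BorelSpace M] [ChartedSpace (EE n) M]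
    [IsManifold (𝓡 n) ∞ M] (T : ℝ) (F ν : M → ℝ → EE (n + 2)) (ts ε : ℝ) (x : EE (n + 2))
    (C α : ℝ) (c : ℕ → M) (χ : ℕ → M → ℝ), FDx n T F ν ts ε x C α → PU n c χ →
    ∃ K : ℝ, 0 < K ∧ ∀ t ∈ Ico ts T,
      (T - t) ^ ((n : ℝ) / 2) ≤ K * arN n F c χ t ∧
      arN n F c χ t ≤ K * (T - t) ^ ((n : ℝ) / 2) ∧ -K ≤ lyN n F ν c χ x t

/-- FGT (hFLD : StFLD)(hFAB : StFAB). Good times.

Proof. `Q = lyN + (K/α)(T-t)^α` has derivative `≤ -(n+1)vrN ≤ 0` on `[ts,T)` and is bounded below: it converges as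
`t → T`. For `t` near `T`, `s = T-t`, the interval `[t-2δs,t-δs]` lies in `[ts,T)`, and by the mean value theorem there
is `t'` in it with `(n+1)vrN(t')δs ≤ Q(t-2δs) - Q(t-δs)`, which tends to `0` as `t → T` (`t - 2δs ≥ t - s/2`; both times
tend to `T`): `s vrN(t') ≤ (Q(t-2δs) - Q(t-δs))/((n+1)δ) ≤ η`. -/
def StFGT : Prop := ∀ (n : ℕ), 2 ≤ n → ∀ (M : Type) [TopologicalSpace M] [T2Space M]
    [CompactSpace M] [Nonempty M] [MeasurableSpace M] [BorelSpace M] [ChartedSpace (EE n) M]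
    [IsManifold (𝓡 n) ∞ M] (T : ℝ) (F ν : M → ℝ → EE (n + 2)) (ts ε : ℝ) (x : EE (n + 2))
    (C α : ℝ) (c : ℕ → M) (χ : ℕ → M → ℝ), FDx n T F ν ts ε x C α → PU n c χ →
    ∀ δ η : ℝ, 0 < δ → δ ≤ 1 / 4 → 0 < η → ∃ t₂ ∈ Ico ts T, ∀ t ∈ Ico t₂ T,
      ∃ t' ∈ Icc (t - 2 * δ * (T - t)) (t - δ * (T - t)), ts ≤ t' ∧
        (T - t) * vrN n F ν c χ t' ≤ η

/-- FOS (hFGT : StFGT)(hFAB : StFAB)(hFLD : StFLD)(hMVN : StMVN)(hPPN : StPPN)(hEVF : StEVF)(hFBS : StFBS)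
(hHTR : StHTR)(hMUJ)(hV5). The oscillation of `H`.

Proof. `M` with its Borel sets and a partition of unity (V5, PU). `Cn` from MVN. `H ≤ √(C/s)`, `H ≥ 1/√(Cs)`,
`htN H = (h2N + 2n/rr)H ≤ K₁s^(-3/2)` at times in `[t-s/2,t]` (`T-t' ∈ [s,3s/2]`, `h2N ≤ eN ≤ C/s`), `htN H ≥ 0`.
Let `δ ≤ 1/4`, `t'` from FGT, `l = hbN t'`. PPN on `[t',t]` for `H`, `b = K₁s^(-3/2)`, `l`, and for `-H`, `b = 0`, `-l`
(`t - t' ∈ [δs,2δs]`): for every `p`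
`|H(p,t) - l| ≤ 2δK₁s^(-1/2) + Cn(δs)^(-n/2)∫|H - l| dμ_{t'}`, and
`∫|H-l| ≤ √(a)√(∫(H-l)²) = a√(vrN t') ≤ K₂s^(n/2)√(η/s)` (FAB, `T - t' ≤ 3s/2`). So
`√s|H(p,t) - l| ≤ 2K₁δ + K₃δ^(-n/2)√η`. Given `η₀ > 0` choose `δ`, then `η`, such that the right side is
`≤ η₀/(2√C)`; then for all `p, q`: `H(p,t) - H(q,t) ≤ η₀/(√C√s) ≤ η₀H(q,t)`. -/
def StFOS : Prop := ∀ (n : ℕ), 2 ≤ n → ∀ (M : Type) [TopologicalSpace M] [T2Space M]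
    [CompactSpace M] [Nonempty M] [ChartedSpace (EE n) M]
    [IsManifold (𝓡 n) ∞ M] (T : ℝ) (F ν : M → ℝ → EE (n + 2)) (ts ε : ℝ) (x : EE (n + 2))
    (C α : ℝ), FDx n T F ν ts ε x C α →
    ∀ η : ℝ, 0 < η → ∃ t₂ ∈ Ico ts T, ∀ t ∈ Ico t₂ T, ∀ p q,
      Hs n F ν p t ≤ (1 + η) * Hs n F ν q t

/-- FHC (hFOS : StFOS)(hFZP : StFZP)(hEVF : StEVF)(hFBS : StFBS)(hHTR : StHTR)(hHNB)(hI4J). The constant.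

Proof. `h2N = θ + H²/n`, `htN H = (h2N + 2n/rr)H ≥ H³/n`. (1) As in TYI (`Helper8/HSF/M_TYI.lean`):
`min_M H(·,t)² ≤ n/(2(T-t))` for all `t ∈ [ts,T)` (otherwise comparison with the solution of `y' = (1-η)y³/n` gives
`H → ∞` before `T`). With FOS: `H(p,t)² ≤ (1+η)²n/(2s)` for `t ≥ t₂`. (2) `θ + 2n/rr ≤ Cs^(α-1) + 2n/rr ≤ (η/n)H²` for
`t` near `T` (`H² ≥ 1/(Cs)`): `htN H ≤ (1+η)H³/n`. Suppose `max_M H(·,t₀)² < n/(2(1+2η)(T-t₀))`, let `y₀` be slightly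
larger than the maximum, `y = (y₀⁻² - (2(1+2η)/n)(t-t₀))^(-1/2)`, smooth and bounded near `[t₀,T]`; FZP for `u = H - y`:
where `u = 0`, `htN u ≤ (1+η)H³/n - (1+2η)H³/n < 0`. So `H < y` is bounded on `[t₀,T)`, against `H² ≥ 1/(Cs)`. So
`max H² ≥ n/(2(1+2η)s)` and with FOS `H(q,t)² ≥ n/(2(1+2η)(1+η)²s)`. Together `|s H² - n/2|` is small. -/
def StFHC : Prop := ∀ (n : ℕ), 2 ≤ n → ∀ (M : Type) [TopologicalSpace M] [T2Space M]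
    [CompactSpace M] [Nonempty M] [ChartedSpace (EE n) M]
    [IsManifold (𝓡 n) ∞ M] (T : ℝ) (F ν : M → ℝ → EE (n + 2)) (ts ε : ℝ) (x : EE (n + 2))
    (C α : ℝ), FDx n T F ν ts ε x C α →
    ∀ η : ℝ, 0 < η → ∃ t₂ ∈ Ico ts T, ∀ t ∈ Ico t₂ T, ∀ q,
      |(T - t) * Hs n F ν q t ^ 2 - n / 2| ≤ η

end Helper35.HSF
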