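import Mathlib
import Pool.Agent.Helper35.HSF.StF

/-!
Project HSF (MP_925021_gt), module statements, part G: finite time, convergence to a round point; infinite time, the
limit map is injective.

Every module proves `theorem hX : StX` from the listed hypotheses (and any statements of PI, PI2, CL, MS, HSF).
COMPLETE proofs in the docstrings.  `s = T - t`, `σ = √(2ns)`: radius of the round sphere which shrinks to a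
point at the time `T`.
-/

set_option autoImplicit false

namespace Helper35.HSF

open Helper35.PI Helper35.PI2 Helper32.CL Helper35.MS
open scoped ContDiff Manifold Topology ENNReal BigOperators
open MeasureTheory Set Filter

/-- SHP (hFHC : StFHC)(hHNB : StHNB)(hEVF : StEVF)(hFBS : StFBS). All principal curvatures.

Proof. `H > 0` (FBS). FHC: `(2s/n)H² → 1` uniformly, i.e. `σH/n → 1` (`(σH/n)² = 2ns H²/n²`). HNB: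
`|hn - H/n| ≤ √θ`, `σ√θ ≤ √(2ns·Cs^(α-1)) = √(2nC) s^(α/2) → 0` (`FDx.th`). -/
def StSHP : Prop := ∀ (n : ℕ), 2 ≤ n → ∀ (M : Type) [TopologicalSpace M] [T2Space M]
    [CompactSpace M] [Nonempty M] [ChartedSpace (EE n) M]
    [IsManifold (𝓡 n) ∞ M] (T : ℝ) (F ν : M → ℝ → EE (n + 2)) (ts ε : ℝ) (x : EE (n + 2))
    (C α : ℝ), FDx n T F ν ts ε x C α →
    ∀ η : ℝ, 0 < η → ∃ t₂ ∈ Ico ts T, ∀ t ∈ Ico t₂ T, ∀ q, ∀ c : Fin n → ℝ, gn F q t c = 1 →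
      |Real.sqrt (2 * n * (T - t)) * hn F ν q t c - 1| ≤ η

/-- BAL (hSHP : StSHP)(hBLI : StBLI)(hBLC : StBLC)(hHHY : StHHY). Touching balls (Blaschke).

Proof. SHP with `η/2`. `ρ = √(rr n t)`, `Hyp n ρ t F ν` (HHY). BLI, `τ = ρ(1+η)/σ`:
`-(1/τ) < 0 < ρ hn ≤ ρ(1+η/2)/σ < τ`, so `2ρ⟨F y - F z,ν z⟩ ≤ τ‖F y - F z‖²`. BLC, `κ₀ = (1-η)/σ < hn`, `F(·,t)` injective
and `⟨F y - F z,ν z⟩ > 0` if `F y ≠ F z` (`FDat.inj`, `FDat.pos`: `zch > 0`). -/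
def StBAL : Prop := ∀ (n : ℕ), 2 ≤ n → ∀ (M : Type) [TopologicalSpace M] [T2Space M]
    [CompactSpace M] [ConnectedSpace M] [ChartedSpace (EE n) M]
    [IsManifold (𝓡 n) ∞ M] (T : ℝ) (F ν : M → ℝ → EE (n + 2)) (ts ε : ℝ) (x : EE (n + 2))
    (C α : ℝ), FDx n T F ν ts ε x C α →
    ∀ η : ℝ, 0 < η → η ≤ 1 / 2 → ∃ t₂ ∈ Ico ts T, ∀ t ∈ Ico t₂ T, ∀ y z,
      (1 - η) * ‖F y t - F z t‖ ^ 2
        ≤ 2 * Real.sqrt (2 * n * (T - t)) * (inner ℝ (F y t - F z t) (ν z t) : ℝ) ∧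
      2 * Real.sqrt (2 * n * (T - t)) * (inner ℝ (F y t - F z t) (ν z t) : ℝ)
        ≤ (1 + η) * ‖F y t - F z t‖ ^ 2

/-- RPT (hBAL : StBAL)(hFZP : StFZP)(hEVF : StEVF)(hHTR : StHTR)(hSMF). The hypersurfaces are round.

Proof. BAL with `η' ≤ 1/2`. Let `t ∈ [t₂,T)`, `z ∈ M`, `p = F z t + σν z t`. `(1-η')‖Δ‖² ≤ 2σ‖Δ‖` for
`Δ = F y t - F z t`, so `‖Δ‖ ≤ 4σ`. `‖F y t - p‖² = ‖Δ‖² - 2σ⟨Δ,ν z⟩ + σ² ≤ η'‖Δ‖² + σ² ≤ (1+16η')σ²` for all `y`. FZP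
(`htN ‖F-p‖² = -2n`, EVF) on `[t,t']`, `t' < T`, for `u = ‖F-p‖² + 2n(τ-t) - (1+16η')σ² - ω(1+τ-t)`, `ω > 0`:
`u(·,t) < 0`, `htN u = -ω < 0`. So for all `ω`: `‖F(y,t') - p‖² + 2n(t'-t) ≤ (1+16η')σ²`, and `t' → T` (`FDx.li`):
`‖x-p‖² + 2n(T-t) ≤ (1+16η')σ²`, i.e. `‖x-p‖² ≤ 16η'σ²`. Choose `4√η' ≤ η`. Second inequality: triangle inequality
with `‖σν z‖ = σ`. -/
def StRPT : Prop := ∀ (n : ℕ), 2 ≤ n → ∀ (M : Type) [TopologicalSpace M] [T2Space M]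
    [CompactSpace M] [ConnectedSpace M] [ChartedSpace (EE n) M]
    [IsManifold (𝓡 n) ∞ M] (T : ℝ) (F ν : M → ℝ → EE (n + 2)) (ts ε : ℝ) (x : EE (n + 2))
    (C α : ℝ), FDx n T F ν ts ε x C α →
    ∀ η : ℝ, 0 < η → ∃ t₂ ∈ Ico ts T, ∀ t ∈ Ico t₂ T, ∀ z,
      ‖F z t + Real.sqrt (2 * n * (T - t)) • ν z t - x‖ ≤ η * Real.sqrt (2 * n * (T - t)) ∧
      |‖F z t - x‖ - Real.sqrt (2 * n * (T - t))| ≤ η * Real.sqrt (2 * n * (T - t))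

/-- SRJ (hRPT : StRPT)(hBAL : StBAL)(hEVF)(hSMR)(hPRJ)(hNR). Hausdorff convergence to the unit sphere of `x^⊥`.

Proof. `R = rr n T = ‖x‖² > 0`. `2⟨F-x,x⟩ = rr n t - R - ‖F-x‖² = 2ns - ‖F-x‖²`, so `|⟨F-x,x⟩| ≤ K₁s ≤ K₂√s·σ`
(`FDx.li`). (1) `v = (F-x)/σ`: `|‖v‖ - 1|` and `⟨v,x⟩` are small; `v' = v - (⟨v,x⟩/R)x ∈ x^⊥`, `p = v'/‖v'‖`. (2) Let
`p ⟂ x`, `‖p‖ = 1`, `q` a maximum point of `⟨F,p⟩` on the compact `M`. `gdM ⟨F,p⟩ = 0` at `q` (a maximum), so by EVF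
(last statement with `c = p`): `p = bν q + (a/rr n t)F q`, `b = ⟨ν q,p⟩`, `a = ⟨F q,p⟩ = ⟨F q - x,p⟩`, `|a| ≤ C√s`, and
`b² + a²/rr = 1`. Let `y` with `F y ≠ F q` (`F(·,t)` is injective and `M` has another point: `n ≥ 1`, the chart target
is open; or `M` compact). `0 ≥ ⟨F y - F q,p⟩ = b⟨F y - F q,ν q⟩ - (a/rr)‖F y - F q‖²/2`. If `b ≥ 0`, BAL with
`η = 1/2` (`⟨F y - F q,ν q⟩ ≥ ‖F y - F q‖²/(4σ)`) gives `b/(4σ) ≤ |a|/(2rr)`, so `b` is small (`≤ 2σC√s/R`), against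
`b² = 1 - a²/rr`. So `b < 0`, `b` is near `-1`, `‖ν q + p‖² = 2 + 2b` is small; RPT:
`‖F q - x - σp‖ ≤ ‖F q + σν q - x‖ + σ‖ν q + p‖`. -/
def StSRJ : Prop := ∀ (n : ℕ), 2 ≤ n → ∀ (M : Type) [TopologicalSpace M] [T2Space M]
    [CompactSpace M] [ConnectedSpace M] [ChartedSpace (EE n) M]
    [IsManifold (𝓡 n) ∞ M] (T : ℝ) (F ν : M → ℝ → EE (n + 2)) (ts ε : ℝ) (x : EE (n + 2))
    (C α : ℝ), FDx n T F ν ts ε x C α →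
    ∀ η : ℝ, 0 < η → ∃ t₂ ∈ Ico ts T, ∀ t ∈ Ico t₂ T,
      (∀ z, ∃ p : EE (n + 2), (inner ℝ p x : ℝ) = 0 ∧ ‖p‖ = 1 ∧
        ‖F z t - x - Real.sqrt (2 * n * (T - t)) • p‖ ≤ η * Real.sqrt (2 * n * (T - t))) ∧
      ∀ p : EE (n + 2), (inner ℝ p x : ℝ) = 0 → ‖p‖ = 1 → ∃ z,
        ‖F z t - x - Real.sqrt (2 * n * (T - t)) • p‖ ≤ η * Real.sqrt (2 * n * (T - t))

/-- FFT (hFCV : StFCV)(hNEG : StNEG)(hFLM : StFLM)(hSHP : StSHP)(hRPT : StRPT)(hSRJ : StSRJ). Finite time, in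
`ℝ^(n+2)`.

Proof. FCV: `ν' = ±ν`, `ts`, `ε`; `HFl` for `ν'` (NEG); `FDat n T F ν' ts ε` (`inj` from the hypothesis, `unb` as
given). FLM: `ts'`, `x`, `C`, `α`, `FDx`. SHP, RPT, SRJ for `ν'`, the largest of the times `t₂`; `hn F ν' = ±hn F ν`
(NEG) and `σ hn F ν' > 0` if `η < 1`: for `η ≤ 1/2`, `|σ|hn F ν| - 1| = |σ hn F ν' - 1| ≤ η` (for larger `η` use
`min η (1/2)`). -/
def StFFT : Prop := ∀ (n : ℕ), 2 ≤ n → ∀ (M : Type) [TopologicalSpace M] [T2Space M]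
    [CompactSpace M] [ConnectedSpace M] [ChartedSpace (EE n) M] [IsManifold (𝓡 n) ∞ M]
    (T : ℝ) (F ν : M → ℝ → EE (n + 2)), HFl n (Ioo 0 T) F ν → 2 * n * T < 1 →
    ∀ k t₁ : ℝ, 0 < k → k < 1 → t₁ ∈ Ioo 0 T →
    (∀ t ∈ Ico t₁ T, Function.Injective (fun q => F q t) ∧ PinK n k F ν t) →
    (∀ C t₀ : ℝ, t₀ < T → ∃ t ∈ Ioo 0 T, t₀ < t ∧ ∃ q, C < AA (n := n) F q t) →
    ∃ x : EE (n + 2), ‖x‖ ^ 2 = rr n T ∧ ∀ η : ℝ, 0 < η → ∃ t₂ ∈ Ico t₁ T, ∀ t ∈ Ico t₂ T,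
      ∀ σ : ℝ, σ = Real.sqrt (2 * n * (T - t)) →
      (∀ q, |‖F q t - x‖ - σ| ≤ η * σ ∧
        (∀ c : Fin n → ℝ, gn F q t c = 1 → |σ * |hn F ν q t c| - 1| ≤ η) ∧
        ∃ p : EE (n + 2), (inner ℝ p x : ℝ) = 0 ∧ ‖p‖ = 1 ∧ ‖F q t - x - σ • p‖ ≤ η * σ) ∧
      ∀ p : EE (n + 2), (inner ℝ p x : ℝ) = 0 → ‖p‖ = 1 → ∃ q, ‖F q t - x - σ • p‖ ≤ η * σ

/-- GIJ (hEVF : StEVF)(hHNB : StHNB). Infinite time: the limit map is injective.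

Proof. `f = F/√rr`, `∂_tf = (Hs/√rr)ν` (as in LGM, `Helper89/HSF/M_LGM.lean`). Let `y ≠ x`,
`D(t) = ‖f y - f x‖² > 0` on `[t₁,T)`. `D' = (2/√rr)(Hs(y)⟨f y - f x,ν y⟩ - Hs(x)⟨f y - f x,ν x⟩)`, and
`⟨F y - F x,ν x⟩ = z‖F y - F x‖²/2` with `z = zch F ν x y t ∈ ZS x`, so `|⟨f y - f x,ν x⟩| = |z|√rr D/2`; the same at
`y`. `|Hs| ≤ n sup|z| ≤ nC rr^(α-1/2)` (HNB, for `ν` and `-ν`: `n·lo ≤ Hs`, or `Hs² ≤ n h2N ≤ n²hi²`). So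
`|D'| ≤ 2nC² rr^(2α-1) D`, `(log D)' ≥ -2nC² rr^(2α-1) = (C²/(2α))·(rr^(2α))'` (`rr' = -2n`), so
`log D(t) ≥ log D(t₁) + (C²/(2α))(rr(t)^(2α) - rr(t₁)^(2α)) ≥ log D(t₁) - C²/(2α)` (`rr ≤ 1`). As `t → T`:
`‖G y - G x‖² ≥ D(t₁)exp(-C²/(2α)) > 0`. -/
def StGIJ : Prop := ∀ (n : ℕ), 1 ≤ n → ∀ (M : Type) [TopologicalSpace M]
    [ChartedSpace (EE n) M] [IsManifold (𝓡 n) ∞ M]
    (T : ℝ) (F ν : M → ℝ → EE (n + 2)), HFl n (Ioo 0 T) F ν → 2 * n * T = 1 →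
    ∀ (C α t₁ : ℝ), 0 < C → 0 < α → t₁ ∈ Ioo 0 T →
    (∀ t ∈ Ico t₁ T, ∀ x, ∀ z ∈ ZS n F ν x t, |z| ≤ C * rr n t ^ (α - 1 / 2)) →
    (∀ t ∈ Ico t₁ T, Function.Injective (fun q => F q t)) →
    ∀ (G : M → EE (n + 2)) (C' β : ℝ), 0 < β → (∀ t ∈ Ico t₁ T, ∀ q,
      ‖(1 / Real.sqrt (rr n t)) • F q t - G q‖ ≤ C' * rr n t ^ β) → Function.Injective G

end Helper35.HSF
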