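import Mathlib
import Pool.Agent.Helper35.HSF.StG

/-!
Project HSF (MP_925021_gt), module statements, part H: from flows in the unit sphere `S^(n+1)` to flows in
`ℝ^(n+2)` (rescaling and change of time), unit normal, initial time, conclusion.

Every module proves `theorem hX : StX` from the listed hypotheses (and any statements of PI, PI2, CL, MS, HSF).
COMPLETE proofs in the docstrings.  `rr n τ = 1 - 2nτ = e^(-2nt)`, `τ = sgN n t`, `t = tmN n τ`,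
`FEN n F q τ = √(rr n τ) F(q,t)`.  The definitions `SMCF, gM, hM, HS, hS2` are in `Helper35/MS/Flow.lean`.
-/

set_option autoImplicit false

namespace Helper35.HSF

open Helper35.PI Helper35.PI2 Helper32.CL Helper35.MS
open scoped ContDiff Manifold Topology ENNReal BigOperators
open MeasureTheory Set Filter

section DefsH

/-- change of time, sphere to `ℝ^(n+2)` -/
noncomputable def sgN (n : ℕ) (t : ℝ) : ℝ := (1 - Real.exp (-(2 * n * t))) / (2 * n)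
/-- change of time, `ℝ^(n+2)` to sphere -/
noncomputable def tmN (n : ℕ) (τ : ℝ) : ℝ := -(Real.log (rr n τ) / (2 * n))
/-- times in the sphere which correspond to `[0,TE)` -/
def ISN (n : ℕ) (TE : ℝ) : Set ℝ := {t : ℝ | 0 ≤ t ∧ sgN n t < TE}

variable {N : ℕ} {M : Type}

/-- the rescaled flow -/
noncomputable def FEN (n : ℕ) (F : M → ℝ → EE N) (q : M) (τ : ℝ) : EE N :=
  Real.sqrt (rr n τ) • F q (tmN n τ)
/-- its unit normal -/
noncomputable def nuN (n : ℕ) (ν : M → ℝ → EE N) (q : M) (τ : ℝ) : EE N := ν q (tmN n τ)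

end DefsH

/-- smooth unit normal of `M_t` in the sphere, for all times in `I` -/
structure UNI (n : ℕ) {M : Type} [TopologicalSpace M] [ChartedSpace (EE n) M] (I : Set ℝ)
    (F ν : M → ℝ → EE (n + 2)) : Prop where
  sν : ContMDiffOn ((𝓡 n).prod 𝓘(ℝ, ℝ)) 𝓘(ℝ, EE (n + 2)) ∞
    (fun z : M × ℝ => ν z.1 z.2) (univ ×ˢ I)
  nν : ∀ q, ∀ t ∈ I, ‖ν q t‖ = 1
  Fν : ∀ q, ∀ t ∈ I, (inner ℝ (F q t) (ν q t) : ℝ) = 0
  tν : ∀ q, ∀ t ∈ I, ∀ v ∈ TS (n := n) F q t, (inner ℝ v (ν q t) : ℝ) = 0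

/-- continuous unit normal at the time `0` -/
structure UN0 (n : ℕ) {M : Type} [TopologicalSpace M] [ChartedSpace (EE n) M]
    (F : M → ℝ → EE (n + 2)) (ν₀ : M → EE (n + 2)) : Prop where
  ct : Continuous ν₀
  nν : ∀ q, ‖ν₀ q‖ = 1
  Fν : ∀ q, (inner ℝ (F q 0) (ν₀ q) : ℝ) = 0
  tν : ∀ (q : M) (i : Fin n),
    (inner ℝ (dv1 (loc (n := n) F q 0) (chartAt (EE n) q q) i) (ν₀ q) : ℝ) = 0

/-- `|h(u,u)| < 1` for all unit tangent vectors `u` at the time `0` -/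
def Pin1 (n : ℕ) {N : ℕ} {M : Type} [TopologicalSpace M] [ChartedSpace (EE n) M]
    (F : M → ℝ → EE N) : Prop :=
  ∀ (q : M) (u : Fin n → ℝ), ∑ i, ∑ j, gM (n := n) F q 0 i j * (u i * u j) = 1 →
    ‖∑ i, ∑ j, (u i * u j) • hM (n := n) F q 0 i j‖ ^ 2 < 1

/-- HSN (hFR : StFR)(hNR : StNR)(hI2J : StI2J). Immersed submanifold of the unit sphere, all dimensions. As
`Helper2/MS/M_HSQ.lean` (`n = 2`).

Proof. In the preferred chart `f = loc F q t`, `⟨f,f⟩ = 1` near the point, so `⟨f,f_i⟩ = 0`,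
`⟨f,f_ij⟩ = -g_ij`, `⟨f, A_ij⟩ = -g_ij` (`f` is normal, NR). `Σ G_ij g_ij = n`: `HS = HH + nF`, `⟨HH,F⟩ = -n`.
`hS2 = AA + 2Σ G_ik G_jl g_ij ⟨F, A_kl⟩ + Σ G_ik G_jl g_ij g_kl = AA - 2n + n`. With an orthonormal frame (FR):
`h_ab`, `HS = Σh_aa`, `hS2 = Σ|h_ab|² ≥ |HS|²/n`. -/
def StHSN : Prop := ∀ (n N : ℕ), 1 ≤ n → ∀ (M : Type) [TopologicalSpace M]
    [ChartedSpace (EE n) M] [IsManifold (𝓡 n) ∞ M] (J : Set ℝ) (F : M → ℝ → EE N),
    IsImmJ (n := n) J F → ∀ t ∈ J, (∀ q, ‖F q t‖ = 1) → ∀ q : M,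
    HS (n := n) F q t = HH (n := n) F q t + (n : ℝ) • F q t ∧
    (inner ℝ (HH (n := n) F q t) (F q t) : ℝ) = -n ∧
    ‖HS (n := n) F q t‖ ^ 2 = ‖HH (n := n) F q t‖ ^ 2 - n ^ 2 ∧
    hS2 (n := n) F q t = AA (n := n) F q t - n ∧ 0 ≤ hS2 (n := n) F q t ∧
    ‖HS (n := n) F q t‖ ^ 2 ≤ n * hS2 (n := n) F q t

/-- CTN (hI3J : StI3J)(hI2J : StI2J)(hFR : StFR). Frozen families, and continuity up to the initial time, all
dimensions. As `Helper78/MS/M_CT0.lean` (`n = 2`).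

Proof. First part: definitions (`loc` of the frozen family at time `s` is `loc F p t`). Second part: in the
chart at `p₀`, `S = target ×ˢ I` is a set of unique differentiability and `f(y,s) = F (symm y) s` is
`ContDiffOn ∞` on `S`. For `(y,s) ∈ S`: `dv1 (f(·,s)) y i = fderivWithin ℝ f S (y,s) (ee i,0)` (compose with
`y ↦ (y,s)`, `target` is open), and `dv2 (f(·,s)) y i j` is the same for the function
`z ↦ fderivWithin ℝ f S z (ee j,0)`; all are continuous on `S`. So `gram`, its inverse (`det ≠ 0`: LI at the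
preferred chart and I3J for the frozen family give LI in every chart), `sff`, `mcv`, `nsq` are
continuous on `S`, and `HH F q s = mcv (loc F p₀ s) (chart p₀ q)` etc. by I3J for the frozen family. -/
def StCTN : Prop := ∀ (n N : ℕ) (M : Type) [TopologicalSpace M] [ChartedSpace (EE n) M]
    [IsManifold (𝓡 n) ∞ M] (I : Set ℝ) (F : M → ℝ → EE N), SMCF n I F →
    (∀ t ∈ I, IsImmJ (n := n) univ (fun q (_ : ℝ) => F q t) ∧
      ∀ q s, HH (n := n) (fun q (_ : ℝ) => F q t) q s = HH (n := n) F q t ∧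
        AA (n := n) (fun q (_ : ℝ) => F q t) q s = AA (n := n) F q t ∧
        HS (n := n) (fun q (_ : ℝ) => F q t) q s = HS (n := n) F q t ∧
        hS2 (n := n) (fun q (_ : ℝ) => F q t) q s = hS2 (n := n) F q t) ∧
    (UniqueDiffOn ℝ I → CSTJ I F ∧ CSTJ I (HH (n := n) F) ∧ CSTJ I (AA (n := n) F))

/-- HMN (hFR)(hNR)(hCTN : StCTN)(hI2J). The second fundamental form of a hypersurface of the sphere.

Proof. Frozen family (CTN), preferred chart at `q`, `f = loc F q t`. `gM` is the Gram matrix of `f_i`, so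
`Σ g_ij u_iu_j = ‖Σu_if_i‖² = gn`. `hM i j = A_ij + g_ij F`, `⟨A_ij,F⟩ = -g_ij` (as in HSN), so `hM i j ⟂ F`, and
`hM i j ⟂ TS` (`A_ij` is normal, `F ⟂ TS`). `TS`, `F`, `ν` span `ℝ^(n+2)` (dimensions `n`, `1`, `1`, orthogonal), so
`hM i j = ⟨hM i j,ν⟩ν = ⟨A_ij,ν⟩ν`. Sum. -/
def StHMN : Prop := ∀ (n : ℕ), 1 ≤ n → ∀ (M : Type) [TopologicalSpace M]
    [ChartedSpace (EE n) M] [IsManifold (𝓡 n) ∞ M] (I : Set ℝ) (F ν : M → ℝ → EE (n + 2)),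
    SMCF n I F → UNI n I F ν → ∀ q, ∀ t ∈ I, ∀ u : Fin n → ℝ,
    ∑ i, ∑ j, gM (n := n) F q t i j * (u i * u j) = gn F q t u ∧
    ∑ i, ∑ j, (u i * u j) • hM (n := n) F q t i j = hn F ν q t u • ν q t

/-- NUX (hCTN : StCTN)(hI3J)(hI2J). The unit normal for all times.

Proof. For `y` in the target of the chart at `p` and `t ∈ I` let `N_p(y,t)` be the normalised vector product of
the `n + 1` independent vectors `f = F (symm y) t, f_1,..,f_n` (`f_i = dv1 (loc F p t) y i`):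
`⟨v₀ × .. × v_n, w⟩ = det(v₀,..,v_n,w)` (coordinates: `det` with the last row a basis vector); it is nonzero as
`f ⟂ f_i ≠ 0` are independent. `(y,t) ↦ N_p(y,t)` is smooth on `target ×ˢ I` (`f` and `f_i` are: CTN's proof,
`UniqueDiffOn`). It is a unit vector orthogonal to `F` and `TS`, which is unique up to sign. Let
`ν q t = σ(q) N_q(chart_q q, t)`, `σ(q) = ±1` the sign with `ν q 0 = ν₀ q`. Smoothness near `(q₀,t₀)`: for `q` near
`q₀` (in the source of the chart at `q₀`, `y = chart_{q₀} q`) the chain rule gives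
`f^{(q)}_i = Σ_j J_ij(q) f^{(q₀)}_j`, so `N_q(chart_q q,t) = sign(det J(q)) N_{q₀}(y,t)` for all `t ∈ I`, and
`ν q t = ε(q) N_{q₀}(y,t)`, `ε(q) = σ(q) sign(det J(q)) = ⟨ν₀ q, N_{q₀}(y,0)⟩ = ±1` is continuous in `q`, hence locally
constant. -/
def StNUX : Prop := ∀ (n : ℕ), 1 ≤ n → ∀ (M : Type) [TopologicalSpace M]
    [ChartedSpace (EE n) M] [IsManifold (𝓡 n) ∞ M] (I : Set ℝ) (F : M → ℝ → EE (n + 2))
    (ν₀ : M → EE (n + 2)), UniqueDiffOn ℝ I → (0 : ℝ) ∈ I → SMCF n I F → UN0 n F ν₀ →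
    ∃ ν : M → ℝ → EE (n + 2), UNI n I F ν ∧ ∀ q, ν q 0 = ν₀ q

/-- PIH (hCTN : StCTN)(hI3J)(hI2J)(hFR)(hNR). The pinching for a short time.

Proof. Otherwise there are `t_j → 0` in `I`, `t_j ≥ 0`, points `q_j` and `c_j` with `gn = 1`, `|hn| ≥ 1 - 1/j`; `M` is
compact and first countable: `q_j → q` for a subsequence. In the chart at `q` the tangent vector
`Σc_j f_i` at `q_j` has coordinates `c'_j` (transition map, compare CPZ, `Helper14/HSF/M_CPZ.lean`),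
`Σ c'c' g_ik(y_j,t_j) = 1`, `|Σ c'c'⟨dv2 f,ν⟩| ≥ 1 - 1/j`; `g_ik`, `dv2`, `ν` are continuous on `target ×ˢ I` (CTN's
proof) and `g` is positive definite at the limit, so `c'_j` is bounded; a limit `c'` has `gn F q 0 c' = 1`,
`|hn F ν q 0 c'| ≥ 1` (`⟨dv2,ν⟩ = ⟨sff,ν⟩`). Contradiction. -/
def StPIH : Prop := ∀ (n : ℕ), 1 ≤ n → ∀ (M : Type) [TopologicalSpace M] [T2Space M]
    [CompactSpace M] [ChartedSpace (EE n) M] [IsManifold (𝓡 n) ∞ M] (I : Set ℝ)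
    (F ν : M → ℝ → EE (n + 2)), UniqueDiffOn ℝ I → (0 : ℝ) ∈ I → SMCF n I F → UNI n I F ν →
    (∀ q, ∀ c : Fin n → ℝ, gn F q 0 c = 1 → |hn F ν q 0 c| < 1) →
    ∃ τ δ : ℝ, 0 < τ ∧ τ < 1 ∧ 0 < δ ∧ ∀ t ∈ I, 0 ≤ t → t < δ → ∀ q, ∀ c : Fin n → ℝ,
      gn F q t c = 1 → |hn F ν q t c| < τ

/-- CNN (hSCL : StSCL)(hHSN : StHSN)(hCTN : StCTN). The rescaled flow. As `Helper72/MS/M_CNV.lean` (`n = 2`), with the
unit normal.

Proof. `sgN n` is increasing, `sgN n (tmN n τ) = τ`, `rr n (sgN n t) = e^(-2nt)` and `0 ≤ tmN n τ` for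
`0 ≤ τ < 1/(2n)`. `tmN n` is smooth with derivative `1/rr n τ` where `rr > 0`, maps `(0,TE)` into the interior of
`ISN n TE` (`{t > 0, sgN n t < TE}` is open), so `FEN n F`, `nuN n ν` are smooth on `M × (0,TE)`; immersion: SCL.
`r² = rr n τ`, `∂_τ(r F(q,tmN τ)) = -(n/r)F + r·r⁻²·HS = (1/r)(HS - nF) = (1/r) HH F = HH (FEN n F)` (HSN and CTN for
the frozen family, SCL). In a chart `loc (FEN n F) q τ = r • loc F q t`, so `dv1`, `dv2`, `sff` are multiplied by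
`r` (as in the proof of SCL), `tv = r tv`, `An = r An`; `TS` is the same. -/
def StCNN : Prop := ∀ (n : ℕ), 1 ≤ n → ∀ (M : Type) [TopologicalSpace M]
    [ChartedSpace (EE n) M] [IsManifold (𝓡 n) ∞ M] (F ν : M → ℝ → EE (n + 2)) (TE : ℝ),
    0 < TE → 2 * n * TE ≤ 1 → SMCF n (ISN n TE) F → UNI n (ISN n TE) F ν →
    HFl n (Ioo 0 TE) (FEN n F) (nuN n ν) ∧
    ∀ τ ∈ Ico 0 TE, tmN n τ ∈ ISN n TE ∧ sgN n (tmN n τ) = τ ∧ 0 < rr n τ ∧ ∀ q,
      AA (n := n) (FEN n F) q τ = AA (n := n) F q (tmN n τ) / rr n τ ∧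
      ∀ c : Fin n → ℝ, gn (FEN n F) q τ c = rr n τ * gn F q (tmN n τ) c ∧
        hn (FEN n F) (nuN n ν) q τ c = Real.sqrt (rr n τ) * hn F ν q (tmN n τ) c

/-- PNA (hCNN : StCNN)(hPIH : StPIH)(hPIZ : StPIZ)(hPRS : StPRS)(hBLI : StBLI)(hHHY)(hCTN). Injectivity for all times,
and the pinching.

Proof. `I = ISN n TE` (an interval `[0,b)` or `[0,∞)`, `UniqueDiffOn`). PIH: `τ₀, δ`. Let `τ ∈ (0,TE)`, `tmN τ < δ`,
`ρ = √(rr n τ)`: `gn (FEN) c = 1` means `gn F (ρc) = 1` (`gn` is quadratic), and `ρ hn (FEN) c = ρ² hn F c = hn F (ρc)`,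
so `|ρ hn (FEN) c| < τ₀`. PIZ (`Hyp` from HHY): `FEN` is injective at `τ`, `∃ k₀, PinK k₀` at `τ`. Fix such a
`t₁` (`tmN t₁ < δ`), its `k₀`; PRS on `[t₁,t₂]`, all `t₂ < TE`, `k = (1+k₀)/2`. So `FEN` is injective at all
`τ ∈ (0,TE)`. At the time `0`: `Hyp n 1 0 F ν` and BLI, second part, with `τ = 1`. For `t ∈ I`, `t > 0`:
`F q t = FEN q (sgN t)/√rr` (`tmN (sgN t) = t`). -/
def StPNA : Prop := ∀ (n : ℕ), 2 ≤ n → ∀ (M : Type) [TopologicalSpace M] [T2Space M]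
    [CompactSpace M] [ConnectedSpace M] [ChartedSpace (EE n) M] [IsManifold (𝓡 n) ∞ M]
    (F ν : M → ℝ → EE (n + 2)) (TE : ℝ), 0 < TE → 2 * n * TE ≤ 1 → SMCF n (ISN n TE) F →
    UNI n (ISN n TE) F ν → (∀ q, ∀ c : Fin n → ℝ, gn F q 0 c = 1 → |hn F ν q 0 c| < 1) →
    (∀ t ∈ ISN n TE, Function.Injective (fun q => F q t)) ∧
    ∃ k t₁ : ℝ, 0 < k ∧ k < 1 ∧ t₁ ∈ Ioo 0 TE ∧ ∀ τ ∈ Ico t₁ TE,
      Function.Injective (fun q => FEN n F q τ) ∧ PinK n k (FEN n F) (nuN n ν) τ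

/-- HFI (hPNA : StPNA)(hFFT : StFFT)(hCNN : StCNN)(hHMN : StHMN)(hHSN : StHSN)(hCTN : StCTN)(hNUX : StNUX). Finite time,
in the sphere.

Proof. `TE = sgN n T`, `2nTE = 1 - e^(-2nT) < 1`, `ISN n TE = [0,T)`. NUX: `ν`; HMN at `t = 0`: `|hn F ν q 0 c| < 1` if
`gn = 1`. PNA, CNN. Unboundedness for FFT: `AA (FEN) = AA F/rr ≥ AA F = hS2 + n` (HSN for the frozen family), and
`AA F` is bounded on the compact `M × [0,t']` (CTN), so there are times `t > t'` with large `hS2`. FFT: `x_E`,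
`‖x_E‖² = rr n TE = e^(-2nT)`. `x = e^(nT) x_E`. Let `u = T-t`, `r = e^(-nt)`, `τ = sgN t`, `σ = √(2nu)`,
`m(u) = (1-e^(-2nu))/(2n)`, `TE - τ = r²m(u)`, `σ_E = √(2n(TE-τ)) = rκσ`, `κ = √(m(u)/u) ≤ 1`, `κ → 1` as `u → 0`
(`u - nu² ≤ m(u) ≤ u`). `F = FEN/r`: `F - x = (1/r)(FEN - x_E) + (e^(nt) - e^(nT))x_E`, the last term has norm
`1 - e^(-nu) ≤ nu ≤ √(nu)σ`. So `|‖F-x‖ - σ| ≤ η_Eσ_E/r + (1-κ)σ + nu` and
`‖F - x - σp‖ ≤ ‖FEN - x_E - σ_Ep‖/r + (1-κ)σ + nu ≤ (η_E + (1-κ) + √(nu))σ`. `p ⟂ x` iff `p ⟂ x_E`. A unit vector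
`c` for `F` at `t` (`gn F c = 1`): `c/r` is a unit vector for `FEN` and `hn (FEN) (c/r) = hn F c/r`, so
`σ_E|hn (FEN)| = κσ|hn F c|`, `|κσ|hn F c| - 1| ≤ η_E`, `|σ|hn F c| - 1| ≤ (η_E + 1 - κ)/κ`; `‖h(c,c)‖ = |hn F c|`
(HMN). -/
def StHFI : Prop := ∀ (n : ℕ), 2 ≤ n → ∀ (M : Type) [TopologicalSpace M] [T2Space M]
    [CompactSpace M] [ConnectedSpace M] [ChartedSpace (EE n) M] [IsManifold (𝓡 n) ∞ M]
    (F : M → ℝ → EE (n + 2)) (ν₀ : M → EE (n + 2)) (T : ℝ), 0 < T → SMCF n (Ico 0 T) F →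
    UN0 n F ν₀ → Pin1 n F → (∀ C : ℝ, ∃ t ∈ Ico 0 T, ∃ q, C < hS2 (n := n) F q t) →
    (∀ t ∈ Ico 0 T, Function.Injective (fun q => F q t)) ∧
    ∃ x : EE (n + 2), ‖x‖ = 1 ∧ ∀ η : ℝ, 0 < η → ∃ t₂ ∈ Ico 0 T, ∀ t ∈ Ico t₂ T,
      ∀ σ : ℝ, σ = Real.sqrt (2 * n * (T - t)) →
      (∀ q, |‖F q t - x‖ - σ| ≤ η * σ ∧
        (∀ u : Fin n → ℝ, ∑ i, ∑ j, gM (n := n) F q t i j * (u i * u j) = 1 →
          |σ * ‖∑ i, ∑ j, (u i * u j) • hM (n := n) F q t i j‖ - 1| ≤ η) ∧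
        ∃ p : EE (n + 2), (inner ℝ p x : ℝ) = 0 ∧ ‖p‖ = 1 ∧ ‖F q t - x - σ • p‖ ≤ η * σ) ∧
      ∀ p : EE (n + 2), (inner ℝ p x : ℝ) = 0 → ‖p‖ = 1 → ∃ q, ‖F q t - x - σ • p‖ ≤ η * σ

/-- HIN (hPNA : StPNA)(hGSF : StGSF)(hIFT : StIFT)(hGIJ : StGIJ)(hCNN : StCNN)(hHMN : StHMN)(hHSN : StHSN)
(hCTN : StCTN)(hNUX : StNUX). Infinite time, in the sphere.

Proof. `TE = 1/(2n)`, `ISN n TE = [0,∞)`. NUX, HMN, PNA, CNN as in HFI. GSF: `G, L, C, α` on `[t₁,TE)`; IFT and GIJ: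
`G` is injective. `τ = sgN t`: `rr n τ = e^(-2nt)`, `(1/√rr)FEN q τ = F q t`,
`rr h2N (FEN) q τ = AA F q t - n = hS2 F q t` (HSN): for `t ≥ tmN t₁`, `‖F - G‖ ≤ Ce^(-2nαt)`,
`hS2 ≤ Ce^(-4nαt) ≤ Ce^(-2nαt)`; for `t ∈ [0,tmN t₁]` both are bounded (compact `M × [0,t']`, CTN), larger `C`. -/
def StHIN : Prop := ∀ (n : ℕ), 2 ≤ n → ∀ (M : Type) [TopologicalSpace M] [T2Space M]
    [CompactSpace M] [ConnectedSpace M] [ChartedSpace (EE n) M] [IsManifold (𝓡 n) ∞ M]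
    (F : M → ℝ → EE (n + 2)) (ν₀ : M → EE (n + 2)), SMCF n (Ici 0) F →
    UN0 n F ν₀ → Pin1 n F →
    (∀ t : ℝ, 0 ≤ t → Function.Injective (fun q => F q t)) ∧
    ∃ (G : M → EE (n + 2)) (L : EE (n + 1) →ₗᵢ[ℝ] EE (n + 2)) (C α : ℝ), Continuous G ∧
      Function.Injective G ∧ range G = L '' Metric.sphere (0 : EE (n + 1)) 1 ∧ 0 < α ∧
      ∀ t : ℝ, 0 ≤ t → ∀ q, ‖F q t - G q‖ ≤ C * Real.exp (-α * t) ∧
        hS2 (n := n) F q t ≤ C * Real.exp (-α * t)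

/-! ### The hypersurface is diffeomorphic to the sphere -/

/-- a hypersurface `g` of the unit sphere with unit normal `η` and definite second fundamental form -/
structure CvH (n : ℕ) {M : Type} [TopologicalSpace M] [ChartedSpace (EE n) M]
    (g η : M → EE (n + 2)) : Prop where
  sg : ContMDiff (𝓡 n) 𝓘(ℝ, EE (n + 2)) ∞ g
  sη : ContMDiff (𝓡 n) 𝓘(ℝ, EE (n + 2)) ∞ η
  ng : ∀ q, ‖g q‖ = 1
  nη : ∀ q, ‖η q‖ = 1
  gη : ∀ q, (inner ℝ (g q) (η q) : ℝ) = 0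
  tη : ∀ p : M, ∀ y ∈ (chartAt (EE n) p).target, ∀ v : EE n,
    (inner ℝ (fderiv ℝ (fun y => g ((chartAt (EE n) p).symm y)) y v)
      (η ((chartAt (EE n) p).symm y)) : ℝ) = 0
  df : ∀ p : M, ∀ y ∈ (chartAt (EE n) p).target, ∀ v : EE n, v ≠ 0 →
    (inner ℝ (fderiv ℝ (fun y => g ((chartAt (EE n) p).symm y)) y v)
      (fderiv ℝ (fun y => η ((chartAt (EE n) p).symm y)) y v) : ℝ) < 0

/-- KCV (hWEI : StWEI). The parallel hypersurface at distance `π/4`.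

Proof. As in the proof of BLI (`Helper29/HSF/M_BLI.lean`) with `τ = 1`: `a₁ = s/ρ, b₁ = -s, a₂ = s/ρ, b₂ = s`,
`s = 1/√2`, `(a₁ + b₁κ)(a₂ + b₂κ) = ½(1/ρ - κ)(1/ρ + κ) > 0` for `|κ| < 1/ρ`; `g = a₁F - b₁ν`, `-η = a₂F - b₂ν`. -/
def StKCV : Prop := ∀ (n : ℕ) (M : Type) [TopologicalSpace M] [CompactSpace M]
    [ChartedSpace (EE n) M] [IsManifold (𝓡 n) ∞ M] (ρ t : ℝ) (F ν : M → ℝ → EE (n + 2)),
    Hyp n ρ t F ν → (∀ q, ∀ c : Fin n → ℝ, gn F q t c = 1 → |ρ * hn F ν q t c| < 1) →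
    CvH n (fun q => (1 / Real.sqrt 2) • ((1 / ρ) • F q t + ν q t))
      (fun q => (1 / Real.sqrt 2) • (ν q t - (1 / ρ) • F q t))

/-- KEX (hASP : StASP). An interior point.

Proof. ASP: `⟨g y,η x⟩ ≥ 0` for all `x, y`. For every `x` there is `y` with `⟨g y,η x⟩ > 0`: in the chart at `x` the
function `ψ = ⟨g,η x⟩` has `ψ = 0`, `Dψ = 0`, `D²ψ(v,v) = ⟨D²g(v,v),η⟩ = -⟨Dg v,Dη v⟩ > 0` at `x` (derivative of `tη`),
so `ψ > 0` at some points near `x`. The sets `{x : ⟨g y,η x⟩ > 0}` are open and cover the compact `M`: finitely many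
`y_i`; `e₁ = Σ g y_i` has `⟨e₁,η x⟩ > 0` for all `x`, `e₁ ≠ 0` (`M` nonempty), `e = e₁/‖e₁‖`. -/
def StKEX : Prop := ∀ (n : ℕ), 2 ≤ n → ∀ (M : Type) [TopologicalSpace M] [T2Space M]
    [CompactSpace M] [ConnectedSpace M] [ChartedSpace (EE n) M] [IsManifold (𝓡 n) ∞ M]
    (g η : M → EE (n + 2)), CvH n g η → ∃ e : EE (n + 2), ‖e‖ = 1 ∧ ∀ x, 0 < (inner ℝ e (η x) : ℝ)

/-- KIN (hASP : StASP). Every half great circle from `e` to `-e` meets the hypersurface at most once.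

Proof. If `a = 0`: `g x = b g y`, `b = 1` (`b > 0`, unit vectors), `g x = g y`. By ASP `ψ = ⟨g,η x⟩ ≥ 0` on `M` and
`ψ(y) = ⟨g x,η x⟩ = 0`: a minimum at `y`, so `Dg_y v ⟂ η x`; also `g y ⟂ η x`; `η y` has the same properties and
`g y`, `Dg_y(ℝ^n)` span a space of dimension `n + 1` (`Dg_y v ≠ 0` for `v ≠ 0` by `df`, `Dg v ⟂ g`), so `η x = ±η y`. If
`η x = -η y`: `⟨g z,η x⟩ ≥ 0` and `⟨g z,η y⟩ ≥ 0` for all `z` give `⟨g z,η y⟩ = 0` for all `z`, but the second derivative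
at `y` is positive (KEX): contradiction. So `η x = η y` and `x = y` by ASP. If `a > 0`:
`0 = ⟨g x,η x⟩ = a⟨e,η x⟩ + b⟨g y,η x⟩ > 0`, contradiction. -/
def StKIN : Prop := ∀ (n : ℕ), 2 ≤ n → ∀ (M : Type) [TopologicalSpace M] [T2Space M]
    [CompactSpace M] [ConnectedSpace M] [ChartedSpace (EE n) M] [IsManifold (𝓡 n) ∞ M]
    (g η : M → EE (n + 2)), CvH n g η → ∀ e : EE (n + 2), (∀ x, 0 < (inner ℝ e (η x) : ℝ)) →
    ∀ (x y : M) (a b : ℝ), 0 ≤ a → 0 < b → g x = a • e + b • g y → x = y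

/-- KLO. Inverse function theorem on manifolds.

Proof. At `x` read `f` in the charts `φ = chartAt x`, `ψ = chartAt (f x)`: `h = ψ ∘ f ∘ φ.symm` is smooth near `φ x`
with an invertible derivative (injective, equal dimension; `mfderiv` in the preferred charts is `fderiv h`), so
`ContDiffAt.toOpenPartialHomeomorph` and `ContDiffAt.to_localInverse` (smooth inverse near the point; shrink) give
a local diffeomorphism `h`; compose with the charts to get the `PartialDiffeomorph` required by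
`IsLocalDiffeomorphAt` (smooth on its source: `contMDiffOn_chart`, `contMDiffOn_chart_symm`). -/
def StKLO : Prop := ∀ (n : ℕ) (M N : Type) [TopologicalSpace M] [ChartedSpace (EE n) M]
    [IsManifold (𝓡 n) ∞ M] [TopologicalSpace N] [ChartedSpace (EE n) N]
    [IsManifold (𝓡 n) ∞ N] (f : M → N), ContMDiff (𝓡 n) (𝓡 n) ∞ f →
    (∀ x, Function.Injective (mfderiv (𝓡 n) (𝓡 n) f x)) → IsLocalDiffeomorph (𝓡 n) (𝓡 n) ∞ f

/-- KDF (hKEX : StKEX)(hKIN : StKIN)(hKLO : StKLO). The hypersurface is diffeomorphic to the sphere.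

Proof. `e` from KEX. `L : EE (n+1) →ₗᵢ EE (n+2)` with range `e^⊥`, `P` its adjoint: `P e = 0`, `‖P w‖` is the norm of the
component of `w` orthogonal to `e`, `ker P = ℝe`. `P (g x) ≠ 0` (`g x = ±e` would give `⟨g x,η x⟩ ≠ 0`).
`ψ x = P(g x)/‖P(g x)‖` is a smooth map into the unit sphere of `EE (n+1)` (`ContMDiff.codRestrict_sphere`). Its
derivative is injective: if it vanishes on the tangent vector `v` (chart coordinates) then `P(Dg v) = λP(g x)`, so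
`Dg v = λ g x + μe`; scalar product with `η x`: `0 = μ⟨e,η x⟩`, `μ = 0`; with `g x`: `λ = 0`; so `Dg v = 0` and `v = 0` by
`df`. KLO: `ψ` is a local diffeomorphism. Injective: if `ψ x = ψ y` then `P(g x) = bP(g y)`, `b > 0`,
`g x = ae + b g y`; if `a ≥ 0` KIN; if `a < 0` exchange `x` and `y` (`g y = (-a/b)e + (1/b)g x`). Surjective: the image is
open and compact, the sphere is connected (`n ≥ 1`). `IsLocalDiffeomorph.diffeomorphOfBijective`. -/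
def StKDF : Prop := ∀ (n : ℕ), 2 ≤ n → ∀ (M : Type) [TopologicalSpace M] [T2Space M]
    [CompactSpace M] [ConnectedSpace M] [ChartedSpace (EE n) M] [IsManifold (𝓡 n) ∞ M]
    (g η : M → EE (n + 2)), CvH n g η →
    Nonempty (M ≃ₘ⟮𝓡 n, 𝓡 n⟯ (Metric.sphere (0 : EE (n + 1)) 1))

/-- HDI (hNUX : StNUX)(hHMN : StHMN)(hKCV : StKCV)(hKDF : StKDF)(hCTN : StCTN). The manifold is diffeomorphic to the
sphere.

Proof. NUX: `ν`; `Hyp n 1 0 F ν` (`F`, `ν` smooth at the time `0` by restriction of the smooth maps on `univ ×ˢ I`,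
`0 ∈ I`; `SMCF.imm`, `SMCF.sph`). HMN: `|1 * hn F ν q 0 c| < 1` for `gn F q 0 c = 1`. KCV, KDF. -/
def StHDI : Prop := ∀ (n : ℕ), 2 ≤ n → ∀ (M : Type) [TopologicalSpace M] [T2Space M]
    [CompactSpace M] [ConnectedSpace M] [ChartedSpace (EE n) M] [IsManifold (𝓡 n) ∞ M]
    (I : Set ℝ) (F : M → ℝ → EE (n + 2)) (ν₀ : M → EE (n + 2)), UniqueDiffOn ℝ I →
    (0 : ℝ) ∈ I → SMCF n I F → UN0 n F ν₀ → Pin1 n F →
    Nonempty (M ≃ₘ⟮𝓡 n, 𝓡 n⟯ (Metric.sphere (0 : EE (n + 1)) 1))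

end Helper35.HSF
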