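import Pool.Agent.Helper35.MS.All
import Pool.Agent.Helper35.HSF.StH
import Pool.Agent.Helper34.HSF.M_LOC
import Pool.Agent.Helper10.HSF.M_AFC
import Pool.Agent.Helper16.HSF.M_ACL
import Pool.Agent.Helper89.HSF.M_ALC
import Pool.Agent.Helper78.HSF.M_ACN
import Pool.Agent.Helper24.HSF.M_ASP
import Pool.Agent.Helper40.HSF.M_WEI
import Pool.Agent.Helper29.HSF.M_BLI
import Pool.Agent.Helper22.HSF.M_BLC
import Pool.Agent.Helper10.HSF.M_NEG
import Pool.Agent.Helper94.HSF.M_HHY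
import Pool.Agent.Helper33.HSF.M_GCH
import Pool.Agent.Helper18.HSF.M_NUJ
import Pool.Agent.Helper19.HSF.M_BTJ
import Pool.Agent.Helper28.HSF.M_BLJ
import Pool.Agent.Helper66.HSF.M_SL2
import Pool.Agent.Helper30.HSF.M_SL1
import Pool.Agent.Helper87.HSF.M_SLB
import Pool.Agent.Helper80.HSF.M_TAL
import Pool.Agent.Helper40.HSF.M_TP1
import Pool.Agent.Helper14.HSF.M_CPZ
import Pool.Agent.Helper78.HSF.M_INO
import Pool.Agent.Helper47.HSF.M_INC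
import Pool.Agent.Helper64.HSF.M_PRS
import Pool.Agent.Helper62.HSF.M_PIZ
import Pool.Agent.Helper78.HSF.M_SMF
import Pool.Agent.Helper10.HSF.M_SMR
import Pool.Agent.Helper2.HSF.M_HTR
import Pool.Agent.Helper80.HSF.M_FZP
import Pool.Agent.Helper8.HSF.M_EVF
import Pool.Agent.Helper34.HSF.M_HNB
import Pool.Agent.Helper42.HSF.M_DVW
import Pool.Agent.Helper72.HSF.M_FLX
import Pool.Agent.Helper16.HSF.M_LNE
import Pool.Agent.Helper2.HSF.M_DIA
import Pool.Agent.Helper9.HSF.M_LGE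
import Pool.Agent.Helper84.HSF.M_CVX
import Pool.Agent.Helper81.HSF.M_LRG
import Pool.Agent.Helper94.HSF.M_FCV
import Pool.Agent.Helper73.HSF.M_HUN
import Pool.Agent.Helper98.HSF.M_SBN
import Pool.Agent.Helper39.HSF.M_MVN
import Pool.Agent.Helper95.HSF.M_PPN
import Pool.Agent.Helper40.HSF.M_ARE
import Pool.Agent.Helper51.HSF.M_ZRO
import Pool.Agent.Helper29.HSF.M_PBD
import Pool.Agent.Helper97.HSF.M_HZR
import Pool.Agent.Helper58.HSF.M_TCD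
import Pool.Agent.Helper28.HSF.M_DEC
import Pool.Agent.Helper19.HSF.M_IFT
import Pool.Agent.Helper89.HSF.M_LGM
import Pool.Agent.Helper58.HSF.M_SUR
import Pool.Agent.Helper38.HSF.M_GSF
import Pool.Agent.Helper2.HSF.M_ALK
import Pool.Agent.Helper24.HSF.M_ALQ
import Pool.Agent.Helper2.HSF.M_PKN
import Pool.Agent.Helper22.HSF.M_EAL
import Pool.Agent.Helper9.HSF.M_FBS
import Pool.Agent.Helper8.HSF.M_TYI
import Pool.Agent.Helper29.HSF.M_EPW
import Pool.Agent.Helper18.HSF.M_EPH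
import Pool.Agent.Helper26.HSF.M_THD
import Pool.Agent.Helper72.HSF.M_FLM
import Pool.Agent.Helper36.HSF.M_FII
import Pool.Agent.Helper40.HSF.M_FLD
import Pool.Agent.Helper78.HSF.M_FAB
import Pool.Agent.Helper10.HSF.M_FGT
import Pool.Agent.Helper16.HSF.M_FOS
import Pool.Agent.Helper22.HSF.M_FHC
import Pool.Agent.Helper80.HSF.M_SHP
import Pool.Agent.Helper75.HSF.M_BAL
import Pool.Agent.Helper39.HSF.M_RPT
import Pool.Agent.Helper26.HSF.M_SRJ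
import Pool.Agent.Helper95.HSF.M_FFT
import Pool.Agent.Helper28.HSF.M_GIJ
import Pool.Agent.Helper87.HSF.M_HSN
import Pool.Agent.Helper81.HSF.M_CTN
import Pool.Agent.Helper7.HSF.M_HMN
import Pool.Agent.Helper66.HSF.M_NUX
import Pool.Agent.Helper42.HSF.M_PIH
import Pool.Agent.Helper22.HSF.M_CNN
import Pool.Agent.Helper8.HSF.M_PNA
import Pool.Agent.Helper97.HSF.M_HFI
import Pool.Agent.Helper22.HSF.M_HIN
import Pool.Agent.Helper26.HSF.M_KCV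
import Pool.Agent.Helper29.HSF.M_KEX
import Pool.Agent.Helper8.HSF.M_KIN
import Pool.Agent.Helper95.HSF.M_KLO
import Pool.Agent.Helper76.HSF.M_KDF
import Pool.Agent.Helper58.HSF.M_HDI

/-!
Project HSF (MP_925021_gt): assembly of the modules.
-/

set_option autoImplicit false

namespace Helper35.HSF

open Helper35.PI Helper35.PI.All Helper35.PI2 Helper35.PI2.All Helper32.CL
open Pool.Agent.Helper35.CL Pool.Agent.Helper35.CL.All

theorem kLOC : StLOC := Helper34.HSF.hLOC 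
theorem kAFC : StAFC := Helper10.HSF.hAFC 
theorem kACL : StACL := Pool.Agent.Helper16.HSF.hACL 
theorem kALC : StALC := Helper89.HSF.hALC kACL
theorem kACN : StACN := Helper78.HSF.hACN kAFC kALC
theorem kASP : StASP := Pool.Agent.Helper24.HSF.hASP kLOC kACN
theorem kWEI : StWEI := Helper40.HSF.hWEI Helper35.MS.jI3J tNR
theorem kBLI : StBLI := Helper29.HSF.hBLI kASP kWEI
theorem kBLC : StBLC := Pool.Agent.Helper22.HSF.hBLC kASP kWEI tFR tNR Helper35.MS.jI4J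
theorem kNEG : StNEG := Helper10.HSF.hNEG 
theorem kHHY : StHHY := Helper94.HSF.hHHY 
theorem kGCH : StGCH := Helper33.HSF.hGCH tSM tI1 Helper35.MS.jI2J Helper35.MS.jI3J Helper95.PI.hC2 tC3 tMT tG0 tG1 tG2 Helper35.MS.jV6aJ tFR tNR
theorem kNUJ : StNUJ := Pool.Agent.Helper18.HSF.hNUJ tG0 tG1 tG2 tG3 tG7 tGH tJA tJB tSM
theorem kBTJ : StBTJ := Helper19.HSF.hBTJ tJA tJB tJD tG2 tG3
theorem kBLJ : StBLJ := Helper28.HSF.hBLJ tJA tJB tJD tG1 tG2 tG3 tG4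
theorem kSL2 : StSL2 := Helper66.HSF.hSL2 kGCH kNUJ kBTJ tG2 tNR Helper35.MS.jI2J
theorem kSL1 : StSL1 := Helper30.HSF.hSL1 kNUJ kBLJ tG1 tG2 tNR
theorem kSLB : StSLB := Helper87.HSF.hSLB kSL1 kSL2 kNEG kNUJ kGCH tC1
theorem kTAL : StTAL := Helper80.HSF.hTAL 
theorem kTP1 : StTP1 := Helper40.HSF.hTP1 kSLB kTAL kNEG tMP tJA tJB
theorem kCPZ : StCPZ := Helper14.HSF.hCPZ Helper35.MS.jI2J Helper35.MS.jI3J
theorem kINO : StINO := Helper78.HSF.hINO Helper35.MS.jI2J Helper35.MS.jI3J Helper35.MS.jI4J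
theorem kINC : StINC := Helper47.HSF.hINC kINO Helper35.MS.jI4J Helper35.MS.jI3J tFR
theorem kPRS : StPRS := Helper64.HSF.hPRS kTP1 kCPZ kINO kINC tSM Helper35.MS.jI2J Helper35.MS.jI3J
theorem kPIZ : StPIZ := Helper62.HSF.hPIZ kBLI kNEG
theorem kSMF : StSMF := Helper78.HSF.hSMF tSM Helper35.MS.jI2J Helper35.MS.jI3J
theorem kSMR : StSMR := Helper10.HSF.hSMR Helper35.MS.jI2J Helper35.MS.jI3J tFR tSM Helper35.MS.jV6aJ tNR
theorem kHTR : StHTR := Helper2.HSF.hHTR kSMR Helper35.MS.jPRJ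
theorem kFZP : StFZP := Helper80.HSF.hFZP kSMR kGCH tMP tC1
theorem kEVF : StEVF := Helper8.HSF.hEVF kGCH kNUJ kSMF kHTR tG1 tG2 tG3 tG4 tG5 tG10 tGH tC1 tJA tJB tNR
theorem kHNB : StHNB := Helper34.HSF.hHNB kEVF kGCH kNUJ tC1
theorem kDVW : StDVW := Helper42.HSF.hDVW tFR tNR Helper35.MS.jI3J
theorem kFLX : StFLX := Helper72.HSF.hFLX kDVW Helper35.MS.jFVJ kHHY
theorem kLNE : StLNE := Pool.Agent.Helper16.HSF.hLNE kFLX Helper35.MS.jFSJ Helper35.MS.jMUJ tV5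
theorem kDIA : StDIA := Helper2.HSF.hDIA 
theorem kLGE : StLGE := Helper9.HSF.hLGE kLNE kDIA kCPZ kHHY
theorem kCVX : StCVX := Pool.Agent.Helper84.HSF.hCVX kLGE kCPZ
theorem kLRG : StLRG := Helper81.HSF.hLRG kCVX
theorem kFCV : StFCV := Helper94.HSF.hFCV kLRG kNEG kFZP kEVF kHNB kHTR
theorem kHUN : StHUN := Helper73.HSF.hHUN Helper35.MS.jPRJ Helper35.MS.jFVJ Helper35.MS.jTDJ Helper35.MS.jMUJ Helper35.MS.jI4J kSMR
theorem kSBN : StSBN := Pool.Agent.Helper98.HSF.hSBN Helper35.MS.jMUJ Helper35.MS.jV4J tV1 Helper35.MS.jI2J Helper35.MS.jI3J tFR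
theorem kMVN : StMVN := Helper39.HSF.hMVN kHUN kSBN Helper35.MS.jMUJ kSMR
theorem kPPN : StPPN := Helper95.HSF.hPPN kHTR Helper35.MS.jMUJ
theorem kARE : StARE := Helper40.HSF.hARE Helper35.MS.jTDJ Helper35.MS.jFSJ
theorem kZRO : StZRO := Helper51.HSF.hZRO kCPZ kDIA kFZP kEVF kNEG kHHY kHTR kSMF
theorem kPBD : StPBD := Helper29.HSF.hPBD 
theorem kHZR : StHZR := Helper97.HSF.hHZR kMVN kARE kEVF kSMF kHTR Helper35.MS.jMUJ tV5
theorem kTCD : StTCD := Helper58.HSF.hTCD kSLB tMP tJA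
theorem kDEC : StDEC := Helper28.HSF.hDEC kTCD kCPZ tSM Helper35.MS.jI2J Helper35.MS.jI3J
theorem kIFT : StIFT := Helper19.HSF.hIFT kZRO kPBD kHZR kDEC kSLB kCPZ kHNB kEVF
theorem kLGM : StLGM := Helper89.HSF.hLGM kEVF kHNB
theorem kSUR : StSUR := Helper58.HSF.hSUR Helper35.MS.jFVJ Helper35.MS.jMUJ kARE kEVF Helper35.MS.jPRJ kHNB kHHY kSMF kSMR tV5
theorem kGSF : StGSF := Helper38.HSF.hGSF kSUR kLGM kIFT kHNB
theorem kALK : StALK := Helper2.HSF.hALK 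
theorem kALQ : StALQ := Pool.Agent.Helper24.HSF.hALQ 
theorem kPKN : StPKN := Helper2.HSF.hPKN kALK kALQ kGCH kNUJ kEVF tG1 tG2 tG7 tG8 tGV tGH tIB Helper35.MS.jMAJ kSMR kSMF kHTR tC1 tJA tJB
theorem kEAL : StEAL := Pool.Agent.Helper22.HSF.hEAL 
theorem kFBS : StFBS := Helper9.HSF.hFBS kHNB kEVF kGCH kNUJ tC1
theorem kTYI : StTYI := Helper8.HSF.hTYI kFBS kFZP kEVF kHTR
theorem kEPW : StEPW := Helper29.HSF.hEPW kSMR kHTR
theorem kEPH : StEPH := Pool.Agent.Helper18.HSF.hEPH kEAL kPKN kFBS kEPW kHTR kEVF Helper35.MS.jTDJ Helper35.MS.jFVJ Helper35.MS.jPRJ Helper35.MS.jMUJ kSMR kSMF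
theorem kTHD : StTHD := Helper26.HSF.hTHD kEPH kTYI kMVN kFBS kPKN kHTR Helper35.MS.jMUJ tV5 kSMF
theorem kFLM : StFLM := Helper72.HSF.hFLM kTYI kTHD kFBS kFZP kEVF kHTR kSMF
theorem kFII : StFII := Helper36.HSF.hFII kEVF Helper35.MS.jFVJ Helper35.MS.jTDJ kARE Helper35.MS.jPRJ kSMR kSMF Helper35.MS.jMUJ
theorem kFLD : StFLD := Helper40.HSF.hFLD kFII kFBS kEVF Helper35.MS.jMUJ kSMF kSMR
theorem kFAB : StFAB := Helper78.HSF.hFAB kFLD kMVN kFII kHTR Helper35.MS.jMUJ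
theorem kFGT : StFGT := Helper10.HSF.hFGT kFLD kFAB
theorem kFOS : StFOS := Helper16.HSF.hFOS kFGT kFAB kFLD kMVN kPPN kEVF kFBS kHTR Helper35.MS.jMUJ tV5
theorem kFHC : StFHC := Helper22.HSF.hFHC kFOS kFZP kEVF kFBS kHTR
theorem kSHP : StSHP := Helper80.HSF.hSHP kFHC kHNB kEVF kFBS
theorem kBAL : StBAL := Helper75.HSF.hBAL kSHP kBLI kBLC kHHY
theorem kRPT : StRPT := Helper39.HSF.hRPT kBAL kFZP kEVF kHTR kSMF
theorem kSRJ : StSRJ := Helper26.HSF.hSRJ kRPT kBAL kEVF Helper35.MS.jI4J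
theorem kFFT : StFFT := Helper95.HSF.hFFT kFCV kNEG kFLM kSHP kRPT kSRJ
theorem kGIJ : StGIJ := Helper28.HSF.hGIJ kEVF kHNB
theorem kHSN : StHSN := Helper87.HSF.hHSN tFR tNR Helper35.MS.jI2J
theorem kCTN : StCTN := Helper81.HSF.hCTN Helper35.MS.jI3J Helper35.MS.jI2J tFR
theorem kHMN : StHMN := Helper7.HSF.hHMN tFR tNR kCTN Helper35.MS.jI2J
theorem kNUX : StNUX := Helper66.HSF.hNUX kCTN Helper35.MS.jI3J
theorem kPIH : StPIH := Helper42.HSF.hPIH 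
theorem kCNN : StCNN := Helper22.HSF.CN.hCNN Helper35.MS.jSCL kHSN kCTN
theorem kPNA : StPNA := Helper8.HSF.hPNA kCNN kPIH kPIZ kPRS kBLI kHHY
theorem kHFI : StHFI := Helper97.HSF.hHFI kPNA kFFT kCNN kHMN kHSN kCTN kNUX
theorem kHIN : StHIN := Helper22.HSF.hHIN kPNA kGSF kIFT kGIJ kCNN kHMN kHSN kCTN kNUX
theorem kKCV : StKCV := Helper26.HSF.hKCV kWEI
theorem kKEX : StKEX := Helper29.HSF.hKEX kASP
theorem kKIN : StKIN := Helper8.HSF.hKIN kASP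
theorem kKLO : StKLO := Helper95.HSF.hKLO 
theorem kKDF : StKDF := Helper76.HSF.hKDF kKEX kKIN kKLO
theorem kHDI : StHDI := Helper58.HSF.hHDI kNUX kHMN kKCV kKDF

end Helper35.HSF
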