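import Pool.Agent.Helper35.HSF.StH
import Pool.Agent.Helper97.HSF.M_HFI

/-!
Project HSF (MP_925021_gt): injectivity for all times, without the assumption that `|h|` is unbounded.
-/

set_option autoImplicit false

namespace Helper35.HSF

open Helper35.PI Helper35.PI2 Helper32.CL Helper35.MS
open scoped ContDiff Manifold Topology ENNReal BigOperators
open MeasureTheory Set Filter

/-- all `F(·,t)` are injective -/
def StINJ : Prop := ∀ (n : ℕ), 2 ≤ n → ∀ (M : Type) [TopologicalSpace M] [T2Space M]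
    [CompactSpace M] [ConnectedSpace M] [ChartedSpace (EE n) M] [IsManifold (𝓡 n) ∞ M]
    (F : M → ℝ → EE (n + 2)) (ν₀ : M → EE (n + 2)) (T : ℝ), 0 < T → SMCF n (Ico 0 T) F →
    UN0 n F ν₀ → Pin1 n F → ∀ t ∈ Ico 0 T, Function.Injective (fun q => F q t)

theorem udIco (T : ℝ) (hT : 0 < T) : UniqueDiffOn ℝ (Ico 0 T) :=
  uniqueDiffOn_convex (convex_Ico 0 T) (by rw [interior_Ico]; exact nonempty_Ioo.2 hT)

theorem udIci : UniqueDiffOn ℝ (Ici (0 : ℝ)) :=
  uniqueDiffOn_convex (convex_Ici 0) (by rw [interior_Ici]; exact nonempty_Ioi)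

theorem hINJ (hPNA : StPNA) (hNUX : StNUX) (hHMN : StHMN) : StINJ := by
  intro n h2n M _ _ _ _ _ _ F ν₀ T hT hF hν hP
  have hn1 : 1 ≤ n := by omega
  have h0 : (0 : ℝ) ∈ Ico 0 T := ⟨le_rfl, hT⟩
  have hI := Helper97.HSF.ISN_sgN n hn1 T
  have hn0 : (0 : ℝ) < n := by
    have : (1 : ℝ) ≤ n := by exact_mod_cast hn1
    linarith
  obtain ⟨ν, hUN, -⟩ := hNUX n hn1 M (Ico 0 T) F ν₀ (udIco T hT) h0 hF hν
  have hTE : 0 < sgN n T := by
    rw [← Helper97.HSF.sgN_zero n]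
    exact (Helper97.HSF.sgN_lt n hn1).2 hT
  have hTE2 : 2 * n * sgN n T ≤ 1 := by
    unfold sgN
    rw [mul_div_cancel₀ _ (by positivity)]
    linarith [Real.exp_pos (-(2 * n * T))]
  have hp : ∀ q, ∀ c : Fin n → ℝ, gn F q 0 c = 1 → |hn F ν q 0 c| < 1 := by
    intro q c hc
    obtain ⟨h1, h2⟩ := hHMN n hn1 M (Ico 0 T) F ν hF hUN q 0 h0 c
    have h3 := hP q c (h1.trans hc)
    rw [h2, norm_smul, hUN.nν q 0 h0, mul_one, Real.norm_eq_abs] at h3
    nlinarith [abs_nonneg (hn F ν q 0 c)]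
  rw [← hI] at hF hUN
  obtain ⟨h1, -⟩ := hPNA n h2n M F ν (sgN n T) hTE hTE2 hF hUN hp
  intro t ht
  exact h1 t (by rw [hI]; exact ht)

end Helper35.HSF
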